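import Pool.Agent.LibSMP.DSMain

set_option autoImplicit false

namespace Pool.Agent.LibSMP

/-- Locally DS: in every local monoid `eSe`, the regular J-classes are subsemigroups. -/
def LocallyDS (S : Type*) [Semigroup S] : Prop :=
  ∀ e x y z a b c d : S, e * e = e → e * x = x → x * e = x → e * y = y → y * e = y →
    x * z * x = x → x = a * y * b → y = c * x * d → ∃ p q : S, x = p * (x * y) * q

section
variable {S : Type*} [Semigroup S]

lemma dsm_cor (h : LocallyDS S) (e : {e : S // e * e = e}) : DSM (Cor e) := by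
  rintro x y ⟨z, hz⟩ ⟨a, b, hab⟩ ⟨c, d, hcd⟩
  have h1 : x.1 * z.1 * x.1 = x.1 := congrArg Subtype.val hz
  have h2 : x.1 = a.1 * y.1 * b.1 := congrArg Subtype.val hab
  have h3 : y.1 = c.1 * x.1 * d.1 := congrArg Subtype.val hcd
  obtain ⟨p, q, hpq⟩ := h e.1 x.1 y.1 z.1 a.1 b.1 c.1 d.1 e.2 x.2.1 x.2.2 y.2.1 y.2.2 h1 h2 h3
  have e2 : ∀ t : S, e.1 * (e.1 * t) = e.1 * t := fun t => by rw [← mul_assoc, e.2]
  refine ⟨⟨e.1 * p * e.1, ?_, ?_⟩, ⟨e.1 * q * e.1, ?_, ?_⟩, ?_⟩
  · simp only [mul_assoc, e2]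
  · simp only [mul_assoc, e.2]
  · simp only [mul_assoc, e2]
  · simp only [mul_assoc, e.2]
  · apply Subtype.ext
    change x.1 = (e.1 * p * e.1) * (x.1 * y.1) * (e.1 * q * e.1)
    have ex : ∀ t : S, e.1 * (x.1 * t) = x.1 * t := fun t => by rw [← mul_assoc, x.2.1]
    have ye : ∀ t : S, y.1 * (e.1 * t) = y.1 * t := fun t => by rw [← mul_assoc, y.2.2]
    calc x.1 = e.1 * x.1 * e.1 := by rw [x.2.1, x.2.2]
      _ = e.1 * (p * (x.1 * y.1) * q) * e.1 := by rw [← hpq]
      _ = _ := by simp only [mul_assoc, ex, ye]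

/-- The product of all local monoids. -/
abbrev PP (S : Type*) [Semigroup S] : Type _ := ∀ e : {e : S // e * e = e}, Cor e

lemma dsm_pp (h : LocallyDS S) : DSM (PP S) := by
  rintro x y ⟨z, hz⟩ ⟨a, b, hab⟩ ⟨c, d, hcd⟩
  have H : ∀ e, JLe (x e) (x e * y e) := fun e =>
    dsm_cor h e (x e) (y e) ⟨z e, congrFun hz e⟩ ⟨a e, b e, congrFun hab e⟩
      ⟨c e, d e, congrFun hcd e⟩
  choose p q hpq using H
  exact ⟨p, q, funext hpq⟩

/-- The map from a corner of the product to a corner of `S`. -/
def corMap (f : {f : PP S // f * f = f}) (e : {e : S // e * e = e}) :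
    Cor f →* Cor (⟨(f.1 e).1, congrArg Subtype.val (congrFun f.2 e)⟩ : {e : S // e * e = e}) where
  toFun x := ⟨(x.1 e).1, congrArg Subtype.val (congrFun x.2.1 e),
    congrArg Subtype.val (congrFun x.2.2 e)⟩
  map_one' := rfl
  map_mul' _ _ := rfl

lemma solv_cor_pp [Finite S] (hs : ∀ e : {e : S // e * e = e}, Group.IsSolvable (Cor e)ˣ)
    (f : {f : PP S // f * f = f}) : Group.IsSolvable (Cor f)ˣ := by
  let Φ : (Cor f)ˣ →* (∀ e : {e : S // e * e = e},
      (Cor (⟨(f.1 e).1, congrArg Subtype.val (congrFun f.2 e)⟩ : {e : S // e * e = e}))ˣ) :=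
    MonoidHom.pi (fun e => Units.map (corMap f e))
  have hΦ : Function.Injective Φ := by
    intro x y hxy
    apply Units.ext
    apply Subtype.ext
    funext e
    apply Subtype.ext
    have h1 : corMap f e x.1 = corMap f e y.1 := congrArg Units.val (congrFun hxy e)
    have h2 : (corMap f e x.1).1 = (corMap f e y.1).1 := by rw [h1]
    exact h2
  have : Group.IsSolvable (∀ e : {e : S // e * e = e},
      (Cor (⟨(f.1 e).1, congrArg Subtype.val (congrFun f.2 e)⟩ : {e : S // e * e = e}))ˣ) :=
    solvable_pi _ (fun e => hs _)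
  exact Group.isSolvable_of_isSolvable_injective hΦ

lemma spw_pp [Finite S] (h : LocallyDS S)
    (hs : ∀ e : {e : S // e * e = e}, Group.IsSolvable (Cor e)ˣ) :
    SPW (PP S) (fun x y => x = y) := ds_main (dsm_pp h) (solv_cor_pp hs)

lemma exists_squeeze (e : {e : S // e * e = e}) (z : WithOne S) :
    ∃ c : Cor e, ((c.1 : S) : WithOne S) = (e.1 : WithOne S) * z * (e.1 : WithOne S) := by
  have e2 : ∀ t : S, e.1 * (e.1 * t) = e.1 * t := fun t => by rw [← mul_assoc, e.2]
  induction z using WithOne.recOneCoe with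
  | one =>
    refine ⟨⟨e.1, e.2, e.2⟩, ?_⟩
    rw [mul_one, ← WithOne.coe_mul]
    exact congrArg _ e.2.symm
  | coe x =>
    refine ⟨⟨e.1 * x * e.1, ?_, ?_⟩, ?_⟩
    · simp only [mul_assoc, e2]
    · simp only [mul_assoc, e.2]
    · simp only [WithOne.coe_mul]

/-- Squeezing an element of `S¹` into the local monoid. -/
noncomputable def squeeze (e : {e : S // e * e = e}) (z : WithOne S) : Cor e :=
  (exists_squeeze e z).choose

lemma squeeze_spec (e : {e : S // e * e = e}) (z : WithOne S) :
    (((squeeze e z).1 : S) : WithOne S) = (e.1 : WithOne S) * z * (e.1 : WithOne S) :=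
  (exists_squeeze e z).choose_spec

/-- Value of a list in `S¹`. -/
def vl (l : List S) : WithOne S := (l.map (fun s : S => (s : WithOne S))).prod

lemma vl_append (l m : List S) : vl (l ++ m) = vl l * vl m := by
  simp [vl]

lemma vl_cons (s : S) (l : List S) : vl (s :: l) = (s : WithOne S) * vl l := by
  simp [vl]

lemma vl_ne_nil {l : List S} (h : l ≠ []) : ∃ s : S, vl l = (s : WithOne S) := by
  induction l with
  | nil => exact absurd rfl h
  | cons s l ih =>
    by_cases hl : l = []
    · subst hl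
      exact ⟨s, by simp [vl]⟩
    · obtain ⟨t, ht⟩ := ih hl
      exact ⟨s * t, by rw [vl_cons, ht, WithOne.coe_mul]⟩

/-- Pigeonhole: a long word has a prefix whose value is stabilised by an idempotent. -/
lemma exists_window [Finite S] (l : List S) (hl : Nat.card (WithOne S) ≤ l.length) :
    ∃ (t : ℕ) (e : {e : S // e * e = e}), vl (l.take t) * (e.1 : WithOne S) = vl (l.take t) := by
  classical
  have : Finite (WithOne S) := inferInstanceAs (Finite (Option S))
  cases nonempty_fintype (WithOne S)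
  rw [Nat.card_eq_fintype_card] at hl
  obtain ⟨i, j, hij, hv⟩ : ∃ i j : Fin (l.length + 1), i < j ∧
      vl (l.take i) = vl (l.take j) := by
    obtain ⟨i, j, hne, h⟩ := Fintype.exists_ne_map_eq_of_card_lt
      (fun i : Fin (l.length + 1) => vl (l.take i)) (by rw [Fintype.card_fin]; omega)
    rcases lt_or_gt_of_ne hne with h' | h'
    · exact ⟨i, j, h', h⟩
    · exact ⟨j, i, h', h.symm⟩
  have hj : (j : ℕ) ≤ l.length := Nat.lt_succ_iff.1 j.2
  have hij' : (i : ℕ) < j := hij
  have hsplit : l.take j = l.take i ++ (l.drop i).take (j - i) := by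
    have e1 : (j : ℕ) = i + (j - i) := by omega
    conv_lhs => rw [e1]
    rw [List.take_add]
  have hne : (l.drop i).take (j - i) ≠ [] := by
    intro h
    have := congrArg List.length h
    simp only [List.length_take, List.length_drop, List.length_nil] at this
    omega
  obtain ⟨s, hs⟩ := vl_ne_nil hne
  have h1 : vl (l.take i) * (s : WithOne S) = vl (l.take i) := by
    conv_rhs => rw [hv, hsplit, vl_append, hs]
  obtain ⟨m, hm, hidem⟩ := exists_idem_pow (s : WithOne S)
  have h2 : ∀ m : ℕ, vl (l.take i) * (s : WithOne S) ^ m = vl (l.take i) := by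
    intro m
    induction m with
    | zero => simp
    | succ m ih => rw [pow_succ, ← mul_assoc, ih, h1]
  obtain ⟨r, hr⟩ : ∃ r : S, (s : WithOne S) ^ m = (r : WithOne S) := by
    have : (s : WithOne S) ^ m = vl (List.replicate m s) := by
      rw [vl, List.map_replicate, List.prod_replicate]
    rw [this]
    apply vl_ne_nil
    intro h
    have := congrArg List.length h
    simp only [List.length_replicate, List.length_nil] at this
    omega
  refine ⟨i, ⟨r, ?_⟩, ?_⟩
  · rw [hr, ← WithOne.coe_mul] at hidem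
    exact WithOne.coe_injective hidem
  · rw [← hr, h2]

end

end Pool.Agent.LibSMP
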