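import Pool.Agent.LibSMP.LDS

set_option autoImplicit false

namespace Pool.Agent.LibSMP

/-- A word with marked windows `ω` separated by the words in `ys`. -/
def XX {α : Type*} (ω : List α) (ys : List (List α)) : List α :=
  ω ++ (ys.map (fun y => y ++ ω)).flatten

lemma XX_cons {α : Type*} (ω y : List α) (ys : List (List α)) :
    XX ω (y :: ys) = ω ++ (y ++ XX ω ys) := by
  simp [XX, List.append_assoc]

lemma XX_split {α : Type*} [DecidableEq α] (ω : List α) : ∀ (bs : List (List α)) (c : ℕ),
    bs.count ω = c + 1 → ∃ (w0 : List α) (ys : List (List α)) (w1 : List α),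
      bs.flatten = w0 ++ XX ω ys ++ w1 ∧ ys.length = c := by
  intro bs
  induction bs with
  | nil => intro c hc; simp at hc
  | cons b bs ih =>
    intro c hc
    by_cases hb : b = ω
    · subst hb
      rw [List.count_cons_self] at hc
      rcases c with _ | c
      · exact ⟨[], [], bs.flatten, by simp [XX], rfl⟩
      · obtain ⟨w0, ys, w1, h1, h2⟩ := ih c (by omega)
        refine ⟨[], w0 :: ys, w1, ?_, by simp [h2]⟩
        rw [List.flatten_cons, h1, XX_cons]
        simp [List.append_assoc]
    · rw [List.count_cons_of_ne hb] at hc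
      obtain ⟨w0, ys, w1, h1, h2⟩ := ih c hc
      refine ⟨b ++ w0, ys, w1, ?_, h2⟩
      rw [List.flatten_cons, h1]
      simp [List.append_assoc]

lemma XX_sub {α : Type*} (ω : List α) {ys' ys : List (List α)} (h : ys'.Sublist ys) :
    (XX ω ys').Sublist (XX ω ys) := by
  refine List.Sublist.append (List.Sublist.refl _) ?_
  have h2 : (ys'.map (fun y => y ++ ω)).Sublist (ys.map (fun y => y ++ ω)) := h.map _
  exact flatten_sublist_of_sublist h2

lemma XX_len {α : Type*} (ω : List α) (hω : ω ≠ []) {ys' ys : List (List α)}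
    (h : ys'.Sublist ys) : (XX ω ys').length + ys.length ≤ (XX ω ys).length + ys'.length := by
  have hpos : 0 < ω.length := List.length_pos_iff.2 hω
  induction h with
  | slnil => simp
  | @cons l1 l2 b h ih =>
    rw [XX_cons]
    simp only [List.length_append, List.length_cons]
    omega
  | @cons_cons l1 l2 b h ih =>
    rw [XX_cons, XX_cons]
    simp only [List.length_append, List.length_cons]
    omega

lemma exists_count {k : ℕ} (R Q : ℕ) (bs : List (List (Fin k))) (h1 : ∀ b ∈ bs, b.length = R)
    (h2 : k ^ R * (Q + 1) < bs.length) : ∃ ω ∈ bs, Q + 1 < bs.count ω := by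
  classical
  by_contra hcon
  push Not at hcon
  have h3 : bs.toFinset.card ≤ k ^ R := by
    have hsub : bs.toFinset ⊆ Finset.univ.image (fun f : Fin R → Fin k => List.ofFn f) := by
      intro b hb
      rw [List.mem_toFinset] at hb
      have hb' := h1 b hb
      subst hb'
      rw [Finset.mem_image]
      exact ⟨fun i => b.get i, Finset.mem_univ _, List.ofFn_get b⟩
    refine (Finset.card_le_card hsub).trans (Finset.card_image_le.trans ?_)
    rw [Finset.card_univ, Fintype.card_fun, Fintype.card_fin, Fintype.card_fin]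
  have h4 : bs.length ≤ bs.toFinset.card * (Q + 1) := by
    rw [← List.sum_toFinset_count_eq_length bs]
    refine (Finset.sum_le_card_nsmul _ _ (Q + 1) ?_).trans_eq ?_
    · intro x hx
      have hx' := hcon x (List.mem_toFinset.1 hx)
      convert hx'
    · simp
  have h5 : bs.toFinset.card * (Q + 1) ≤ k ^ R * (Q + 1) := Nat.mul_le_mul_right _ h3
  omega

section Words
variable {S : Type*} [Semigroup S] {k n : ℕ}

/-- Value of a word in a coordinate. -/
def vw (a : Fin k → Fin n → S) (i : Fin n) (w : List (Fin k)) : WithOne S :=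
  vl (w.map (fun j => a j i))

lemma vw_append (a : Fin k → Fin n → S) (i : Fin n) (w w' : List (Fin k)) :
    vw a i (w ++ w') = vw a i w * vw a i w' := by
  rw [vw, List.map_append, vl_append]; rfl

lemma vw_XX (a : Fin k → Fin n → S) (i : Fin n) (ω : List (Fin k)) (t : ℕ)
    (e : {e : S // e * e = e})
    (he : vw a i (ω.take t) * (e.1 : WithOne S) = vw a i (ω.take t)) (ys : List (List (Fin k))) :
    vw a i (XX ω ys) = vw a i (ω.take t) *
      (((ys.map (fun y => squeeze e
        (vw a i (ω.drop t) * vw a i y * vw a i (ω.take t)))).prod.1 : S) : WithOne S) *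
      vw a i (ω.drop t) := by
  induction ys with
  | nil =>
    have : XX ω [] = ω := by simp [XX]
    rw [this]
    simp only [List.map_nil, List.prod_nil, Cor.one_val]
    rw [he, ← vw_append, List.take_append_drop]
  | cons y ys ih =>
    rw [XX_cons, vw_append, vw_append, ih, List.map_cons, List.prod_cons, Cor.mul_val,
      WithOne.coe_mul, squeeze_spec]
    have h1 : vw a i ω = vw a i (ω.take t) * vw a i (ω.drop t) := by
      rw [← vw_append, List.take_append_drop]
    have h2 : (e.1 : WithOne S) * (((ys.map (fun y => squeeze e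
        (vw a i (ω.drop t) * vw a i y * vw a i (ω.take t)))).prod.1 : S) : WithOne S) =
        (((ys.map (fun y => squeeze e
        (vw a i (ω.drop t) * vw a i y * vw a i (ω.take t)))).prod.1 : S) : WithOne S) := by
      rw [← WithOne.coe_mul]
      exact congrArg _ ((ys.map (fun y => squeeze e
        (vw a i (ω.drop t) * vw a i y * vw a i (ω.take t)))).prod).2.1
    rw [h1]
    generalize (((ys.map (fun y => squeeze e
        (vw a i (ω.drop t) * vw a i y * vw a i (ω.take t)))).prod.1 : S) : WithOne S) = Z at h2 ⊢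
    generalize vw a i (ω.take t) = A at he ⊢
    generalize vw a i (ω.drop t) = B
    generalize vw a i y = Y
    generalize (e.1 : WithOne S) = E at he h2 ⊢
    calc A * B * (Y * (A * Z * B)) = A * B * Y * A * Z * B := by simp only [mul_assoc]
      _ = (A * E) * B * Y * A * (E * Z) * B := by rw [he, h2]
      _ = _ := by simp only [mul_assoc]

lemma reduce_window [Finite S] {C : ℕ}
    (hC : ∀ (w : List (Fin n → PP S)), ∃ w' : List (Fin n → PP S), w'.Sublist w ∧
      w'.length ≤ (n + 2) ^ C ∧ ∀ i, w'.prod i = w.prod i)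
    (a : Fin k → Fin n → S) (ω : List (Fin k)) (hω : Nat.card (WithOne S) ≤ ω.length)
    (ys : List (List (Fin k))) :
    ∃ ys' : List (List (Fin k)), ys'.Sublist ys ∧ ys'.length ≤ (n + 2) ^ C ∧
      ∀ i, vw a i (XX ω ys') = vw a i (XX ω ys) := by
  classical
  have hwin : ∀ i, ∃ (t : ℕ) (e : {e : S // e * e = e}),
      vw a i (ω.take t) * (e.1 : WithOne S) = vw a i (ω.take t) := by
    intro i
    obtain ⟨t, e, h⟩ := exists_window (ω.map (fun j => a j i)) (by rw [List.length_map]; exact hω)
    refine ⟨t, e, ?_⟩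
    rw [vw, List.map_take]
    exact h
  choose t e he using hwin
  let c : List (Fin k) → ∀ i, Cor (e i) := fun y i => squeeze (e i)
    (vw a i (ω.drop (t i)) * vw a i y * vw a i (ω.take (t i)))
  let κ : List (Fin k) → Fin n → PP S := fun y i => Pi.mulSingle (e i) (c y i)
  have hκ : ∀ (ys : List (List (Fin k))) (i : Fin n),
      (ys.map κ).prod i (e i) = (ys.map (fun y => c y i)).prod := by
    intro ys i
    induction ys with
    | nil => rfl
    | cons y ys ih =>
      rw [List.map_cons, List.prod_cons, List.map_cons, List.prod_cons, ← ih]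
      change (κ y i (e i)) * _ = _
      simp only [κ, Pi.mulSingle_eq_same]
  obtain ⟨w', h1, h2, h3⟩ := hC (ys.map κ)
  obtain ⟨ys', h4, rfl⟩ := List.sublist_map_iff.1 h1
  refine ⟨ys', h4, by rwa [List.length_map] at h2, fun i => ?_⟩
  rw [vw_XX a i ω (t i) (e i) (he i), vw_XX a i ω (t i) (e i) (he i)]
  have h5 := congrFun (h3 i) (e i)
  rw [hκ, hκ] at h5
  rw [show (ys'.map (fun y => squeeze (e i)
    (vw a i (ω.drop (t i)) * vw a i y * vw a i (ω.take (t i))))).prod =
    (ys.map (fun y => squeeze (e i)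
    (vw a i (ω.drop (t i)) * vw a i y * vw a i (ω.take (t i))))).prod from h5]

end Words

theorem lds_lists {S : Type*} [Semigroup S] [Finite S] (h : LocallyDS S)
    (hs : ∀ e : {e : S // e * e = e}, Group.IsSolvable (Cor e)ˣ) :
    ∃ C : ℕ, ∀ (n k : ℕ) (a : Fin k → Fin n → S) (w : List (Fin k)), w ≠ [] →
      ∃ w' : List (Fin k), w' ≠ [] ∧ w'.Sublist w ∧ w'.length ≤ (n + k + 2) ^ C ∧
        ∀ i, vw a i w' = vw a i w := by
  classical
  obtain ⟨C0, hC0⟩ := spw_pp h hs
  set R := Nat.card (WithOne S) with hR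
  have hfin : Finite (WithOne S) := inferInstanceAs (Finite (Option S))
  have hRpos : 0 < R := Nat.card_pos
  refine ⟨2 * R + C0 + 2, ?_⟩
  intro n k a w
  induction hN : w.length using Nat.strong_induction_on generalizing w with
  | _ N ih =>
  intro hne
  by_cases hlen : w.length ≤ (n + k + 2) ^ (2 * R + C0 + 2)
  · exact ⟨w, hne, List.Sublist.refl _, hlen, fun i => rfl⟩
  push Not at hlen
  set Q := (n + 2) ^ C0 with hQ
  have hbound : R * (k ^ R * (Q + 1) + 1) ≤ (n + k + 2) ^ (2 * R + C0 + 2) := by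
    set b := n + k + 2 with hb
    have hb2 : 2 ≤ b := by omega
    have h1 : R ≤ b ^ R := (Nat.lt_pow_self (by omega)).le
    have h2 : k ^ R ≤ b ^ R := Nat.pow_le_pow_left (by omega) R
    have h3 : Q ≤ b ^ C0 := Nat.pow_le_pow_left (by omega) C0
    have h4 : 1 ≤ b ^ C0 := Nat.one_le_pow _ _ (by omega)
    have h5 : 1 ≤ b ^ R := Nat.one_le_pow _ _ (by omega)
    have h6 : Q + 1 ≤ b ^ C0 * b := by nlinarith
    have h7 : k ^ R * (Q + 1) + 1 ≤ b ^ R * (b ^ C0 * b) * b := by
      have : k ^ R * (Q + 1) ≤ b ^ R * (b ^ C0 * b) := Nat.mul_le_mul h2 h6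
      have h8 : 1 ≤ b ^ R * (b ^ C0 * b) := by
        have : 0 < b ^ R * (b ^ C0 * b) := by positivity
        omega
      nlinarith
    calc R * (k ^ R * (Q + 1) + 1) ≤ b ^ R * (b ^ R * (b ^ C0 * b) * b) := Nat.mul_le_mul h1 h7
      _ = b ^ (2 * R + C0 + 2) := by ring
  obtain ⟨bs, rem, hbs1, hbs2, hbs3⟩ := exists_cut R (k ^ R * (Q + 1) + 1) w (hbound.trans hlen.le)
  obtain ⟨ω, hω1, hω2⟩ := exists_count R Q bs hbs2 (by omega)
  obtain ⟨c, hc⟩ : ∃ c, bs.count ω = c + 1 := ⟨bs.count ω - 1, by omega⟩
  obtain ⟨w0, ys, w1, h1, h2⟩ := XX_split ω bs c hc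
  have hωlen : ω.length = R := hbs2 ω hω1
  have hωne : ω ≠ [] := by
    intro h0
    rw [h0, List.length_nil] at hωlen
    omega
  have hC0' : ∀ (w : List (Fin n → PP S)), ∃ w' : List (Fin n → PP S), w'.Sublist w ∧
      w'.length ≤ (n + 2) ^ C0 ∧ ∀ i, w'.prod i = w.prod i := fun w => hC0 n w
  obtain ⟨ys', h3, h4, h5⟩ := reduce_window hC0' a ω (by rw [hωlen]) ys
  have hwEq : w = w0 ++ XX ω ys ++ w1 ++ rem := by rw [hbs3, h1]
  have hsub : (w0 ++ XX ω ys' ++ w1 ++ rem).Sublist w := by
    rw [hwEq]
    exact (((List.Sublist.refl _).append (XX_sub ω h3)).append (List.Sublist.refl _)).append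
      (List.Sublist.refl _)
  have hlen2 := XX_len ω hωne h3
  have hlt : (w0 ++ XX ω ys' ++ w1 ++ rem).length < N := by
    rw [← hN, hwEq]
    simp only [List.length_append]
    have : ys'.length < ys.length := by
      rw [← hQ] at h4
      omega
    omega
  have hne' : w0 ++ XX ω ys' ++ w1 ++ rem ≠ [] := by
    intro h0
    have h6 := congrArg List.length h0
    simp only [List.length_append, List.length_nil, XX] at h6
    omega
  obtain ⟨w', g1, g2, g3, g4⟩ := ih _ hlt (w0 ++ XX ω ys' ++ w1 ++ rem) rfl hne'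
  refine ⟨w', g1, g2.trans hsub, g3, fun i => ?_⟩
  rw [g4 i, hwEq]
  simp only [vw_append, h5 i]

end Pool.Agent.LibSMP
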