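import Pool.Agent.LibSMP.Window

set_option autoImplicit false

namespace Pool.Agent.LibSMP

universe u

section
variable {S : Type u} [Semigroup S]

/-- The unit group of a local monoid, embedded in `S`. -/
def unitHom (e : {e : S // e * e = e}) : (Cor e)ˣ →ₙ* S where
  toFun x := x.1.1
  map_mul' _ _ := rfl

lemma unitHom_inj (e : {e : S // e * e = e}) : Function.Injective (unitHom e) := by
  intro x y h
  apply Units.ext
  apply Subtype.ext
  exact h

lemma vw_lift {k n : ℕ} (a : Fin k → Fin n → S) (i : Fin n) (x : FreeSemigroup (Fin k)) :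
    ((FreeSemigroup.lift a x i : S) : WithOne S) = vw a i (x.head :: x.tail) := by
  induction x with
  | ih1 j => rw [FreeSemigroup.lift_of]; simp [vw, vl]
  | ih2 j x _ ih =>
    rw [FreeSemigroup.lift_of_mul, Pi.mul_apply, WithOne.coe_mul, ih]
    simp [vw, vl, FreeSemigroup.of]

lemma lift_of_list {k n : ℕ} (a : Fin k → Fin n → S) (b : Fin n → S) (w : List (Fin k))
    (hw : w ≠ []) (h : ∀ i, vw a i w = ((b i : S) : WithOne S)) :
    ∃ x : FreeSemigroup (Fin k), x.length = w.length ∧ FreeSemigroup.lift a x = b := by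
  cases w with
  | nil => exact absurd rfl hw
  | cons j w =>
    refine ⟨⟨j, w⟩, rfl, ?_⟩
    funext i
    apply WithOne.coe_injective
    rw [vw_lift, h i]

lemma mem_closure_iff {k n : ℕ} (a : Fin k → Fin n → S) (b : Fin n → S) :
    b ∈ Subsemigroup.closure (Set.range a) ↔ ∃ x : FreeSemigroup (Fin k),
      FreeSemigroup.lift a x = b := by
  constructor
  · intro h
    induction h using Subsemigroup.closure_induction with
    | mem x hx =>
      obtain ⟨j, rfl⟩ := hx
      exact ⟨FreeSemigroup.of j, rfl⟩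
    | mul x y _ _ hx hy =>
      obtain ⟨x', rfl⟩ := hx
      obtain ⟨y', rfl⟩ := hy
      exact ⟨x' * y', map_mul _ _ _⟩
  · rintro ⟨x, rfl⟩
    induction x with
    | ih1 j => exact Subsemigroup.subset_closure ⟨j, rfl⟩
    | ih2 j x _ ih =>
      rw [FreeSemigroup.lift_of_mul]
      exact Subsemigroup.mul_mem _ (Subsemigroup.subset_closure ⟨j, rfl⟩) ih

theorem short_words [Finite S] (h : LocallyDS S)
    (hs : ∀ (G : Type u) [Group G] (f : G →ₙ* S), Function.Injective f → Group.IsSolvable G) :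
    ∃ C : ℕ, ∀ (n k : ℕ) (a : Fin k → Fin n → S) (b : Fin n → S),
      b ∈ Subsemigroup.closure (Set.range a) →
        ∃ w : FreeSemigroup (Fin k), w.length ≤ (n + k + 2) ^ C ∧ FreeSemigroup.lift a w = b := by
  obtain ⟨C, hC⟩ := lds_lists h (fun e => hs _ (unitHom e) (unitHom_inj e))
  refine ⟨C, fun n k a b hb => ?_⟩
  obtain ⟨x, rfl⟩ := (mem_closure_iff a b).1 hb
  obtain ⟨w', h1, _, h3, h4⟩ := hC n k a (x.head :: x.tail) (by simp)
  obtain ⟨y, hy1, hy2⟩ := lift_of_list a (FreeSemigroup.lift a x) w' h1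
    (fun i => by rw [h4 i, ← vw_lift])
  exact ⟨y, by rw [hy1]; exact h3, hy2⟩

end

end Pool.Agent.LibSMP
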