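import Pool.Agent.LibSMP.Cover

set_option autoImplicit false

/-!
Subpower membership is `NP`-hard if some local monoid is not completely regular.
-/

namespace Pool.Agent.LibSMP

open Pool.Agent.LibComplexity Enc

universe u

/-- Every local monoid `eSe` is completely regular: each of its elements lies in a subgroup. -/
def LocallyCR (S : Type u) [Semigroup S] : Prop :=
  ∀ e x : S, e * e = e → e * x = x → x * e = x → ∃ y : S, x * y * x = x ∧ x * y = y * x

section
variable {S : Type u} [Semigroup S]

/-- powers, with `e` as the power number `0` -/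
def pw (e a : S) : ℕ → S
  | 0 => e
  | n + 1 => pw e a n * a

variable {e a : S} (he : e * e = e) (hea : e * a = a) (hae : a * e = a)

include he in
theorem e_pw (n : ℕ) : e * pw e a n = pw e a n := by
  induction n with
  | zero => exact he
  | succ n ih => rw [pw, ← mul_assoc, ih]

include hea hae in
theorem a_pw (n : ℕ) : a * pw e a n = pw e a n * a := by
  induction n with
  | zero => rw [pw, hae, hea]
  | succ n ih => rw [pw, ← mul_assoc, ih]

include he hea hae in
theorem lift_pw {κ : Type*} (p : κ → Bool) (w : FreeSemigroup κ) :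
    FreeSemigroup.lift (fun g => if p g = true then a else e) w =
      pw e a ((w.head :: w.tail).countP p) := by
  induction w with
  | ih1 j =>
    rw [FreeSemigroup.lift_of]
    show (if p j = true then a else e) = pw e a ([j].countP p)
    rw [List.countP_singleton]
    by_cases h : p j = true
    · rw [if_pos h, if_pos h, pw, pw, hea]
    · rw [if_neg h, if_neg h, pw]
  | ih2 j x _ ih =>
    rw [FreeSemigroup.lift_of_mul, ih]
    show (if p j = true then a else e) * _ = pw e a ((j :: (x.head :: x.tail)).countP p)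
    generalize (x.head :: x.tail) = l
    rw [List.countP_cons]
    by_cases h : p j = true
    · rw [if_pos h, if_pos h, pw, a_pw hea hae]
    · rw [if_neg h, if_neg h, e_pw he, Nat.add_zero]

include he hea hae in
theorem pw_eq (hbad : ¬ ∃ y : S, a * y * a = a ∧ a * y = y * a) (n : ℕ) :
    pw e a n = a ↔ n = 1 := by
  constructor
  · intro h
    rcases n with _ | _ | n
    · exfalso
      apply hbad
      have : e = a := h
      subst this
      exact ⟨e, by rw [he, he], rfl⟩
    · rfl
    · exfalso
      apply hbad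
      refine ⟨pw e a n, ?_, a_pw hea hae n⟩
      rw [a_pw hea hae]
      exact h
  · rintro rfl
    exact hea

end

section
variable {α : Type} [Enc α] {𝒜 : Set Orc}

theorem ptf_vars {φ : Orc → α → CNF Vr} (hφ : PTf 𝒜 φ) : PTf 𝒜 (fun A x => vars (φ A x)) := by
  unfold vars
  refine PTf.flatMap (g := fun _ _ (c : List (Vr × Bool)) => c.map (fun l => l.1)) hφ ?_
  exact PTf.map (g := fun _ _ (l : Vr × Bool) => l.1) PTf.id.snd PTf.id.snd.fst

theorem ptf_occ {φ : Orc → α → CNF Vr} (hφ : PTf 𝒜 φ) : PTf 𝒜 (fun A x => occ (φ A x)) := by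
  unfold occ
  refine PTf.flatMap (g := fun A x (c : ℕ) => (List.range ((φ A x).getD c []).length).map
    (fun i => (c, i))) hφ.length.range ?_
  refine PTf.map (g := fun _ (p : α × ℕ) (i : ℕ) => (p.2, i)) ?_
    (PTf.id.fst.snd.pair PTf.id.snd)
  exact ((hφ.comp PTf.id.fst).listGetD PTf.id.snd (PTf.const [])).length.range

theorem ptf_sets (v0 : Vr) {φ : Orc → α → CNF Vr} (hφ : PTf 𝒜 φ) :
    PTf 𝒜 (fun A x => sets v0 (φ A x)) := by
  unfold sets
  refine PTf.append ?_ ?_
  · refine PTf.flatMap (g := fun _ _ (v : Vr) =>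
      [((0, (v, false), 0, 0) : Se Vr), (0, (v, true), 0, 0)]) (ptf_vars hφ) ?_
    refine PTf.cons ?_ (PTf.cons ?_ (PTf.const []))
    · exact (PTf.const 0).pair ((PTf.id.snd.pair (PTf.const false)).pair
        ((PTf.const 0).pair (PTf.const 0)))
    · exact (PTf.const 0).pair ((PTf.id.snd.pair (PTf.const true)).pair
        ((PTf.const 0).pair (PTf.const 0)))
  · refine PTf.flatMap (g := fun _ _ (o : ℕ × ℕ) =>
      [((1, (v0, false), o) : Se Vr), (2, (v0, false), o)]) (ptf_occ hφ) ?_
    refine PTf.cons ?_ (PTf.cons ?_ (PTf.const []))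
    · exact (PTf.const 1).pair ((PTf.const (v0, false)).pair PTf.id.snd)
    · exact (PTf.const 2).pair ((PTf.const (v0, false)).pair PTf.id.snd)

theorem ptf_elts (v0 : Vr) {φ : Orc → α → CNF Vr} (hφ : PTf 𝒜 φ) :
    PTf 𝒜 (fun A x => elts v0 (φ A x)) := by
  unfold elts
  refine PTf.append ?_ (PTf.append ?_ ?_)
  · refine PTf.map (g := fun _ _ (v : Vr) => ((0, v, 0, 0) : El Vr)) (ptf_vars hφ) ?_
    exact (PTf.const 0).pair (PTf.id.snd.pair ((PTf.const 0).pair (PTf.const 0)))
  · refine PTf.map (g := fun _ _ (c : ℕ) => ((1, v0, c, 0) : El Vr)) hφ.length.range ?_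
    exact (PTf.const 1).pair ((PTf.const v0).pair (PTf.id.snd.pair (PTf.const 0)))
  · refine PTf.map (g := fun _ _ (o : ℕ × ℕ) => ((2, v0, o) : El Vr)) (ptf_occ hφ) ?_
    exact (PTf.const 2).pair ((PTf.const v0).pair PTf.id.snd)

theorem ptf_inc (v0 : Vr) {φ : Orc → α → CNF Vr} {g : Orc → α → Se Vr} {z : Orc → α → El Vr}
    (hφ : PTf 𝒜 φ) (hg : PTf 𝒜 g) (hz : PTf 𝒜 z) :
    PTf 𝒜 (fun A x => inc v0 (φ A x) (g A x) (z A x)) := by
  have hlit : PTf 𝒜 (fun A x => lit v0 (φ A x) (z A x).2.2.1 (z A x).2.2.2) := by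
    unfold lit
    exact (hφ.listGetD hz.snd.snd.fst (PTf.const [])).listGetD hz.snd.snd.snd
      (PTf.const (v0, false))
  unfold inc
  refine PTf.bor (PTf.band ?_ (PTf.band ?_ ?_)) (PTf.bor (PTf.band ?_ (PTf.band ?_ ?_))
    (PTf.bor (PTf.band ?_ (PTf.band ?_ ?_)) (PTf.band (PTf.bnot ?_) (PTf.band ?_ ?_))))
  · exact PTf.decide_eq hg.fst (PTf.const 0)
  · exact PTf.decide_eq hz.fst (PTf.const 0)
  · exact PTf.decide_eq hg.snd.fst.fst hz.snd.fst
  · exact PTf.decide_eq hg.fst (PTf.const 0)
  · exact PTf.decide_eq hz.fst (PTf.const 2)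
  · exact PTf.decide_eq hlit (hg.snd.fst.fst.pair hg.snd.fst.snd.bnot)
  · exact PTf.decide_eq hg.fst (PTf.const 1)
  · exact PTf.decide_eq hz.fst (PTf.const 1)
  · exact PTf.decide_eq hg.snd.snd.fst hz.snd.snd.fst
  · exact PTf.decide_eq hg.fst (PTf.const 0)
  · exact PTf.decide_eq hz.fst (PTf.const 2)
  · exact PTf.decide_eq hg.snd.snd hz.snd.snd

end

theorem attach_map_val' {α β : Type} (l : List α) (f : α → β) :
    l.attach.map (fun k => f k.1) = l.map f := by
  conv_rhs => rw [← List.attach_map_subtype_val l]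
  rw [List.map_map]
  rfl

section
variable {S : Type} [Semigroup S] [Enc S]

/-- exact cover as subpower membership -/
theorem smp_cover {e a : S} (he : e * e = e) (hea : e * a = a) (hae : a * e = a)
    (hbad : ¬ ∃ y : S, a * y * a = a ∧ a * y = y * a) {G Z : Type} (Gs : List G) (Zs : List Z)
    (hG : Gs ≠ []) (hZ : Zs ≠ []) (inc : G → Z → Bool) :
    word (Gs.map (fun g => Zs.map (fun z => if inc g z = true then a else e)),
      Zs.map (fun _ => a)) ∈ SMP S ↔
      ∃ W : List G, (∀ g ∈ W, g ∈ Gs) ∧ ∀ z ∈ Zs, W.countP (fun g => inc g z) = 1 := by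
  have h1 : (Gs.map (fun g => Zs.map (fun z => if inc g z = true then a else e)),
      Zs.map (fun _ => a)) =
      (Gs.attach.map (fun g => Zs.attach.map (fun z => if inc g.1 z.1 = true then a else e)),
      Zs.attach.map (fun _ => a)) := by
    refine Prod.ext ?_ ?_
    · have h2 : ∀ g : {g // g ∈ Gs}, Zs.attach.map
          (fun z => if inc g.1 z.1 = true then a else e) =
          Zs.map (fun z => if inc g.1 z = true then a else e) :=
        fun g => attach_map_val' Zs (fun z => if inc g.1 z = true then a else e)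
      simp only [h2]
      exact (attach_map_val' Gs
        (fun g => Zs.map (fun z => if inc g z = true then a else e))).symm
    · exact (attach_map_val' Zs (fun _ => a)).symm
  rw [h1, mem_SMP (fun (g : {g // g ∈ Gs}) (z : {z // z ∈ Zs}) =>
    if inc g.1 z.1 = true then a else e) (fun _ => a) _ (List.mem_attach Gs) _
    (List.mem_attach Zs) (by simpa using hG) (by simpa using hZ), mem_closure_gen]
  constructor
  · rintro ⟨w, hw⟩
    refine ⟨(w.head :: w.tail).map Subtype.val, ?_, fun z hz => ?_⟩
    · intro g hg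
      obtain ⟨g', _, rfl⟩ := List.mem_map.1 hg
      exact g'.2
    · have h2 := congrFun hw ⟨z, hz⟩
      have h3 : FreeSemigroup.lift (fun (g : {g // g ∈ Gs}) (z : {z // z ∈ Zs}) =>
          if inc g.1 z.1 = true then a else e) w ⟨z, hz⟩ =
          FreeSemigroup.lift (fun g : {g // g ∈ Gs} => if inc g.1 z = true then a else e) w := by
        induction w with
        | ih1 j => rfl
        | ih2 j x _ ih =>
          clear ih hw h2
          have : ∀ y : FreeSemigroup {g // g ∈ Gs},
              FreeSemigroup.lift (fun (g : {g // g ∈ Gs}) (z : {z // z ∈ Zs}) =>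
              if inc g.1 z.1 = true then a else e) y ⟨z, hz⟩ =
              FreeSemigroup.lift (fun g : {g // g ∈ Gs} => if inc g.1 z = true then a else e) y := by
            intro y
            induction y with
            | ih1 j => rfl
            | ih2 j x _ ih =>
              rw [FreeSemigroup.lift_of_mul, FreeSemigroup.lift_of_mul, Pi.mul_apply, ih]
          exact this _
      rw [h3, lift_pw he hea hae (fun g : {g // g ∈ Gs} => inc g.1 z), pw_eq he hea hae hbad]
        at h2
      rw [List.countP_map]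
      exact h2
  · rintro ⟨W, hW1, hW2⟩
    have hne : W ≠ [] := by
      rintro rfl
      obtain ⟨z, hz⟩ := List.exists_mem_of_ne_nil Zs hZ
      have := hW2 z hz
      simp at this
    obtain ⟨W', rfl⟩ : ∃ W' : List {g // g ∈ Gs}, W = W'.map Subtype.val := by
      refine ⟨W.attach.map (fun g => ⟨g.1, hW1 g.1 g.2⟩), ?_⟩
      rw [List.map_map]
      exact (List.attach_map_subtype_val W).symm
    rcases W' with _ | ⟨g, W'⟩
    · exact absurd rfl hne
    · refine ⟨⟨g, W'⟩, ?_⟩
      funext z
      have h3 : ∀ y : FreeSemigroup {g // g ∈ Gs},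
          FreeSemigroup.lift (fun (g : {g // g ∈ Gs}) (z : {z // z ∈ Zs}) =>
          if inc g.1 z.1 = true then a else e) y z =
          FreeSemigroup.lift (fun g : {g // g ∈ Gs} => if inc g.1 z.1 = true then a else e) y := by
        intro y
        induction y with
        | ih1 j => rfl
        | ih2 j x _ ih =>
          rw [FreeSemigroup.lift_of_mul, FreeSemigroup.lift_of_mul, Pi.mul_apply, ih]
      rw [h3, lift_pw he hea hae (fun g : {g // g ∈ Gs} => inc g.1 z.1), pw_eq he hea hae hbad]
      have h4 := hW2 z.1 z.2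
      rw [List.countP_map] at h4
      exact h4

theorem np_hard [Finite S] (h : ¬ LocallyCR S) {L : Set (List Bool)} (hL : InNP ∅ L) :
    PolyRed L (SMP S) := by
  unfold LocallyCR at h
  push Not at h
  obtain ⟨e, a, he, hea, hae, hbad⟩ := h
  have hbad' : ¬ ∃ y : S, a * y * a = a ∧ a * y = y * a := by
    rintro ⟨y, h1, h2⟩
    exact hbad y h1 h2
  obtain ⟨F, hF1, hF2, hF3⟩ := cook_levin hL
  let v0 : Vr := (0, 0, 0, 0, false)
  let G : List Bool → List (List S) × List S := fun x =>
    ((sets v0 (F x)).map (fun g => (elts v0 (F x)).map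
      (fun z => if inc v0 (F x) g z = true then a else e)), (elts v0 (F x)).map (fun _ => a))
  have hG : ∀ 𝒜 : Set Orc, PTf 𝒜 (fun _ x => G x) := by
    intro 𝒜
    refine PTf.pair ?_ ?_
    · refine PTf.map (g := fun _ x g => (elts v0 (F x)).map
        (fun z => if inc v0 (F x) g z = true then a else e)) (ptf_sets v0 (hF1 𝒜)) ?_
      refine PTf.map (l := fun _ (p : List Bool × Se Vr) => elts v0 (F p.1))
        (g := fun _ (p : List Bool × Se Vr) z => if inc v0 (F p.1) p.2 z = true then a else e)
        (ptf_elts v0 ((hF1 𝒜).comp PTf.id.fst)) ?_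
      exact PTf.ite (ptf_inc v0 ((hF1 𝒜).comp PTf.id.fst.fst) PTf.id.fst.snd PTf.id.snd)
        (PTf.const a) (PTf.const e)
    · exact PTf.map (g := fun _ _ _ => a) (ptf_elts v0 (hF1 𝒜)) (PTf.const a)
  refine ⟨fun x => word (G x), inFP_iff.2 (hG {∅}).word, fun x => ?_⟩
  obtain ⟨l, l', φ, hφ⟩ := hF2 x
  have h0 : (0, 0) ∈ occ (F x) := by
    rw [mem_occ, hφ]
    simp
  have hG0 : sets v0 (F x) ≠ [] := by
    intro hcon
    have : (1, (v0, false), (0, 0)) ∈ sets v0 (F x) :=
      (mem_sets v0).2 (Or.inr ⟨(0, 0), h0, Or.inl rfl⟩)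
    rw [hcon] at this
    cases this
  have hZ0 : elts v0 (F x) ≠ [] := by
    intro hcon
    have : (2, v0, (0, 0)) ∈ elts v0 (F x) := by
      unfold elts
      simp only [List.mem_append, List.mem_map]
      exact Or.inr (Or.inr ⟨(0, 0), h0, rfl⟩)
    rw [hcon] at this
    cases this
  show _ ↔ word (G x) ∈ SMP S
  rw [hF3, smp_cover he hea hae hbad' _ _ hG0 hZ0 (inc v0 (F x))]
  constructor
  · intro h
    obtain ⟨W, h1, h2⟩ := cover_of_sat v0 h
    exact ⟨W, h1, h2⟩
  · rintro ⟨W, h1, h2⟩
    exact sat_of_cover v0 h1 h2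

end

end Pool.Agent.LibSMP
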