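import Mathlib

set_option autoImplicit false

namespace Pool.Agent.LibSMP


/-- Chevalley-Warning: among more than `n*(p-1)` vectors of `F_p^n` there is a nonempty
zero-sum subfamily. -/
lemma zmod_zero_sum (p : ℕ) [hp : Fact p.Prime] (n L : ℕ) (hL : n * (p - 1) < L)
    (v : Fin L → Fin n → ZMod p) :
    ∃ s : Finset (Fin L), s.Nonempty ∧ ∀ i, ∑ j ∈ s, v j i = 0 := by
  classical
  let f : Fin n → MvPolynomial (Fin L) (ZMod p) := fun i =>
    ∑ j, MvPolynomial.C (v j i) * MvPolynomial.X j ^ (p - 1)
  have hdeg : ∀ i, (f i).totalDegree ≤ p - 1 := by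
    intro i
    refine (MvPolynomial.totalDegree_finsetSum _ _).trans ?_
    refine Finset.sup_le fun j _ => ?_
    refine (MvPolynomial.totalDegree_mul _ _).trans ?_
    rw [MvPolynomial.totalDegree_C, zero_add]
    refine (MvPolynomial.totalDegree_pow _ _).trans ?_
    rw [MvPolynomial.totalDegree_X, mul_one]
  have hsum : (∑ i, (f i).totalDegree) < Fintype.card (Fin L) := by
    refine lt_of_le_of_lt (Finset.sum_le_sum fun i _ => hdeg i) ?_
    simpa using hL
  have hdvd : p ∣ Fintype.card
      { x : Fin L → ZMod p // ∀ i, MvPolynomial.eval x (f i) = 0 } := by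
    convert char_dvd_card_solutions_of_fintype_sum_lt p hsum
  have hp1 : p - 1 ≠ 0 := by have := hp.out.two_le; omega
  have heval : ∀ (x : Fin L → ZMod p) i, MvPolynomial.eval x (f i)
      = ∑ j, v j i * x j ^ (p - 1) := by
    intro x i
    simp [f, map_sum]
  have h0 : ∀ i, MvPolynomial.eval (0 : Fin L → ZMod p) (f i) = 0 := by
    intro i; rw [heval]; simp [hp1]
  have hpos : 0 < Fintype.card { x : Fin L → ZMod p // ∀ i, MvPolynomial.eval x (f i) = 0 } :=
    Fintype.card_pos_iff.mpr ⟨⟨0, h0⟩⟩
  have hcard := lt_of_lt_of_le hp.out.one_lt (Nat.le_of_dvd hpos hdvd)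
  obtain ⟨x, hx⟩ := Fintype.exists_ne_of_one_lt_card hcard ⟨0, h0⟩
  refine ⟨Finset.univ.filter fun j => x.1 j ≠ 0, ?_, ?_⟩
  · by_contra hne
    rw [Finset.not_nonempty_iff_eq_empty, Finset.filter_eq_empty_iff] at hne
    apply hx
    apply Subtype.ext
    funext j
    have := hne (Finset.mem_univ j)
    simpa using this
  · intro i
    have h1 := x.2 i
    rw [heval] at h1
    refine Eq.trans ?_ h1
    rw [Finset.sum_filter]
    refine Finset.sum_congr rfl fun j _ => ?_
    by_cases hj : x.1 j = 0
    · simp [hj, hp1]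
    · simp [hj, ZMod.pow_card_sub_one_eq_one hj]

/-- Property: polynomially long sequences over `G^n` have nonempty subsequences
with ordered product one. -/
def PO (G : Type*) [Group G] : Prop :=
  ∃ C : ℕ, ∀ (n : ℕ) (l : List (Fin n → G)), (n + 2) ^ C ≤ l.length →
    ∃ l' : List (Fin n → G), l'.Sublist l ∧ l' ≠ [] ∧ l'.prod = 1

/-- Cutting a long list into `b` segments each containing a good nonempty sublist. -/
lemma exists_blocks {α : Type*} (Q : List α → Prop) (a : ℕ)
    (h : ∀ l : List α, a ≤ l.length → ∃ l' : List α, l'.Sublist l ∧ l' ≠ [] ∧ Q l') :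
    ∀ (b : ℕ) (l : List α), a * b ≤ l.length →
      ∃ LL : List (List α), LL.length = b ∧ LL.flatten.Sublist l ∧
        ∀ m ∈ LL, m ≠ [] ∧ Q m := by
  intro b
  induction b with
  | zero => intro l _; exact ⟨[], rfl, by simp, by simp⟩
  | succ b ih =>
    intro l hl
    have h1 : a ≤ (l.take a).length := by
      rw [List.length_take]
      have : a ≤ l.length := by nlinarith [Nat.le_mul_of_pos_right a (Nat.succ_pos b)]
      omega
    obtain ⟨m, hm1, hm2, hm3⟩ := h _ h1
    have h2 : a * b ≤ (l.drop a).length := by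
      rw [List.length_drop]
      have : a * (b + 1) = a * b + a := by ring
      omega
    obtain ⟨LL, hLL1, hLL2, hLL3⟩ := ih _ h2
    refine ⟨m :: LL, by simp [hLL1], ?_, ?_⟩
    · rw [List.flatten_cons]
      have := hm1.append hLL2
      rwa [List.take_append_drop] at this
    · intro m' hm'
      rcases List.mem_cons.1 hm' with rfl | hm'
      · exact ⟨hm2, hm3⟩
      · exact hLL3 _ hm'

lemma flatten_sublist_of_sublist {α : Type*} {L₁ L₂ : List (List α)} (h : L₁.Sublist L₂) :
    L₁.flatten.Sublist L₂.flatten := by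
  induction h with
  | slnil => simp
  | cons a _ ih => exact ih.trans (by simp)
  | cons_cons a _ ih => simpa using ih

/-- Cyclic group of prime order. -/
lemma cyc_prime (G : Type*) [Group G] [Finite G] (N : Subgroup G) [N.Normal]
    (hp : (Nat.card (G ⧸ N)).Prime) (n : ℕ) (l : List (Fin n → G))
    (hl : n * (Nat.card (G ⧸ N) - 1) + 1 ≤ l.length) :
    ∃ l' : List (Fin n → G), l'.Sublist l ∧ l' ≠ [] ∧ ∀ i, l'.prod i ∈ N := by
  classical
  set p := Nat.card (G ⧸ N) with hpdef
  have : Fact p.Prime := ⟨hp⟩
  have : IsCyclic (G ⧸ N) := isCyclic_of_prime_card (p := p) rfl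
  let φ : (G ⧸ N) ≃* Multiplicative (ZMod p) := (zmodCyclicMulEquiv inferInstance).symm
  let ψ : G →* Multiplicative (ZMod p) := φ.toMonoidHom.comp (QuotientGroup.mk' N)
  obtain ⟨s, hs, hsum⟩ := zmod_zero_sum p n l.length (by omega)
    (fun j i => Multiplicative.toAdd (ψ (l.get j i)))
  have hfin : (List.finRange l.length).map l.get = l := by
    exact List.map_get_finRange l
  refine ⟨((List.finRange l.length).filter (· ∈ s)).map l.get, ?_, ?_, ?_⟩
  · conv_rhs => rw [← hfin]
    exact List.Sublist.map _ List.filter_sublist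
  · obtain ⟨j, hj⟩ := hs
    have : j ∈ (List.finRange l.length).filter (· ∈ s) := by simp [hj]
    intro h
    rw [List.map_eq_nil_iff] at h
    rw [h] at this
    simp at this
  · intro i
    have h1 : ψ ((((List.finRange l.length).filter (· ∈ s)).map l.get).prod i) = 1 := by
      have h2 : ((((List.finRange l.length).filter (· ∈ s)).map l.get).prod i)
          = (((List.finRange l.length).filter (· ∈ s)).map (fun j => l.get j i)).prod := by
        rw [Pi.list_prod_apply, List.map_map]
        rfl
      rw [h2, map_list_prod, List.map_map]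
      have h3 : ((List.finRange l.length).filter (· ∈ s)).Nodup :=
        (List.nodup_finRange _).filter _
      have h4 : (((List.finRange l.length).filter (· ∈ s)).map
          (⇑ψ ∘ fun j => l.get j i)).prod
          = ∏ j ∈ ((List.finRange l.length).filter (· ∈ s)).toFinset, ψ (l.get j i) := by
        rw [List.prod_toFinset _ h3]; rfl
      rw [h4]
      have h5 : ((List.finRange l.length).filter (· ∈ s)).toFinset = s := by
        ext j; simp
      rw [h5]
      apply Multiplicative.toAdd.injective
      rw [toAdd_prod, toAdd_one]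
      exact hsum i
    have h6 : (QuotientGroup.mk' N) ((((List.finRange l.length).filter (· ∈ s)).map l.get).prod i)
        = 1 := by
      apply φ.injective
      rw [map_one]; exact h1
    exact (QuotientGroup.eq_one_iff _).1 h6

/-- Extension step. -/
lemma PO_ext (G : Type*) [Group G] [Finite G] (N : Subgroup G) [N.Normal]
    (hp : (Nat.card (G ⧸ N)).Prime) (hN : PO N) : PO G := by
  obtain ⟨C, hC⟩ := hN
  set p := Nat.card (G ⧸ N) with hpdef
  refine ⟨p + 1 + C, ?_⟩
  intro n l hl
  have h1 : n * (p - 1) + 1 ≤ (n + 2) ^ (p + 1) := by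
    have hp' : p < 2 ^ p := Nat.lt_two_pow_self
    have h2 : (2:ℕ) ^ p ≤ (n + 2) ^ p := Nat.pow_le_pow_left (by omega) _
    have h3 : (1:ℕ) ≤ (n + 2) ^ p := Nat.one_le_pow _ _ (by omega)
    calc n * (p - 1) + 1 ≤ n * (n + 2) ^ p + (n+2) ^ p := by
          gcongr
          omega
      _ ≤ (n + 2) ^ (p + 1) := by rw [pow_succ]; nlinarith
  have h2 : (n * (p - 1) + 1) * (n + 2) ^ C ≤ l.length := by
    refine le_trans ?_ hl
    rw [pow_add (n+2) (p+1) C]
    exact Nat.mul_le_mul_right _ h1
  obtain ⟨LL, hLL1, hLL2, hLL3⟩ := exists_blocks (fun m : List (Fin n → G) => ∀ i, m.prod i ∈ N)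
    (n * (p - 1) + 1) (fun l hl => cyc_prime G N hp n l hl) ((n+2)^C) l h2
  let toN : {m : List (Fin n → G) // m ∈ LL} → (Fin n → N) := fun m i =>
    ⟨m.1.prod i, (hLL3 _ m.2).2 i⟩
  obtain ⟨K, hK1, hK2, hK3⟩ := hC n (LL.attach.map toN) (by simp [hLL1])
  obtain ⟨L', hL'1, hL'2⟩ := List.sublist_map_iff.1 hK1
  have hsub : (L'.map Subtype.val).Sublist LL := by
    have := hL'1.map Subtype.val
    rwa [List.attach_map_subtype_val] at this
  refine ⟨(L'.map Subtype.val).flatten, (flatten_sublist_of_sublist hsub).trans hLL2, ?_, ?_⟩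
  · intro h
    have hne : L' ≠ [] := by
      rintro rfl
      simp at hL'2
      exact hK2 hL'2
    obtain ⟨m, hm⟩ := List.exists_mem_of_ne_nil _ hne
    rw [List.flatten_eq_nil_iff] at h
    exact (hLL3 _ m.2).1 (h _ (List.mem_map_of_mem hm))
  · funext i
    have e1 : (L'.map Subtype.val).flatten.prod = ((L'.map Subtype.val).map List.prod).prod :=
      List.prod_flatten
    rw [e1]
    have e2 : ((((L'.map Subtype.val).map List.prod).prod : Fin n → G) i)
        = ((K.prod i : N) : G) := by
      rw [hL'2]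
      rw [Pi.list_prod_apply, Pi.list_prod_apply]
      rw [← Subgroup.coe_subtype, map_list_prod]
      simp only [List.map_map]
      rfl
    rw [e2, hK3]
    rfl

/-- A nontrivial finite solvable group has a normal subgroup of prime index. -/
lemma exists_prime_index (G : Type*) [Group G] [Finite G] [Nontrivial G] [Group.IsSolvable G] :
    ∃ N : Subgroup G, N.Normal ∧ (Nat.card (G ⧸ N)).Prime := by
  classical
  have hfin : {N : Subgroup G | N.Normal ∧ N ≠ ⊤}.Finite := Set.toFinite _
  have hne : {N : Subgroup G | N.Normal ∧ N ≠ ⊤}.Nonempty := ⟨⊥, inferInstance, bot_ne_top⟩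
  obtain ⟨N, hN⟩ := hfin.exists_maximal hne
  obtain ⟨hNn, hNt⟩ := hN.prop
  have := hNn
  have : Nontrivial (G ⧸ N) := by
    rw [QuotientGroup.nontrivial_iff]; exact hNt
  have hsimple : IsSimpleGroup (G ⧸ N) := by
    constructor
    intro H hH
    have hc : (H.comap (QuotientGroup.mk' N)).Normal := inferInstance
    by_cases htop : H.comap (QuotientGroup.mk' N) = ⊤
    · right
      rw [eq_top_iff]
      intro x _
      obtain ⟨g, rfl⟩ := QuotientGroup.mk'_surjective N x
      have : g ∈ H.comap (QuotientGroup.mk' N) := by rw [htop]; trivial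
      exact this
    · left
      have hle : N ≤ H.comap (QuotientGroup.mk' N) := by
        intro x hx
        rw [Subgroup.mem_comap]
        have : (QuotientGroup.mk' N) x = 1 := (QuotientGroup.eq_one_iff _).2 hx
        rw [this]; exact H.one_mem
      have heq := hN.le_of_ge ⟨hc, htop⟩ hle
      rw [eq_bot_iff]
      intro x hx
      obtain ⟨g, rfl⟩ := QuotientGroup.mk'_surjective N x
      have : g ∈ N := heq hx
      rw [Subgroup.mem_bot]
      exact (QuotientGroup.eq_one_iff _).2 this
  refine ⟨N, hNn, ?_⟩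
  have hcomm := IsSimpleGroup.comm_iff_isSolvable.2 (inferInstance : Group.IsSolvable (G ⧸ N))
  let _ : CommGroup (G ⧸ N) := { (inferInstance : Group (G ⧸ N)) with mul_comm := hcomm }
  exact (CommGroup.is_simple_iff_prime_card (α := G ⧸ N)).1 hsimple

theorem PO_of_solvable.{u} : ∀ (m : ℕ) (G : Type u) [Group G] [Finite G] [Group.IsSolvable G],
    Nat.card G ≤ m → PO G := by
  intro m
  induction m with
  | zero =>
    intro G _ _ _ h
    have : 0 < Nat.card G := Nat.card_pos
    omega
  | succ m ih =>
    intro G _ _ _ h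
    rcases subsingleton_or_nontrivial G with hs | hnt
    · refine ⟨0, fun n l hl => ⟨l, List.Sublist.refl _, ?_, ?_⟩⟩
      · rintro rfl; simp at hl
      · exact Subsingleton.elim _ _
    · obtain ⟨N, hN, hp⟩ := exists_prime_index G
      refine PO_ext G N hp (ih N ?_)
      have h1 : Nat.card N * Nat.card (G ⧸ N) = Nat.card G := by
        rw [mul_comm]; exact (Subgroup.card_eq_card_quotient_mul_card_subgroup N).symm
      have h2 := hp.two_le
      have h3 : 0 < Nat.card N := Nat.card_pos
      nlinarith

theorem PO_solvable (G : Type*) [Group G] [Finite G] [Group.IsSolvable G] : PO G :=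
  PO_of_solvable _ G le_rfl

end Pool.Agent.LibSMP
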