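import Pool.Agent.LibSMP.Lang

set_option autoImplicit false

/-!
Exact covers and satisfiability.
-/

namespace Pool.Agent.LibSMP

open Pool.Agent.LibComplexity Enc

/-- elements to be covered: `(0, v, _, _)` for a variable, `(1, _, c, _)` for a clause,
`(2, _, c, i)` for an occurrence -/
abbrev El (V : Type) : Type := ℕ × V × ℕ × ℕ

/-- sets: `(0, (v, b), _, _)` assigns `b` to `v`, `(1, _, c, i)` chooses the occurrence `(c, i)`,
`(2, _, c, i)` covers the occurrence `(c, i)` -/
abbrev Se (V : Type) : Type := ℕ × (V × Bool) × ℕ × ℕ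

section
variable {V : Type} [DecidableEq V] (v0 : V)

/-- literal number `i` of clause `c` -/
def lit (φ : CNF V) (c i : ℕ) : V × Bool := (φ.getD c []).getD i (v0, false)

/-- the set `g` contains the element `z` -/
def inc (φ : CNF V) (g : Se V) (z : El V) : Bool :=
  (decide (g.1 = 0) && (decide (z.1 = 0) && decide (g.2.1.1 = z.2.1))) ||
  ((decide (g.1 = 0) && (decide (z.1 = 2) &&
    decide (lit v0 φ z.2.2.1 z.2.2.2 = (g.2.1.1, !g.2.1.2)))) ||
  ((decide (g.1 = 1) && (decide (z.1 = 1) && decide (g.2.2.1 = z.2.2.1))) ||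
  ((!decide (g.1 = 0)) && (decide (z.1 = 2) && decide (g.2.2 = z.2.2)))))

/-- the variables, with repetitions -/
def vars (φ : CNF V) : List V := φ.flatMap (fun c => c.map (fun l => l.1))

/-- the occurrences -/
def occ (φ : CNF V) : List (ℕ × ℕ) :=
  (List.range φ.length).flatMap (fun c => (List.range (φ.getD c []).length).map (fun i => (c, i)))

/-- the sets -/
def sets (φ : CNF V) : List (Se V) :=
  (vars φ).flatMap (fun v => [(0, (v, false), 0, 0), (0, (v, true), 0, 0)]) ++
  (occ φ).flatMap (fun o => [(1, (v0, false), o), (2, (v0, false), o)])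

/-- the elements -/
def elts (φ : CNF V) : List (El V) :=
  (vars φ).map (fun v => (0, v, 0, 0)) ++ ((List.range φ.length).map (fun c => (1, v0, c, 0)) ++
  (occ φ).map (fun o => (2, v0, o)))

omit [DecidableEq V] in
theorem mem_occ {φ : CNF V} {c i : ℕ} :
    (c, i) ∈ occ φ ↔ c < φ.length ∧ i < (φ.getD c []).length := by
  unfold occ
  simp only [List.mem_flatMap, List.mem_range, List.mem_map, Prod.mk.injEq]
  constructor
  · rintro ⟨c', h1, i', h2, rfl, rfl⟩
    exact ⟨h1, h2⟩
  · rintro ⟨h1, h2⟩
    exact ⟨c, h1, i, h2, rfl, rfl⟩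

omit [DecidableEq V] in
theorem nodup_occ (φ : CNF V) : (occ φ).Nodup := by
  unfold occ
  rw [List.nodup_flatMap]
  refine ⟨fun c _ => ?_, ?_⟩
  · exact (List.nodup_range).map (fun i j h => (Prod.mk.inj h).2)
  · refine List.Nodup.pairwise_of_forall_ne List.nodup_range ?_
    intro c _ c' _ hcc x hx hx'
    simp only [List.mem_map] at hx hx'
    obtain ⟨i, _, rfl⟩ := hx
    obtain ⟨j, _, h⟩ := hx'
    exact hcc (Prod.mk.inj h).1.symm

theorem getD_of_lt {α : Type} {l : List α} {n : ℕ} (h : n < l.length) (d : α) :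
    l.getD n d = l[n] := by
  rw [List.getD_eq_getElem?_getD, List.getElem?_eq_getElem h, Option.getD_some]

omit [DecidableEq V] in
theorem lit_mem {φ : CNF V} {c i : ℕ} (h : (c, i) ∈ occ φ) :
    lit v0 φ c i ∈ φ.getD c [] ∧ φ.getD c [] ∈ φ := by
  obtain ⟨h1, h2⟩ := mem_occ.1 h
  constructor
  · unfold lit
    rw [getD_of_lt h2]
    exact List.getElem_mem h2
  · rw [List.getD_eq_getElem?_getD, List.getElem?_eq_getElem h1]
    exact List.getElem_mem h1

omit [DecidableEq V] in
theorem mem_vars {φ : CNF V} {c i : ℕ} (h : (c, i) ∈ occ φ) : (lit v0 φ c i).1 ∈ vars φ := by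
  obtain ⟨h1, h2⟩ := lit_mem v0 h
  unfold vars
  exact List.mem_flatMap.2 ⟨_, h2, List.mem_map.2 ⟨_, h1, rfl⟩⟩

omit [DecidableEq V] in
theorem exists_lit {φ : CNF V} {c : ℕ} (hc : c < φ.length) {l : V × Bool}
    (hl : l ∈ φ.getD c []) : ∃ i, (c, i) ∈ occ φ ∧ lit v0 φ c i = l := by
  obtain ⟨i, hi, rfl⟩ := List.getElem_of_mem hl
  refine ⟨i, mem_occ.2 ⟨hc, hi⟩, ?_⟩
  unfold lit
  rw [getD_of_lt hi]

/-- the number of sets of the list that contain the element -/
def cnt (φ : CNF V) (W : List (Se V)) (z : El V) : ℕ := W.countP (fun g => inc v0 φ g z)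

omit [DecidableEq V] in
theorem mem_sets {φ : CNF V} {g : Se V} : g ∈ sets v0 φ ↔
    (∃ v ∈ vars φ, ∃ b, g = (0, (v, b), 0, 0)) ∨
    (∃ o ∈ occ φ, g = (1, (v0, false), o) ∨ g = (2, (v0, false), o)) := by
  unfold sets
  simp only [List.mem_append, List.mem_flatMap, List.mem_cons, List.not_mem_nil, or_false]
  constructor
  · rintro (⟨v, hv, h | h⟩ | ⟨o, ho, h⟩)
    · exact Or.inl ⟨v, hv, false, h⟩
    · exact Or.inl ⟨v, hv, true, h⟩
    · exact Or.inr ⟨o, ho, h⟩
  · rintro (⟨v, hv, b, h⟩ | ⟨o, ho, h⟩)
    · cases b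
      · exact Or.inl ⟨v, hv, Or.inl h⟩
      · exact Or.inl ⟨v, hv, Or.inr h⟩
    · exact Or.inr ⟨o, ho, h⟩

/-- an exact cover gives a satisfying assignment -/
theorem sat_of_cover {φ : CNF V} {W : List (Se V)} (hW : ∀ g ∈ W, g ∈ sets v0 φ)
    (h : ∀ z ∈ elts v0 φ, cnt v0 φ W z = 1) : Sat φ := by
  classical
  let a : V → Bool := fun v => decide ((0, (v, true), 0, 0) ∈ W)
  refine ⟨a, fun cl hcl => ?_⟩
  obtain ⟨c, hc, rfl⟩ := List.getElem_of_mem hcl
  -- the clause is covered
  have h1 : cnt v0 φ W (1, v0, c, 0) = 1 := h _ (by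
    unfold elts
    simp only [List.mem_append, List.mem_map, List.mem_range]
    exact Or.inr (Or.inl ⟨c, hc, rfl⟩))
  have h2 : 0 < cnt v0 φ W (1, v0, c, 0) := by omega
  unfold cnt at h2
  rw [List.countP_pos_iff] at h2
  obtain ⟨g, hg, hinc⟩ := h2
  have h3 : ∃ i, (c, i) ∈ occ φ ∧ (1, (v0, false), c, i) ∈ W := by
    rcases (mem_sets v0).1 (hW g hg) with ⟨v, _, b, rfl⟩ | ⟨o, ho, rfl | rfl⟩
    · simp [inc] at hinc
    · simp [inc] at hinc
      refine ⟨o.2, ?_, ?_⟩
      · rw [← hinc]; exact ho
      · rw [← hinc]; exact hg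
    · simp [inc] at hinc
  obtain ⟨i, hi, hT⟩ := h3
  -- the occurrence is covered by this set only
  have h4 : cnt v0 φ W (2, v0, c, i) = 1 := h _ (by
    unfold elts
    simp only [List.mem_append, List.mem_map]
    exact Or.inr (Or.inr ⟨(c, i), hi, rfl⟩))
  obtain ⟨⟨v, s⟩, hl⟩ : ∃ l, lit v0 φ c i = l := ⟨_, rfl⟩
  have h5 : (0, (v, !s), 0, 0) ∉ W := by
    intro hcon
    have h6 : inc v0 φ (1, (v0, false), c, i) (2, v0, c, i) = true := by simp [inc]
    have h7 : inc v0 φ (0, (v, !s), 0, 0) (2, v0, c, i) = true := by simp [inc, hl]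
    have h8 : 2 ≤ cnt v0 φ W (2, v0, c, i) := by
      unfold cnt
      rw [List.countP_eq_length_filter]
      have h9 : (1, (v0, false), c, i) ∈ W.filter (fun g => inc v0 φ g (2, v0, c, i)) :=
        List.mem_filter.2 ⟨hT, h6⟩
      have h10 : (0, (v, !s), 0, 0) ∈ W.filter (fun g => inc v0 φ g (2, v0, c, i)) :=
        List.mem_filter.2 ⟨hcon, h7⟩
      generalize W.filter (fun g => inc v0 φ g (2, v0, c, i)) = W' at h9 h10
      rcases W' with _ | ⟨g1, _ | ⟨g2, W'⟩⟩
      · cases h9
      · rw [List.mem_singleton] at h9 h10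
        rw [← h9] at h10
        simp at h10
      · simp
    omega
  -- the variable is covered
  have hv : v ∈ vars φ := by
    have := mem_vars v0 hi
    rwa [hl] at this
  have h6 : cnt v0 φ W (0, v, 0, 0) = 1 := h _ (by
    unfold elts
    simp only [List.mem_append, List.mem_map]
    exact Or.inl ⟨v, hv, rfl⟩)
  have h7 : 0 < cnt v0 φ W (0, v, 0, 0) := by omega
  unfold cnt at h7
  rw [List.countP_pos_iff] at h7
  obtain ⟨g, hg, hinc⟩ := h7
  have h8 : (0, (v, s), 0, 0) ∈ W := by
    rcases (mem_sets v0).1 (hW g hg) with ⟨v', _, b, rfl⟩ | ⟨o, ho, rfl | rfl⟩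
    · simp [inc] at hinc
      subst hinc
      by_cases hb : b = s
      · rw [← hb]; exact hg
      · have : b = !s := by cases b <;> cases s <;> simp_all
        rw [this] at hg
        exact absurd hg h5
    · simp [inc] at hinc
    · simp [inc] at hinc
  obtain ⟨h9, h10⟩ := lit_mem v0 hi
  refine ⟨(v, s), ?_, ?_⟩
  · have : φ.getD c [] = φ[c] := by
      rw [List.getD_eq_getElem?_getD, List.getElem?_eq_getElem hc]; rfl
    rw [← this, ← hl]
    exact h9
  · show decide ((0, (v, true), 0, 0) ∈ W) = s
    cases s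
    · simpa using h5
    · simpa using h8

theorem countP_map_eq {α β : Type} (f : α → β) (p : β → Bool) (l : List α) :
    (l.map f).countP p = l.countP (fun x => p (f x)) := by
  rw [List.countP_map]
  rfl

theorem countP_eq_one {α : Type} [DecidableEq α] {l : List α} (hl : l.Nodup) {x : α}
    (hx : x ∈ l) {p : α → Bool} (hp : ∀ y ∈ l, p y = true ↔ y = x) : l.countP p = 1 := by
  have h1 : l.countP p = l.countP (fun y => decide (y = x)) := by
    apply List.countP_congr
    intro y hy
    rw [hp y hy, decide_eq_true_eq]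
  rw [h1]
  have h2 := List.count_eq_one_of_mem hl hx
  rw [← h2, List.count]
  apply List.countP_congr
  intro y _
  simp

/-- a satisfying assignment gives an exact cover -/
theorem cover_of_sat {φ : CNF V} (h : Sat φ) :
    ∃ W : List (Se V), (∀ g ∈ W, g ∈ sets v0 φ) ∧ ∀ z ∈ elts v0 φ, cnt v0 φ W z = 1 := by
  classical
  obtain ⟨a, ha⟩ := h
  -- the chosen occurrences
  have hch : ∀ c, c < φ.length → ∃ i, (c, i) ∈ occ φ ∧
      a (lit v0 φ c i).1 = (lit v0 φ c i).2 := by
    intro c hc
    have h1 : φ.getD c [] ∈ φ := by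
      rw [List.getD_eq_getElem?_getD, List.getElem?_eq_getElem hc]
      exact List.getElem_mem hc
    obtain ⟨l, hl, hal⟩ := ha _ h1
    obtain ⟨i, hi, hli⟩ := exists_lit v0 hc hl
    exact ⟨i, hi, by rw [hli]; exact hal⟩
  let ch : ℕ → ℕ := fun c => if hc : c < φ.length then (hch c hc).choose else 0
  have ch1 : ∀ c, c < φ.length → (c, ch c) ∈ occ φ := by
    intro c hc
    simp only [ch, dif_pos hc]
    exact (hch c hc).choose_spec.1
  have ch2 : ∀ c, c < φ.length → a (lit v0 φ c (ch c)).1 = (lit v0 φ c (ch c)).2 := by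
    intro c hc
    simp only [ch, dif_pos hc]
    exact (hch c hc).choose_spec.2
  let good : ℕ × ℕ → Bool := fun o => decide (a (lit v0 φ o.1 o.2).1 = (lit v0 φ o.1 o.2).2)
  let W1 : List (Se V) := (vars φ).dedup.map (fun v => (0, (v, a v), 0, 0))
  let W2 : List (Se V) := ((occ φ).filter good).map
    (fun o => (if o.2 = ch o.1 then 1 else 2, (v0, false), o))
  refine ⟨W1 ++ W2, ?_, ?_⟩
  · intro g hg
    rw [mem_sets]
    rcases List.mem_append.1 hg with hg | hg
    · obtain ⟨v, hv, rfl⟩ := List.mem_map.1 hg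
      exact Or.inl ⟨v, List.mem_dedup.1 hv, a v, rfl⟩
    · obtain ⟨o, ho, rfl⟩ := List.mem_map.1 hg
      refine Or.inr ⟨o, (List.mem_filter.1 ho).1, ?_⟩
      split_ifs
      · exact Or.inl rfl
      · exact Or.inr rfl
  · intro z hz
    have hsplit : cnt v0 φ (W1 ++ W2) z = cnt v0 φ W1 z + cnt v0 φ W2 z := by
      unfold cnt
      rw [List.countP_append]
    have hc1 : cnt v0 φ W1 z = (vars φ).dedup.countP
        (fun v => inc v0 φ (0, (v, a v), 0, 0) z) := by
      unfold cnt
      exact countP_map_eq _ _ _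
    have hc2 : cnt v0 φ W2 z = ((occ φ).filter good).countP
        (fun o => inc v0 φ (if o.2 = ch o.1 then 1 else 2, (v0, false), o) z) := by
      unfold cnt
      exact countP_map_eq _ _ _
    rw [hsplit, hc1, hc2]
    unfold elts at hz
    simp only [List.mem_append, List.mem_map, List.mem_range] at hz
    rcases hz with ⟨v, hv, rfl⟩ | ⟨c, hc, rfl⟩ | ⟨⟨c, i⟩, ho, rfl⟩
    · -- a variable
      have h1 : (vars φ).dedup.countP (fun v' => inc v0 φ (0, (v', a v'), 0, 0) (0, v, 0, 0)) =
          1 := by
        apply countP_eq_one (List.nodup_dedup _) (List.mem_dedup.2 hv)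
        intro y _
        simp [inc]
      have h2 : ((occ φ).filter good).countP (fun o =>
          inc v0 φ (if o.2 = ch o.1 then 1 else 2, (v0, false), o) (0, v, 0, 0)) = 0 := by
        rw [List.countP_eq_zero]
        intro o _
        split_ifs <;> simp [inc]
      rw [h1, h2]
    · -- a clause
      have h1 : (vars φ).dedup.countP (fun v' => inc v0 φ (0, (v', a v'), 0, 0) (1, v0, c, 0)) =
          0 := by
        rw [List.countP_eq_zero]
        intro o _
        simp [inc]
      have h2 : ((occ φ).filter good).countP (fun o =>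
          inc v0 φ (if o.2 = ch o.1 then 1 else 2, (v0, false), o) (1, v0, c, 0)) = 1 := by
        apply countP_eq_one ((nodup_occ φ).filter _) (x := (c, ch c))
        · exact List.mem_filter.2 ⟨ch1 c hc, by simpa [good] using ch2 c hc⟩
        · rintro ⟨c', i'⟩ _
          by_cases h3 : i' = ch c'
          · simp only [h3, if_true]
            simp only [inc]
            constructor
            · intro h4
              simp at h4
              rw [h4]
            · intro h4
              simp only [Prod.mk.injEq] at h4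
              simp [h4.1]
          · simp only [h3, if_false]
            constructor
            · intro h4
              simp [inc] at h4
            · intro h4
              simp only [Prod.mk.injEq] at h4
              obtain ⟨rfl, rfl⟩ := h4
              exact absurd rfl h3
      rw [h1, h2]
    · -- an occurrence
      have hpair : ∀ o : ℕ × ℕ, inc v0 φ (if o.2 = ch o.1 then 1 else 2, (v0, false), o)
          (2, v0, (c, i)) = decide (o = (c, i)) := by
        intro o
        split_ifs <;> simp [inc]
      by_cases hg : good (c, i) = true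
      · have hg' : a (lit v0 φ c i).1 = (lit v0 φ c i).2 := by simpa [good] using hg
        have h1 : (vars φ).dedup.countP
            (fun v' => inc v0 φ (0, (v', a v'), 0, 0) (2, v0, (c, i))) = 0 := by
          rw [List.countP_eq_zero]
          intro v' _
          simp only [inc]
          simp
          intro h3
          rw [h3] at hg'
          simp at hg'
        have h2 : ((occ φ).filter good).countP (fun o =>
            inc v0 φ (if o.2 = ch o.1 then 1 else 2, (v0, false), o) (2, v0, (c, i))) = 1 := by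
          apply countP_eq_one ((nodup_occ φ).filter _) (x := (c, i))
            (List.mem_filter.2 ⟨ho, hg⟩)
          intro o _
          rw [hpair, decide_eq_true_eq]
        rw [h1, h2]
      · have hg' : ¬ (a (lit v0 φ c i).1 = (lit v0 φ c i).2) := by simpa [good] using hg
        have h1 : (vars φ).dedup.countP
            (fun v' => inc v0 φ (0, (v', a v'), 0, 0) (2, v0, (c, i))) = 1 := by
          apply countP_eq_one (List.nodup_dedup _) (x := (lit v0 φ c i).1)
            (List.mem_dedup.2 (mem_vars v0 ho))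
          intro v' _
          simp only [inc]
          simp
          constructor
          · intro h3
            rw [h3]
          · rintro rfl
            refine Prod.ext rfl ?_
            simp only
            revert hg'
            cases a (lit v0 φ c i).1 <;> cases (lit v0 φ c i).2 <;> simp
        have h2 : ((occ φ).filter good).countP (fun o =>
            inc v0 φ (if o.2 = ch o.1 then 1 else 2, (v0, false), o) (2, v0, (c, i))) = 0 := by
          rw [List.countP_eq_zero]
          intro o ho'
          rw [hpair, decide_eq_true_eq]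
          rintro rfl
          exact hg (List.mem_filter.1 ho').2
        rw [h1, h2]

end

end Pool.Agent.LibSMP
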