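import Pool.Agent.LibSMP.GroupStep

set_option autoImplicit false

namespace Pool.Agent.LibSMP

lemma solvable_pi {ι : Type*} [Finite ι] (G : ι → Type*) [∀ i, Group (G i)]
    (h : ∀ i, Group.IsSolvable (G i)) : Group.IsSolvable (∀ i, G i) := by
  have h' : ∀ i, ∃ n, derivedSeries (G i) n = ⊥ := fun i => (Group.isSolvable_def _).1 (h i)
  choose n hn using h'
  cases nonempty_fintype ι
  rw [Group.isSolvable_def]
  refine ⟨Finset.univ.sup n, ?_⟩
  rw [eq_bot_iff]
  intro x hx
  rw [Subgroup.mem_bot]
  funext i
  have h1 : (Pi.evalMonoidHom G i) x ∈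
      (derivedSeries (∀ i, G i) (Finset.univ.sup n)).map (Pi.evalMonoidHom G i) :=
    Subgroup.mem_map_of_mem _ hx
  have h2 := map_derivedSeries_le_derivedSeries (Pi.evalMonoidHom G i) _ h1
  have h3 := derivedSeries_antitone (G := G i)
    (Finset.le_sup (f := n) (Finset.mem_univ i)) h2
  rw [hn i, Subgroup.mem_bot] at h3
  exact h3

theorem ds_ideal {M : Type*} [Monoid M] [Finite M] (hDS : DSM M) (hPO : PO (GG M)) :
    ∀ (m : ℕ) (I' : Set M), IsId I' → (I'ᶜ).ncard ≤ m → SPW M (relI I') := by
  classical
  intro m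
  induction m with
  | zero =>
    intro I' hI' hc
    have hfull : I'ᶜ = ∅ := by
      rw [← Set.ncard_eq_zero (Set.toFinite _)]; omega
    refine ⟨0, fun n w => ⟨[], List.nil_sublist _, by simp, fun i => Or.inr ?_⟩⟩
    rw [Set.compl_empty_iff] at hfull
    rw [hfull]; exact ⟨trivial, trivial⟩
  | succ m ih =>
    intro I' hI' hc
    by_cases hempty : I'ᶜ = ∅
    · exact ih I' hI' (by rw [hempty]; simp)
    -- choose a J-minimal element outside I'
    have hne : (I'ᶜ).Nonempty := Set.nonempty_iff_ne_empty.2 hempty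
    have hwf : WellFounded (fun x y : M => JLe x y ∧ ¬ JLe y x) := by
      have : IsStrictOrder M (fun x y : M => JLe x y ∧ ¬ JLe y x) :=
        { irrefl := fun x h => h.2 h.1
          trans := fun x y z h1 h2 => ⟨h1.1.trans h2.1, fun h => h1.2 (h2.1.trans h)⟩ }
      exact Finite.wellFounded_of_trans_of_irrefl _
    obtain ⟨j, hj, hjmin⟩ := hwf.has_min _ hne
    have hmin : ∀ y, y ∉ I' → JLe y j → JLe j y := by
      intro y hy hyj
      by_contra hcon
      exact hjmin y hy ⟨hyj, hcon⟩
    have hbig : SPW M (relI (I' ∪ {x | InJ j x})) := by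
      apply ih _ (extend_ideal hI' hmin)
      have hlt : ((I' ∪ {x | InJ j x})ᶜ).ncard < (I'ᶜ).ncard := by
        apply Set.ncard_lt_ncard _ (Set.toFinite _)
        refine ⟨?_, ?_⟩
        · intro x hx hx'
          exact hx (Or.inl hx')
        · intro hsub
          have := hsub hj
          exact this (Or.inr ⟨JLe.refl j, JLe.refl j⟩)
      omega
    by_cases hreg : ∃ x, InJ j x ∧ ∃ z, x * z * x = x
    · obtain ⟨x, hx, z, hz⟩ := hreg
      have he : (x * z) * (x * z) = x * z := by
        rw [← mul_assoc, hz]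
      have hex : JLe (x * z) x := JLe_mul_right _ _
      have hxe : JLe x (x * z) := ⟨1, x, by rw [one_mul, hz]⟩
      have hje : JLe j (x * z) := hx.2.trans hxe
      have hej : JLe (x * z) j := hex.trans hx.1
      set e := x * z with hedef
      have he' : e ∉ I' := by
        intro h
        obtain ⟨a, b, hab⟩ := hje
        exact hj (by rw [hab]; exact hI' _ h a b)
      have hmin' : ∀ y, y ∉ I' → JLe y e → JLe e y :=
        fun y hy hye => hej.trans (hmin y hy (hye.trans hej))
      have hset : (I' ∪ {x | InJ j x}) = (I' ∪ {x | InJ e x}) := by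
        ext y
        constructor
        · rintro (h | h)
          · exact Or.inl h
          · exact Or.inr ⟨h.1.trans hje, hej.trans h.2⟩
        · rintro (h | h)
          · exact Or.inl h
          · exact Or.inr ⟨h.1.trans hej, hje.trans h.2⟩
      rw [hset] at hbig
      exact step_G hDS hPO he hI' he' hmin' (step_L hDS he hI' he' hmin'
        (step_R hDS he hI' he' hmin' (step_E hDS he hI' he' hmin' hbig)))
    · push Not at hreg
      exact step_N hI' hmin (fun x hx z => hreg x hx z) hbig

/-- Main theorem for DS monoids with solvable subgroups. -/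
theorem ds_main {M : Type*} [Monoid M] [Finite M] (hDS : DSM M)
    (hsolv : ∀ e : {e : M // e * e = e}, Group.IsSolvable (Cor e)ˣ) :
    SPW M (fun x y => x = y) := by
  have : Group.IsSolvable (GG M) := solvable_pi _ hsolv
  have hPO : PO (GG M) := PO_solvable (GG M)
  obtain ⟨C, hC⟩ := ds_ideal hDS hPO _ ∅ (fun x hx => absurd hx (Set.notMem_empty x)) le_rfl
  refine ⟨C, fun n w => ?_⟩
  obtain ⟨w', h1, h2, h3⟩ := hC n w
  refine ⟨w', h1, h2, fun i => ?_⟩
  rcases h3 i with h | h
  · exact h
  · exact absurd h.1 (Set.notMem_empty _)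

end Pool.Agent.LibSMP
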