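import Mathlib

set_option autoImplicit false

namespace Pool.Agent.LibSMP

section Monoid
variable {M : Type*} [Monoid M]

/-- `x` lies in the two-sided principal ideal of `y`. -/
def JLe (x y : M) : Prop := ∃ a b : M, x = a * y * b

/-- Monoids all of whose regular J-classes are subsemigroups. -/
def DSM (M : Type*) [Monoid M] : Prop :=
  ∀ x y : M, (∃ z, x * z * x = x) → JLe x y → JLe y x → JLe x (x * y)

lemma JLe.refl (x : M) : JLe x x := ⟨1, 1, by simp⟩

lemma JLe.trans {x y z : M} (h : JLe x y) (h' : JLe y z) : JLe x z := by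
  obtain ⟨a, b, rfl⟩ := h
  obtain ⟨c, d, rfl⟩ := h'
  exact ⟨a * c, d * b, by simp only [mul_assoc]⟩

lemma JLe_mul_left (x y : M) : JLe (x * y) y := ⟨x, 1, by simp⟩
lemma JLe_mul_right (x y : M) : JLe (x * y) x := ⟨1, y, by simp⟩
lemma JLe_mid (a x b : M) : JLe (a * x * b) x := ⟨a, b, rfl⟩

lemma exists_idem_pow [Finite M] (x : M) : ∃ k, 0 < k ∧ x ^ k * x ^ k = x ^ k := by
  have hni : ¬ Function.Injective (fun k : ℕ => x ^ k) := not_injective_infinite_finite _
  rw [Function.not_injective_iff] at hni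
  obtain ⟨i', j', hij', hne'⟩ := hni
  obtain ⟨i, d, hd, h⟩ : ∃ i d, 0 < d ∧ x ^ (i + d) = x ^ i := by
    rcases lt_or_gt_of_ne hne' with h | h
    · exact ⟨i', j' - i', by omega, by
        rw [show i' + (j' - i') = j' by omega]; exact hij'.symm⟩
    · exact ⟨j', i' - j', by omega, by
        rw [show j' + (i' - j') = i' by omega]; exact hij'⟩
  have h2 : ∀ s k, i ≤ k → x ^ (k + d * s) = x ^ k := by
    intro s
    induction s with
    | zero => intro k _; simp
    | succ s ih =>
      intro k hk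
      have e1 : k + d * (s + 1) = (k + d) + d * s := by ring
      rw [e1, ih (k + d) (by omega)]
      obtain ⟨t, rfl⟩ := Nat.exists_eq_add_of_le hk
      rw [show i + t + d = (i + d) + t by ring, pow_add, h, ← pow_add]
  refine ⟨d * (i + 1), by positivity, ?_⟩
  rw [← pow_add]
  apply h2
  nlinarith

lemma iter_aux (a x c : M) (h : x = a * x * c) : ∀ k : ℕ, x = a ^ k * x * c ^ k := by
  intro k
  induction k with
  | zero => simp
  | succ k ih =>
    rw [pow_succ, pow_succ' c k]
    calc x = a ^ k * x * c ^ k := ih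
      _ = a ^ k * (a * x * c) * c ^ k := by rw [← h]
      _ = _ := by simp only [mul_assoc]

/-- Stability, right version. -/
lemma stab_R [Finite M] {x y : M} (h : JLe x (x * y)) : ∃ z, x = x * y * z := by
  obtain ⟨a, b, hab⟩ := h
  have h1 : x = a * x * (y * b) := by
    conv_lhs => rw [hab]
    simp only [mul_assoc]
  obtain ⟨k, hk, hidem⟩ := exists_idem_pow (y * b)
  have h2 := iter_aux a x (y * b) h1 k
  have h3 : x * (y * b) ^ k = x := by
    conv_lhs => rw [h2]
    rw [mul_assoc, hidem, ← h2]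
  obtain ⟨k', rfl⟩ : ∃ k', k = k' + 1 := ⟨k - 1, by omega⟩
  refine ⟨b * (y * b) ^ k', ?_⟩
  conv_lhs => rw [← h3]
  rw [pow_succ']
  simp only [mul_assoc]

/-- Stability, left version. -/
lemma stab_L [Finite M] {x y : M} (h : JLe x (y * x)) : ∃ z, x = z * (y * x) := by
  obtain ⟨a, b, hab⟩ := h
  have h1 : x = (a * y) * x * b := by
    conv_lhs => rw [hab]
    simp only [mul_assoc]
  obtain ⟨k, hk, hidem⟩ := exists_idem_pow (a * y)
  have h2 := iter_aux (a * y) x b h1 k
  have h3 : (a * y) ^ k * x = x := by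
    conv_lhs => rw [h2]
    rw [← mul_assoc, ← mul_assoc, hidem, ← h2]
  obtain ⟨k', rfl⟩ : ∃ k', k = k' + 1 := ⟨k - 1, by omega⟩
  refine ⟨(a * y) ^ k' * a, ?_⟩
  conv_lhs => rw [← h3]
  rw [pow_succ]
  simp only [mul_assoc]

/-- In a DS monoid, the elements J-above an idempotent form a submonoid. -/
lemma DS_mul (hDS : DSM M) {e x y : M} (he : e * e = e) (hx : JLe e x) (hy : JLe e y) :
    JLe e (x * y) := by
  obtain ⟨a, b, hab⟩ := hx
  obtain ⟨c, d, hcd⟩ := hy
  have h1 : (e * a * x) * (b * e) = e := by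
    calc (e * a * x) * (b * e) = e * (a * x * b) * e := by simp only [mul_assoc]
      _ = e := by rw [← hab, he, he]
  have h2 : (e * c) * (y * d * e) = e := by
    calc (e * c) * (y * d * e) = e * (c * y * d) * e := by simp only [mul_assoc]
      _ = e := by rw [← hcd, he, he]
  have hα : JLe e (e * a * x) := ⟨1, b * e, by rw [one_mul, h1]⟩
  have hα' : JLe (e * a * x) e := ⟨1, a * x, by simp only [one_mul, mul_assoc]⟩
  have hβ : JLe e (y * d * e) := ⟨e * c, 1, by rw [mul_one, h2]⟩
  have hβ' : JLe (y * d * e) e := ⟨y * d, 1, by simp⟩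
  have hreg : ∃ z, (e * a * x) * z * (e * a * x) = e * a * x := by
    refine ⟨b * e, ?_⟩
    rw [h1, ← mul_assoc, ← mul_assoc, he]
  have h3 := hDS (e * a * x) (y * d * e) hreg (hα'.trans hβ) (hβ'.trans hα)
  refine (hα.trans h3).trans ?_
  exact ⟨e * a, d * e, by simp only [mul_assoc]⟩

lemma JLe_of_mul_left {e x y : M} (h : JLe e (x * y)) : JLe e x :=
  h.trans (JLe_mul_right x y)
lemma JLe_of_mul_right {e x y : M} (h : JLe e (x * y)) : JLe e y :=
  h.trans (JLe_mul_left x y)

lemma JLe_one (e : M) : JLe e 1 := ⟨e, 1, by simp⟩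

/-- products of sublists stay J-above -/
lemma JLe_prod_iff (hDS : DSM M) {e : M} (he : e * e = e) (l : List M) :
    JLe e l.prod ↔ ∀ x ∈ l, JLe e x := by
  induction l with
  | nil => simp [JLe_one]
  | cons a l ih =>
    rw [List.prod_cons, List.forall_mem_cons, ← ih]
    exact ⟨fun h => ⟨JLe_of_mul_left h, JLe_of_mul_right h⟩, fun h => DS_mul hDS he h.1 h.2⟩

end Monoid

section Corner
variable {S : Type*} [Semigroup S]

/-- The local monoid `eSe` at an idempotent `e`. -/
def Cor (e : {e : S // e * e = e}) : Type _ := {x : S // e.1 * x = x ∧ x * e.1 = x}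

instance (e : {e : S // e * e = e}) : Monoid (Cor e) where
  mul x y := ⟨x.1 * y.1, by rw [← mul_assoc, x.2.1], by rw [mul_assoc, y.2.2]⟩
  mul_assoc x y z := Subtype.ext (mul_assoc _ _ _)
  one := ⟨e.1, e.2, e.2⟩
  one_mul x := Subtype.ext x.2.1
  mul_one x := Subtype.ext x.2.2

lemma Cor.mul_val {e : {e : S // e * e = e}} (x y : Cor e) : (x * y).1 = x.1 * y.1 := rfl
lemma Cor.one_val {e : {e : S // e * e = e}} : (1 : Cor e).1 = e.1 := rfl

instance [Finite S] (e : {e : S // e * e = e}) : Finite (Cor e) :=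
  inferInstanceAs (Finite {x : S // e.1 * x = x ∧ x * e.1 = x})

end Corner

end Pool.Agent.LibSMP
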