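import Pool.Agent.LibSMP.JClass

set_option autoImplicit false

namespace Pool.Agent.LibSMP

section
variable {M : Type*} [Monoid M]

/-- Elements J-equivalent to an idempotent are L-equivalent to an idempotent. -/
lemma exists_idem_L [Finite M] {e t : M} (he : e * e = e) (ht : InJ e t) :
    ∃ f : M, f * f = f ∧ (∃ a, t = a * f) ∧ (∃ a, f = a * t) := by
  obtain ⟨h1, a, b, hab⟩ := ht
  have h2 : JLe t (t * b) := h1.trans ⟨a, 1, by rw [mul_one, ← mul_assoc]; exact hab⟩
  have h3 : JLe t (a * t) := h1.trans ⟨1, b, by rw [one_mul]; exact hab⟩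
  obtain ⟨z1, hz1⟩ := stab_R h2
  obtain ⟨z2, hz2⟩ := stab_L h3
  have key : t * (b * a) * t = t := by
    calc t * (b * a) * t = (z2 * (a * t)) * (b * a) * (t * b * z1) := by
            rw [← hz1, ← hz2]
      _ = z2 * ((a * t * b) * (a * t * b)) * z1 := by simp only [mul_assoc]
      _ = z2 * (a * t * b) * z1 := by rw [← hab, he]
      _ = z2 * (a * (t * b * z1)) := by simp only [mul_assoc]
      _ = t := by rw [← hz1, ← hz2]
  refine ⟨b * a * t, ?_, ⟨t, ?_⟩, ⟨b * a, rfl⟩⟩
  · calc b * a * t * (b * a * t) = b * a * (t * (b * a) * t) := by simp only [mul_assoc]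
      _ = _ := by rw [key]
  · calc t = t * (b * a) * t := key.symm
      _ = _ := by simp only [mul_assoc]

/-- The group element measuring the effect of a replacement. -/
lemma nu_exists [Finite M] (hDS : DSM M) {I' : Set M} {e : M} (he : e * e = e) (hI' : IsId I')
    (he' : e ∉ I') {t P X X' σ f : M} (ht : InJ e t)
    (htP : t = P * (X * σ)) (hf : f * f = f) (hft : ∃ a, t = a * f) (hft' : ∃ a, f = a * t)
    (h : th3 I' e X' X) :
    ∃ ν : (Cor ⟨f, hf⟩ : Type _)ˣ, ∀ y : M, y * (X * σ) * f = y * (X * σ) →
      y * (X' * σ) = y * (X * σ) * ν.1.1 := by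
  rcases h with rfl | ⟨h1, h2, hR, hL⟩ | ⟨h1, h2⟩
  · refine ⟨1, fun y hy => ?_⟩
    have : ((1 : (Cor ⟨f, hf⟩ : Type _)ˣ).1.1 : M) = f := rfl
    rw [this, hy]
  · have hXσ : InJ e (X * σ) :=
      ⟨(JLe_mul_right X σ).trans h2.1, by
        refine ht.2.trans ?_
        rw [htP]; exact JLe_mul_left _ _⟩
    have hσ : JLe e σ := JLe_of_mul_right hXσ.2
    have hX'σ : InJ e (X' * σ) :=
      ⟨(JLe_mul_right X' σ).trans h1.1, DS_mul hDS he h1.2 hσ⟩
    have hR' := R_kept (U := 1) (V := σ) h2 h1 (by rwa [one_mul]) (by rwa [one_mul]) hR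
    have hL' := L_kept (U := 1) (V := σ) h2 h1 (by rwa [one_mul]) (by rwa [one_mul]) hL
    simp only [one_mul] at hR' hL'
    obtain ⟨⟨m, hm⟩, ⟨m', hm'⟩⟩ := hR'
    obtain ⟨⟨z1, hz1⟩, ⟨z2, hz2⟩⟩ := hL'
    obtain ⟨a, ha⟩ := hft
    obtain ⟨a', ha'⟩ := hft'
    have h3 : JLe (X * σ) (P * (X * σ)) := by
      rw [← htP]; exact hXσ.1.trans ht.2
    obtain ⟨z, hz⟩ := stab_L h3
    have hc : X * σ = (z * a) * f := by
      conv_lhs => rw [hz, ← htP, ha]
      rw [mul_assoc]
    have hd : f = (a' * P) * (X * σ) := by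
      conv_lhs => rw [ha', htP]
      rw [mul_assoc]
    have hXf : X * σ * f = X * σ := by
      rw [hc, mul_assoc, hf]
    have hX'f : X' * σ * f = X' * σ := by
      rw [hz1, mul_assoc, hXf]
    have hd' : f = (a' * P * z2) * (X' * σ) := by
      rw [mul_assoc, ← hz2]; exact hd
    have e1 : f * m * f = (a' * P) * (X' * σ) := by
      calc f * m * f = (a' * P) * (X * σ * m) * f := by
            conv_lhs => rw [show f * m * f = ((a' * P) * (X * σ)) * m * f by rw [← hd]]
            simp only [mul_assoc]
        _ = (a' * P) * (X' * σ * f) := by rw [← hm]; simp only [mul_assoc]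
        _ = _ := by rw [hX'f]
    have e2 : f * m' * f = (a' * P * z2) * (X * σ) := by
      calc f * m' * f = (a' * P * z2) * (X' * σ * m') * f := by
            conv_lhs => rw [show f * m' * f = ((a' * P * z2) * (X' * σ)) * m' * f by rw [← hd']]
            simp only [mul_assoc]
        _ = (a' * P * z2) * (X * σ * f) := by rw [← hm']; simp only [mul_assoc]
        _ = _ := by rw [hXf]
    have e3 : (f * m * f) * (f * m' * f) = f := by
      calc (f * m * f) * (f * m' * f) = ((f * m * f) * f) * m' * f := by simp only [mul_assoc]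
        _ = (f * m * f) * m' * f := by
            rw [show f * m * f * f = f * m * f by rw [mul_assoc, hf]]
        _ = (a' * P) * (X' * σ * m') * f := by rw [e1]; simp only [mul_assoc]
        _ = (a' * P) * (X * σ * f) := by rw [← hm']; simp only [mul_assoc]
        _ = f := by rw [hXf, ← hd]
    have e4 : (f * m' * f) * (f * m * f) = f := by
      calc (f * m' * f) * (f * m * f) = ((f * m' * f) * f) * m * f := by simp only [mul_assoc]
        _ = (f * m' * f) * m * f := by
            rw [show f * m' * f * f = f * m' * f by rw [mul_assoc, hf]]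
        _ = (a' * P * z2) * (X * σ * m) * f := by rw [e2]; simp only [mul_assoc]
        _ = (a' * P * z2) * (X' * σ * f) := by rw [← hm]; simp only [mul_assoc]
        _ = f := by rw [hX'f, ← hd']
    have g1 : f * (f * m * f) = f * m * f ∧ (f * m * f) * f = f * m * f := by
      constructor
      · rw [← mul_assoc, ← mul_assoc, hf]
      · rw [mul_assoc, hf]
    have g2 : f * (f * m' * f) = f * m' * f ∧ (f * m' * f) * f = f * m' * f := by
      constructor
      · rw [← mul_assoc, ← mul_assoc, hf]
      · rw [mul_assoc, hf]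
    refine ⟨⟨⟨f * m * f, g1⟩, ⟨f * m' * f, g2⟩, Subtype.ext e3, Subtype.ext e4⟩, ?_⟩
    intro y _
    change y * (X' * σ) = y * (X * σ) * (f * m * f)
    calc y * (X' * σ) = y * (X' * σ * f) := by rw [hX'f]
      _ = y * (X * σ * m * f) := by rw [hm]
      _ = y * (X * σ * f * m * f) := by rw [hXf]
      _ = _ := by simp only [mul_assoc]
  · exfalso
    apply InJ.not_mem hI' he' ht.2
    rw [htP]
    exact hI'.left (hI'.right h2 _) _

abbrev GG (M : Type*) [Monoid M] := ∀ e : {e : M // e * e = e}, (Cor e)ˣ

/-- value of a group element at an idempotent -/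
def gval {n : ℕ} (e0 : Fin n → {e : M // e * e = e}) (g : Fin n → GG M) (i : Fin n) : M :=
  ((g i (e0 i)).1.1 : M)

lemma gval_one {n : ℕ} (e0 : Fin n → {e : M // e * e = e}) (i : Fin n) :
    gval e0 (1 : Fin n → GG M) i = (e0 i).1 := rfl

lemma gval_mul {n : ℕ} (e0 : Fin n → {e : M // e * e = e}) (g h : Fin n → GG M) (i : Fin n) :
    gval e0 (g * h) i = gval e0 g i * gval e0 h i := rfl

lemma gval_right {n : ℕ} (e0 : Fin n → {e : M // e * e = e}) (g : Fin n → GG M) (i : Fin n) :
    gval e0 g i * (e0 i).1 = gval e0 g i := (g i (e0 i)).1.2.2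

/-- blocks: a word and its replacement -/
abbrev Blk (M : Type*) (n : ℕ) := List (Fin n → M) × List (Fin n → M)

def orig {n : ℕ} (bs : List (Blk M n × (Fin n → GG M))) : List (Fin n → M) :=
  (bs.map (fun c => c.1.1)).flatten

def Valid {n : ℕ} (good : Fin n → Prop) (e0 : Fin n → {e : M // e * e = e}) (rem : Fin n → M) :
    List (Blk M n × (Fin n → GG M)) → Prop
  | [] => True
  | c :: bs => (∀ i, good i → ∀ y : M,
      y * (c.1.1.prod i * ((orig bs).prod i * rem i)) * (e0 i).1
        = y * (c.1.1.prod i * ((orig bs).prod i * rem i)) →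
      y * (c.1.2.prod i * ((orig bs).prod i * rem i))
        = y * (c.1.1.prod i * ((orig bs).prod i * rem i)) * gval e0 c.2 i) ∧
      Valid good e0 rem bs

lemma select [Finite M] (hDS : DSM M) {I' : Set M} {e : M} (he : e * e = e) (hI' : IsId I')
    (he' : e ∉ I') (hmin : ∀ y, y ∉ I' → JLe y e → JLe e y)
    {n : ℕ} (good : Fin n → Prop) (e0 : Fin n → {e : M // e * e = e}) (rem : Fin n → M)
    {sub bs : List (Blk M n × (Fin n → GG M))} (hsub : sub.Sublist bs) :
    Valid good e0 rem bs →
    (∀ c ∈ bs, c.1.2.Sublist c.1.1 ∧ c.1.2.length < c.1.1.length ∧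
      ∀ i, th3 I' e (c.1.2.prod i) (c.1.1.prod i)) →
    ∃ W : List (Fin n → M), W.Sublist (orig bs) ∧ (sub ≠ [] → W.length < (orig bs).length) ∧
      (∀ i, good i → ∀ y : M,
        y * ((orig bs).prod i * rem i) * (e0 i).1 = y * ((orig bs).prod i * rem i) →
        y * (W.prod i * rem i)
          = y * ((orig bs).prod i * rem i) * gval e0 (sub.map Prod.snd).prod i) ∧
      (∀ i, th3 I' e (W.prod i) ((orig bs).prod i)) := by
  induction hsub with
  | slnil =>
    intro _ _
    refine ⟨[], by simp [orig], by simp, ?_, fun i => Or.inl rfl⟩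
    intro i _ y hy
    have h1 : gval e0 (([] : List (Blk M n × (Fin n → GG M))).map Prod.snd).prod i
        = (e0 i).1 := rfl
    rw [h1]
    simp only [orig, List.map_nil, List.flatten_nil, List.prod_nil] at hy ⊢
    rw [hy]
  | @cons sub bs c hs ih =>
    intro hV hB
    obtain ⟨W, hW1, hW2, hW3, hW4⟩ := ih hV.2 (fun c' hc' => hB c' (List.mem_cons_of_mem _ hc'))
    have horig : orig (c :: bs) = c.1.1 ++ orig bs := by simp [orig]
    refine ⟨c.1.1 ++ W, ?_, ?_, ?_, ?_⟩
    · rw [horig]; exact (List.Sublist.refl _).append hW1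
    · intro hne
      rw [horig, List.length_append, List.length_append]
      have := hW2 hne
      omega
    · intro i hi y hy
      rw [horig, List.prod_append] at hy ⊢
      rw [List.prod_append]
      simp only [Pi.mul_apply] at hy ⊢
      have hy' : (y * c.1.1.prod i) * ((orig bs).prod i * rem i) * (e0 i).1
          = (y * c.1.1.prod i) * ((orig bs).prod i * rem i) := by
        simp only [mul_assoc] at hy ⊢
        exact hy
      have := hW3 i hi _ hy'
      simp only [mul_assoc] at this ⊢
      exact this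
    · intro i
      rw [horig, List.prod_append, List.prod_append]
      have := th3_congr hDS he hI' he' hmin (hW4 i) (c.1.1.prod i) 1
      rw [mul_one, mul_one] at this
      exact this
  | @cons_cons sub bs c hs ih =>
    intro hV hB
    obtain ⟨W, hW1, hW2, hW3, hW4⟩ := ih hV.2 (fun c' hc' => hB c' (List.mem_cons_of_mem _ hc'))
    have horig : orig (c :: bs) = c.1.1 ++ orig bs := by simp [orig]
    obtain ⟨hc1, hc2, hc3⟩ := hB c List.mem_cons_self
    refine ⟨c.1.2 ++ W, ?_, ?_, ?_, ?_⟩
    · rw [horig]; exact hc1.append hW1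
    · intro _
      rw [horig, List.length_append, List.length_append]
      have := hW1.length_le
      omega
    · intro i hi y hy
      rw [horig, List.prod_append] at hy ⊢
      rw [List.prod_append, List.map_cons, List.prod_cons, gval_mul]
      simp only [Pi.mul_apply] at hy ⊢
      have hy0 : y * (c.1.1.prod i * ((orig bs).prod i * rem i)) * (e0 i).1
          = y * (c.1.1.prod i * ((orig bs).prod i * rem i)) := by
        simp only [mul_assoc] at hy ⊢
        exact hy
      have h1 := hV.1 i hi y hy0
      have hy' : (y * c.1.2.prod i) * ((orig bs).prod i * rem i) * (e0 i).1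
          = (y * c.1.2.prod i) * ((orig bs).prod i * rem i) := by
        have e1 : (y * c.1.2.prod i) * ((orig bs).prod i * rem i)
            = y * (c.1.1.prod i * ((orig bs).prod i * rem i)) * gval e0 c.2 i := by
          rw [← h1]; simp only [mul_assoc]
        rw [e1, mul_assoc, gval_right]
      have h2 := hW3 i hi _ hy'
      calc y * (c.1.2.prod i * W.prod i * rem i)
          = (y * c.1.2.prod i) * (W.prod i * rem i) := by simp only [mul_assoc]
        _ = (y * c.1.2.prod i) * ((orig bs).prod i * rem i)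
              * gval e0 (sub.map Prod.snd).prod i := h2
        _ = (y * (c.1.2.prod i * ((orig bs).prod i * rem i)))
              * gval e0 (sub.map Prod.snd).prod i := by simp only [mul_assoc]
        _ = (y * (c.1.1.prod i * ((orig bs).prod i * rem i)) * gval e0 c.2 i)
              * gval e0 (sub.map Prod.snd).prod i := by rw [h1]
        _ = _ := by simp only [mul_assoc]
    · intro i
      rw [horig, List.prod_append, List.prod_append]
      have h1 := th3_congr hDS he hI' he' hmin (hW4 i) (c.1.2.prod i) 1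
      have h2 := th3_congr hDS he hI' he' hmin (hc3 i) 1 ((orig bs).prod i)
      rw [mul_one, mul_one] at h1
      rw [one_mul, one_mul] at h2
      exact th3.trans hI' he' h1 h2

lemma exists_valid [Finite M] (hDS : DSM M) {I' : Set M} {e : M} (he : e * e = e)
    (hI' : IsId I') (he' : e ∉ I')
    {n : ℕ} (t : Fin n → M) (e0 : Fin n → {e : M // e * e = e}) (rem : Fin n → M)
    (he0 : ∀ i, InJ e (t i) → (∃ a, t i = a * (e0 i).1) ∧ (∃ a, (e0 i).1 = a * t i)) :
    ∀ (bs : List (Blk M n)) (P : Fin n → M),
      (∀ i, t i = P i * (((bs.map Prod.fst).flatten).prod i * rem i)) →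
      (∀ c ∈ bs, ∀ i, th3 I' e (c.2.prod i) (c.1.prod i)) →
      ∃ bν : List (Blk M n × (Fin n → GG M)), bν.map Prod.fst = bs ∧
        Valid (fun i => InJ e (t i)) e0 rem bν := by
  classical
  intro bs
  induction bs with
  | nil => intro P _ _; exact ⟨[], rfl, trivial⟩
  | cons c bs ih =>
    intro P hP hB
    obtain ⟨bν, h1, h2⟩ := ih (fun i => P i * c.1.prod i) (fun i => by
      rw [hP i]
      simp only [List.map_cons, List.flatten_cons, List.prod_append, Pi.mul_apply, mul_assoc])
      (fun c' hc' => hB c' (List.mem_cons_of_mem _ hc'))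
    have horig : orig bν = (bs.map Prod.fst).flatten := by
      rw [orig, ← h1, List.map_map]; rfl
    have hex : ∀ i, ∃ ν : (Cor (e0 i))ˣ, InJ e (t i) → ∀ y : M,
        y * (c.1.prod i * ((orig bν).prod i * rem i)) * (e0 i).1
          = y * (c.1.prod i * ((orig bν).prod i * rem i)) →
        y * (c.2.prod i * ((orig bν).prod i * rem i))
          = y * (c.1.prod i * ((orig bν).prod i * rem i)) * ν.1.1 := by
      intro i
      by_cases hi : InJ e (t i)
      · have htP : t i = P i * (c.1.prod i * ((orig bν).prod i * rem i)) := by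
          rw [hP i, horig]
          simp only [List.map_cons, List.flatten_cons, List.prod_append, Pi.mul_apply, mul_assoc]
        obtain ⟨ν, hν⟩ := nu_exists hDS he hI' he' hi htP (e0 i).2 (he0 i hi).1 (he0 i hi).2
          (hB c List.mem_cons_self i)
        exact ⟨ν, fun _ => hν⟩
      · exact ⟨1, fun h => absurd h hi⟩
    choose ν hν using hex
    refine ⟨(c, fun i => Pi.mulSingle (e0 i) (ν i)) :: bν, by simp [h1], ?_, h2⟩
    intro i hi y hy
    have : gval e0 (fun i => (Pi.mulSingle (e0 i) (ν i) : GG M)) i = (ν i).1.1 := by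
      simp [gval]
    rw [this]
    exact hν i hi y hy

lemma exists_cut {α : Type*} (p : ℕ) : ∀ (L : ℕ) (w : List α), p * L ≤ w.length →
    ∃ (bs : List (List α)) (rem : List α), bs.length = L ∧ (∀ b ∈ bs, b.length = p) ∧
      w = bs.flatten ++ rem := by
  intro L
  induction L with
  | zero => intro w _; exact ⟨[], w, rfl, by simp, by simp⟩
  | succ L ih =>
    intro w hw
    have hw' : p * L + p ≤ w.length := by rw [← Nat.mul_succ]; exact hw
    obtain ⟨bs, rem, h1, h2, h3⟩ := ih (w.drop p) (by rw [List.length_drop]; omega)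
    refine ⟨w.take p :: bs, rem, by simp [h1], ?_, ?_⟩
    · intro b hb
      rcases List.mem_cons.1 hb with rfl | hb
      · rw [List.length_take]; omega
      · exact h2 b hb
    · rw [List.flatten_cons, List.append_assoc, ← h3, List.take_append_drop]

theorem step_G [Finite M] (hDS : DSM M) (hPO : PO (GG M)) {I' : Set M} {e : M}
    (he : e * e = e) (hI' : IsId I') (he' : e ∉ I')
    (hmin : ∀ y, y ∉ I' → JLe y e → JLe e y)
    (h : SPW M (th3 I' e)) : SPW M (relI I') := by
  classical
  obtain ⟨C, hC⟩ := h
  obtain ⟨D, hD⟩ := hPO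
  refine ⟨C + 1 + D, ?_⟩
  intro n w
  induction hN : w.length using Nat.strong_induction_on generalizing w with
  | _ N ih =>
  by_cases hlen : w.length ≤ (n + 2) ^ (C + 1 + D)
  · exact ⟨w, List.Sublist.refl _, hlen, fun i => Or.inl rfl⟩
  push Not at hlen
  set p := (n + 2) ^ C + 1 with hp
  have hlen' : p * (n + 2) ^ D ≤ w.length := by
    refine le_trans ?_ hlen.le
    rw [pow_add (n+2) (C+1) D]
    apply Nat.mul_le_mul_right
    have : 1 ≤ (n + 2) ^ C := Nat.one_le_pow _ _ (by omega)
    rw [pow_succ]
    nlinarith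
  obtain ⟨bs, rem, hbs1, hbs2, hbs3⟩ := exists_cut p ((n + 2) ^ D) w hlen'
  choose g hg1 hg2 hg3 using fun b => hC n b
  let t : Fin n → M := fun i => w.prod i
  have hex : ∀ i, ∃ f : {e : M // e * e = e}, InJ e (t i) →
      (∃ a, t i = a * f.1) ∧ (∃ a, f.1 = a * t i) := by
    intro i
    by_cases hi : InJ e (t i)
    · obtain ⟨f, hf, h1, h2⟩ := exists_idem_L he hi
      exact ⟨⟨f, hf⟩, fun _ => ⟨h1, h2⟩⟩
    · exact ⟨⟨e, he⟩, fun h => absurd h hi⟩
  choose e0 he0 using hex
  let bs2 : List (Blk M n) := bs.map (fun b => (b, g b))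
  have hfst : (bs2.map Prod.fst).flatten = bs.flatten := by
    simp [bs2, List.map_map, Function.comp_def]
  obtain ⟨bν, hbν1, hbν2⟩ := exists_valid hDS he hI' he' t e0 (fun i => rem.prod i)
    (fun i hi => he0 i hi) bs2 (fun _ => 1) (by
      intro i
      rw [hfst, one_mul]
      change w.prod i = _
      rw [hbs3, List.prod_append]; rfl) (by
      intro c hc i
      obtain ⟨b, hb, rfl⟩ := List.mem_map.1 hc
      exact hg3 b i)
  have horig : orig bν = bs.flatten := by
    rw [orig, ← hfst, ← hbν1, List.map_map]; rfl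
  obtain ⟨K, hK1, hK2, hK3⟩ := hD n (bν.map Prod.snd) (by
    rw [List.length_map]
    have : bν.length = bs.length := by
      have := congrArg List.length hbν1
      simpa [bs2] using this
    rw [this, hbs1])
  obtain ⟨sub, hsub1, hsub2⟩ := List.sublist_map_iff.1 hK1
  obtain ⟨W, hW1, hW2, hW3, hW4⟩ := select hDS he hI' he' hmin _ e0 (fun i => rem.prod i) hsub1
    hbν2 (by
      intro c hc
      have : c.1 ∈ bs2 := by rw [← hbν1]; exact List.mem_map_of_mem hc
      obtain ⟨b, hb, hbc⟩ := List.mem_map.1 this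
      rw [← hbc]
      refine ⟨hg1 b, ?_, hg3 b⟩
      have := hg2 b
      have := hbs2 b hb
      simp only
      omega)
  have hsubne : sub ≠ [] := by
    rintro rfl
    exact hK2 (by simpa using hsub2)
  rw [horig] at hW1 hW2 hW3 hW4
  have hlt : (W ++ rem).length < N := by
    rw [← hN, hbs3, List.length_append, List.length_append]
    have := hW2 hsubne
    omega
  obtain ⟨w', hw'1, hw'2, hw'3⟩ := ih _ hlt _ rfl
  refine ⟨w', hw'1.trans ?_, hw'2, fun i => relI.trans (hw'3 i) ?_⟩
  · rw [hbs3]; exact hW1.append (List.Sublist.refl _)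
  · by_cases hi : InJ e (t i)
    · left
      have ht : t i = bs.flatten.prod i * rem.prod i := by
        change w.prod i = _
        rw [hbs3, List.prod_append]; rfl
      have hte : t i * (e0 i).1 = t i := by
        obtain ⟨a, ha⟩ := (he0 i hi).1
        rw [ha, mul_assoc, (e0 i).2]
      have h1 := hW3 i hi 1 (by rw [one_mul, ← ht, hte])
      rw [← hsub2, hK3, gval_one, one_mul, one_mul, ← ht, hte] at h1
      rw [List.prod_append]
      exact h1
    · have h1 := th3_congr hDS he hI' he' hmin (hW4 i) 1 (rem.prod i)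
      rw [one_mul, one_mul] at h1
      have e1 : (W ++ rem).prod i = W.prod i * rem.prod i := by
        rw [List.prod_append]; rfl
      have e2 : w.prod i = bs.flatten.prod i * rem.prod i := by
        rw [hbs3, List.prod_append]; rfl
      rw [e1, e2]
      rcases h1 with h1 | h1 | h1
      · exact Or.inl h1
      · exfalso
        apply hi
        change InJ e (w.prod i)
        rw [e2]; exact h1.2.1
      · exact Or.inr h1

end

end Pool.Agent.LibSMP
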