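import Pool.Agent.LibSMP.Words

set_option autoImplicit false

namespace Pool.Agent.LibSMP

section Quad
variable {M : Type*} [Monoid M]

/-- The configuration of elements used in the lower bounds. -/
structure Quad (M : Type*) [Monoid M] where
  f : M
  g : M
  u : M
  v : M
  ff : f * f = f
  gg : g * g = g
  uv : u * v = f
  vu : v * u = g
  fu : f * u = u
  ug : u * g = u
  gv : g * v = v
  vf : v * f = v
  bad : ¬ JLe f (f * g)

theorem exists_quad [Finite M] (h : ¬ DSM M) : Nonempty (Quad M) := by
  unfold DSM at h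
  push Not at h
  obtain ⟨x, y, ⟨z, hz⟩, hxy, hyx, hbad⟩ := h
  obtain ⟨a, b, hab⟩ := hxy
  obtain ⟨c, d, hcd⟩ := hyx
  -- `y` is regular
  have h1 : JLe x (x * d) := by
    refine ⟨a * c, b, ?_⟩
    conv_lhs => rw [hab, hcd]
    simp only [mul_assoc]
  have h2 : JLe x (c * x) := by
    refine ⟨a, d * b, ?_⟩
    conv_lhs => rw [hab, hcd]
    simp only [mul_assoc]
  obtain ⟨t, ht⟩ := stab_R h1
  obtain ⟨s, hs⟩ := stab_L h2
  have hy : y * (t * z * s) * y = y := by
    calc y * (t * z * s) * y = c * (x * d * t) * z * (s * (c * x)) * d := by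
          conv_lhs => rw [hcd]
          simp only [mul_assoc]
      _ = c * (x * z * x) * d := by rw [← ht, ← hs]; simp only [mul_assoc]
      _ = y := by rw [hz, ← hcd]
  set w := t * z * s with hw
  set f := z * x with hf
  set g := y * w with hg
  have hff : f * f = f := by
    rw [hf]
    calc z * x * (z * x) = z * (x * z * x) := by simp only [mul_assoc]
      _ = z * x := by rw [hz]
  have hgg : g * g = g := by
    rw [hg]
    calc y * w * (y * w) = (y * w * y) * w := by simp only [mul_assoc]
      _ = y * w := by rw [hy]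
  have hxf : x * f = x := by rw [hf, ← mul_assoc, hz]
  have hgy : g * y = y := by rw [hg, hy]
  have hbad' : ¬ JLe f (f * g) := by
    intro h
    apply hbad
    have h3 : JLe x f := ⟨x, 1, by rw [mul_one, hxf]⟩
    have h4 : JLe (f * g) (x * y) := ⟨z, w, by rw [hf, hg]; simp only [mul_assoc]⟩
    exact (h3.trans h).trans h4
  have hfg : JLe f g := by
    have h3 : JLe f x := ⟨z, 1, by rw [mul_one]⟩
    have h4 : JLe x y := ⟨a, b, hab⟩
    have h5 : JLe y g := ⟨1, y, by rw [one_mul, hgy]⟩
    exact (h3.trans h4).trans h5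
  obtain ⟨p, q, hpq⟩ := hfg
  have hgf : JLe g f := by
    have h3 : JLe g y := ⟨1, w, by rw [one_mul]⟩
    have h4 : JLe y x := ⟨c, d, hcd⟩
    have h5 : JLe x f := ⟨x, 1, by rw [mul_one, hxf]⟩
    exact (h3.trans h4).trans h5
  have huv : (f * p * g) * (g * q * f) = f := by
    calc (f * p * g) * (g * q * f) = f * (p * (g * g) * q) * f := by simp only [mul_assoc]
      _ = f := by rw [hgg, ← hpq, hff, hff]
  have hfu : f * (f * p * g) = f * p * g := by
    simp only [← mul_assoc, hff]
  have hug : (f * p * g) * g = f * p * g := by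
    simp only [mul_assoc, hgg]
  have hgv : g * (g * q * f) = g * q * f := by
    simp only [← mul_assoc, hgg]
  have hvf : (g * q * f) * f = g * q * f := by
    simp only [mul_assoc, hff]
  set u := f * p * g with hu
  set v := g * q * f with hv
  have hid : (v * u) * (v * u) = v * u := by
    calc (v * u) * (v * u) = v * (u * v) * u := by simp only [mul_assoc]
      _ = v * u := by rw [huv, hvf]
  have h6 : JLe g (g * (v * u)) := by
    refine hgf.trans ⟨u, v, ?_⟩
    calc f = f * f := hff.symm
      _ = (u * v) * (u * v) := by rw [huv]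
      _ = u * (g * v * u) * v := by rw [hgv]; simp only [mul_assoc]
      _ = u * (g * (v * u)) * v := by simp only [mul_assoc]
  obtain ⟨r, hr⟩ := stab_R h6
  have hgvu : g * (v * u) = v * u := by rw [← mul_assoc, hgv]
  rw [hgvu] at hr
  have hvug : (v * u) * g = v * u := by rw [mul_assoc, hug]
  have hvu : v * u = g := by
    rw [← hvug]
    conv_lhs => rw [hr, ← mul_assoc, hid]
    exact hr.symm
  exact ⟨⟨f, g, u, v, hff, hgg, huv, hvu, hfu, hug, hgv, hvf, hbad'⟩⟩

variable (Q : Quad M)

lemma Quad.bad_fv : ¬ JLe Q.f (Q.f * Q.v) := by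
  intro h
  apply Q.bad
  refine h.trans ⟨1, Q.v, ?_⟩
  rw [one_mul, mul_assoc, Q.gv]

lemma Quad.bad_vv : ¬ JLe Q.f (Q.v * Q.v) := by
  intro h
  apply Q.bad
  refine h.trans ⟨Q.v, Q.v, ?_⟩
  calc Q.v * Q.v = (Q.v * Q.f) * (Q.g * Q.v) := by rw [Q.vf, Q.gv]
    _ = _ := by simp only [mul_assoc]

lemma Quad.f_le_u : JLe Q.f Q.u := ⟨1, Q.v, by rw [one_mul, Q.uv]⟩
lemma Quad.f_le_v : JLe Q.f Q.v := ⟨Q.u, 1, by rw [mul_one, Q.uv]⟩

lemma Quad.f_ne_u : Q.f ≠ Q.u := by
  intro h
  apply Q.bad_fv
  have : Q.f * Q.v = Q.f := by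
    conv_lhs => rw [h]
    exact Q.uv
  rw [this]
  exact JLe.refl _

lemma Quad.f_ne_v : Q.f ≠ Q.v := by
  intro h
  apply Q.bad_fv
  rw [← h, Q.ff]
  exact JLe.refl _

/-- Encoding of a bit as a pair. -/
def Quad.bit : Bool → Bool → M
  | true, true => Q.u
  | true, false => Q.f
  | false, true => Q.f
  | false, false => Q.u

/-- Encoding of a rule entry as a pair. -/
def Quad.cond : Option (Bool × Bool) → Bool → M
  | none, _ => 1
  | some (true, true), true => Q.g
  | some (true, true), false => 1
  | some (false, false), true => 1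
  | some (false, false), false => Q.g
  | some (false, true), true => Q.u
  | some (false, true), false => Q.v
  | some (true, false), true => Q.v
  | some (true, false), false => Q.u

/-- Effect of a rule entry on a bit. -/
def eff : Option (Bool × Bool) → Bool → Bool
  | none, b => b
  | some (_, q), _ => q

/-- Applicability of a rule entry to a bit. -/
def app : Option (Bool × Bool) → Bool → Prop
  | none, _ => True
  | some (p, _), b => b = p

lemma Quad.step_ok (o : Option (Bool × Bool)) (b : Bool) (h : app o b) (c : Bool) :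
    Q.bit b c * Q.cond o c = Q.bit (eff o b) c := by
  rcases o with _ | ⟨_ | _, _ | _⟩ <;> rcases b with _ | _ <;> rcases c with _ | _ <;>
    simp_all [Quad.bit, Quad.cond, eff, app, Q.ug, Q.uv, Q.fu]

lemma Quad.step_bad (o : Option (Bool × Bool)) (b : Bool) (h : ¬ app o b) :
    ∃ c, ¬ JLe Q.f (Q.bit b c * Q.cond o c) := by
  rcases o with _ | ⟨_ | _, _ | _⟩ <;> rcases b with _ | _
  · exact absurd trivial h
  · exact absurd trivial h
  · exact absurd rfl h
  · exact ⟨false, Q.bad⟩
  · exact absurd rfl h
  · exact ⟨false, Q.bad_fv⟩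
  · exact ⟨true, Q.bad_fv⟩
  · exact absurd rfl h
  · exact ⟨true, Q.bad⟩
  · exact absurd rfl h

lemma Quad.bit_inj {b b' : Bool} (h : ∀ c, Q.bit b c = Q.bit b' c) : b = b' := by
  rcases b with _ | _ <;> rcases b' with _ | _
  · rfl
  · exact absurd (h true) Q.f_ne_u
  · exact absurd (h false) Q.f_ne_u
  · rfl

lemma Quad.f_le_bit (b c : Bool) : JLe Q.f (Q.bit b c) := by
  rcases b with _ | _ <;> rcases c with _ | _
  · exact Q.f_le_u
  · exact JLe.refl _
  · exact JLe.refl _
  · exact Q.f_le_u

end Quad

/-- A rule transforms one configuration into another. -/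
def Fires {N : ℕ} (r : Fin N → Option (Bool × Bool)) (s s' : Fin N → Bool) : Prop :=
  ∀ i, app (r i) (s i) ∧ s' i = eff (r i) (s i)

/-- Runs of a planning system. -/
def Run {N m : ℕ} (R : Fin m → Fin N → Option (Bool × Bool)) :
    (Fin N → Bool) → List (Fin m) → (Fin N → Bool) → Prop
  | s, [], t => s = t
  | s, j :: l, t => ∃ s', Fires (R j) s s' ∧ Run R s' l t

section
variable {M : Type*} [Monoid M] (Q : Quad M) {N m : ℕ} (R : Fin m → Fin N → Option (Bool × Bool))

lemma run_iff (l : List (Fin m)) : ∀ (s t : Fin N → Bool),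
    (∀ i c, Q.bit (s i) c * (l.map (fun j => Q.cond (R j i) c)).prod = Q.bit (t i) c) ↔
      Run R s l t := by
  induction l with
  | nil =>
    intro s t
    simp only [List.map_nil, List.prod_nil, mul_one, Run]
    constructor
    · intro h
      funext i
      exact Q.bit_inj (h i)
    · rintro rfl i c
      rfl
  | cons j l ih =>
    intro s t
    simp only [List.map_cons, List.prod_cons, Run]
    constructor
    · intro h
      have happ : ∀ i, app (R j i) (s i) := by
        intro i
        by_contra hcon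
        obtain ⟨c, hc⟩ := Q.step_bad _ _ hcon
        apply hc
        have h1 := Q.f_le_bit (t i) c
        rw [← h i c, ← mul_assoc] at h1
        exact JLe_of_mul_left h1
      refine ⟨fun i => eff (R j i) (s i), fun i => ⟨happ i, rfl⟩, ?_⟩
      rw [← ih]
      intro i c
      rw [← Q.step_ok _ _ (happ i) c, mul_assoc, h i c]
    · rintro ⟨s', h1, h2⟩ i c
      rw [← ih] at h2
      rw [← mul_assoc, Q.step_ok _ _ (h1 i).1 c, ← (h1 i).2, h2 i c]

/-- Extra coordinate. -/
def Quad.ext (Q : Quad M) {m : ℕ} : Option (Fin m) → M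
  | none => Q.v
  | some _ => Q.f

lemma ext_aux (c : M) (hc : ¬ JLe Q.f (c * Q.v)) (hcf : c * Q.f = c) :
    ∀ l : List (Option (Fin m)), JLe Q.f (c * (l.map Q.ext).prod) →
      ∃ l' : List (Fin m), l = l'.map some := by
  intro l
  induction l with
  | nil => intro _; exact ⟨[], rfl⟩
  | cons x l ih =>
    intro h
    rw [List.map_cons, List.prod_cons, ← mul_assoc] at h
    rcases x with _ | j
    · exact absurd (JLe_of_mul_left h) hc
    · obtain ⟨l', rfl⟩ := ih (by rw [show c * Q.ext (some j) = c from hcf] at h; exact h)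
      exact ⟨j :: l', rfl⟩

lemma ext_prod (l : List (Fin m)) (c : M) (hcf : c * Q.f = c) :
    c * ((l.map some).map Q.ext).prod = c := by
  induction l with
  | nil => simp
  | cons j l ih =>
    rw [List.map_cons, List.map_cons, List.prod_cons, ← mul_assoc,
      show c * Q.ext (some j) = c from hcf, ih]

lemma ext_iff (x : Option (Fin m)) (l : List (Option (Fin m))) :
    ((x :: l).map Q.ext).prod = Q.v ↔ x = none ∧ ∃ l' : List (Fin m), l = l'.map some := by
  rw [List.map_cons, List.prod_cons]
  constructor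
  · intro h
    have h1 := Q.f_le_v
    rw [← h] at h1
    rcases x with _ | j
    · exact ⟨rfl, ext_aux Q Q.v Q.bad_vv Q.vf l h1⟩
    · exfalso
      obtain ⟨l', rfl⟩ := ext_aux Q Q.f Q.bad_fv Q.ff l h1
      rw [show (Q.ext (some j) : M) = Q.f from rfl, ext_prod Q l' Q.f Q.ff] at h
      exact Q.f_ne_v h
  · rintro ⟨rfl, l', rfl⟩
    exact ext_prod Q l' Q.v Q.vf

/-- The generating tuples of the instance. -/
def Quad.gen (s : Fin N → Bool) : Option (Fin m) → Option (Fin N × Bool) → M
  | x, none => Q.ext x
  | none, some (i, c) => Q.bit (s i) c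
  | some j, some (i, c) => Q.cond (R j i) c

/-- The target tuple of the instance. -/
def Quad.tgt (t : Fin N → Bool) : Option (Fin N × Bool) → M
  | none => Q.v
  | some (i, c) => Q.bit (t i) c

theorem gen_iff (s t : Fin N → Bool) (x : Option (Fin m)) (l : List (Option (Fin m))) :
    (∀ z, ((x :: l).map (fun j => Q.gen R s j z)).prod = Q.tgt t z) ↔
      x = none ∧ ∃ l' : List (Fin m), l = l'.map some ∧ Run R s l' t := by
  have hmap : ∀ (l' : List (Fin m)) (i : Fin N) (c : Bool),
      ((none :: l'.map some).map (fun j => Q.gen R s j (some (i, c)))).prod =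
      Q.bit (s i) c * (l'.map (fun j => Q.cond (R j i) c)).prod := by
    intro l' i c
    rw [List.map_cons, List.prod_cons, List.map_map]
    rfl
  constructor
  · intro h
    have h0 := h none
    have h1 : ((x :: l).map Q.ext).prod = Q.v := by
      have : (x :: l).map (fun j => Q.gen R s j none) = (x :: l).map Q.ext :=
        List.map_congr_left (fun j _ => by rcases j with _ | j <;> rfl)
      rw [← this]
      exact h0
    obtain ⟨rfl, l', rfl⟩ := (ext_iff Q x l).1 h1
    refine ⟨rfl, l', rfl, ?_⟩
    rw [← run_iff Q R]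
    intro i c
    rw [← hmap]
    exact h (some (i, c))
  · rintro ⟨rfl, l', rfl, hrun⟩ z
    rcases z with _ | ⟨i, c⟩
    · have : (none :: l'.map some).map (fun j => Q.gen R s j none) =
          (none :: l'.map some).map Q.ext :=
        List.map_congr_left (fun j _ => by rcases j with _ | j <;> rfl)
      rw [this]
      exact (ext_iff Q none _).2 ⟨rfl, l', rfl⟩
    · rw [hmap]
      exact (run_iff Q R l' s t).2 hrun i c

end

end Pool.Agent.LibSMP
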