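import Pool.Agent.LibSMP.Steps

set_option autoImplicit false

namespace Pool.Agent.LibSMP

section
variable {M : Type*} [Monoid M]

/-- J-equivalent to `e`. -/
def InJ (e x : M) : Prop := JLe x e ∧ JLe e x

/-- Rees congruence of a set. -/
def relI (I : Set M) (x y : M) : Prop := x = y ∨ (x ∈ I ∧ y ∈ I)

def IsId (I : Set M) : Prop := ∀ x ∈ I, ∀ a b : M, a * x * b ∈ I

lemma IsId.left {I : Set M} (h : IsId I) {x : M} (hx : x ∈ I) (a : M) : a * x ∈ I := by
  simpa using h x hx a 1
lemma IsId.right {I : Set M} (h : IsId I) {x : M} (hx : x ∈ I) (b : M) : x * b ∈ I := by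
  simpa using h x hx 1 b

omit [Monoid M] in
lemma relI.trans {I : Set M} {x y z : M} (h : relI I x y) (h' : relI I y z) : relI I x z := by
  rcases h with rfl | h
  · exact h'
  · rcases h' with rfl | h'
    · exact Or.inr h
    · exact Or.inr ⟨h.1, h'.2⟩

lemma extend_ideal {I' : Set M} (hI' : IsId I') {j : M}
    (hmin : ∀ y, y ∉ I' → JLe y j → JLe j y) : IsId (I' ∪ {x | InJ j x}) := by
  intro x hx a b
  rcases hx with hx | hx
  · exact Or.inl (hI' x hx a b)
  · by_cases h : a * x * b ∈ I'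
    · exact Or.inl h
    · right
      have h1 : JLe (a * x * b) j := (JLe_mid a x b).trans hx.1
      exact ⟨h1, hmin _ h h1⟩

/-- Nonregular step. -/
theorem step_N [Finite M] {I' : Set M} (hI' : IsId I') {j : M}
    (hmin : ∀ y, y ∉ I' → JLe y j → JLe j y)
    (hnr : ∀ x, InJ j x → ∀ z, x * z * x ≠ x)
    (h : SPW M (relI (I' ∪ {x | InJ j x}))) : SPW M (relI I') := by
  have hI := extend_ideal hI' hmin
  set I := I' ∪ {x | InJ j x} with hIdef
  have key : ∀ x ∈ I, ∀ y ∈ I, ∀ m, x * m * y ∈ I' := by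
    intro x hx y hy m
    rcases hx with hx | hx
    · rw [mul_assoc]; exact hI'.right hx _
    rcases hy with hy | hy
    · exact hI'.left hy _
    by_contra hcon
    have h1 : JLe (x * m * y) j := (JLe_mul_left _ _).trans hy.1
    have h2 := hmin _ hcon h1
    have h3 : JLe y ((x * m) * y) := hy.1.trans h2
    obtain ⟨z, hz⟩ := stab_L h3
    obtain ⟨k, hk, hidem⟩ := exists_idem_pow (z * (x * m))
    have h4 : y = (z * (x * m)) * y * 1 := by rw [mul_one, mul_assoc, ← hz]
    have h5 := iter_aux (z * (x * m)) y 1 h4 k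
    rw [one_pow, mul_one] at h5
    obtain ⟨k', rfl⟩ : ∃ k', k = k' + 1 := ⟨k - 1, by omega⟩
    apply hnr ((z * (x * m)) ^ (k' + 1)) _ 1
    · rw [mul_one, hidem]
    · constructor
      · refine JLe.trans ?_ hx.1
        rw [pow_succ]
        exact ⟨(z * (x * m)) ^ k' * z, m, by simp only [mul_assoc]⟩
      · refine hy.2.trans ?_
        conv_lhs => rw [h5]
        exact JLe_mul_right _ _
  apply single_step _ (relI I') h (fun x => Or.inl rfl) (fun x y z => relI.trans)
    (fun u x v => u.prod ∉ I ∧ v.prod ∉ I ∧ x.prod ∈ I)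
  · intro u x x' v hsub hr hbad
    simp only [List.prod_append]
    rcases hr with hr | ⟨hr1, hr2⟩
    · rw [hr]; exact Or.inl rfl
    · right
      by_cases hu : u.prod ∈ I
      · constructor
        · have := key _ hu _ hr1 1
          rw [mul_one] at this
          exact hI'.right this _
        · have := key _ hu _ hr2 1
          rw [mul_one] at this
          exact hI'.right this _
      · by_cases hv : v.prod ∈ I
        · constructor
          · have := key _ hr1 _ hv 1
            rw [mul_one] at this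
            rw [mul_assoc]
            exact hI'.left this _
          · have := key _ hr2 _ hv 1
            rw [mul_one] at this
            rw [mul_assoc]
            exact hI'.left this _
        · exact absurd ⟨hu, hv, hr2⟩ hbad
  · intro u x m y v hb1 hb2
    apply hb2.1
    simp only [List.prod_append]
    exact hI _ hb1.2.2 _ _

end

section Regular
variable {M : Type*} [Monoid M]

def th1 (I' : Set M) (e x y : M) : Prop :=
  x = y ∨ (InJ e x ∧ InJ e y) ∨ (x ∈ I' ∧ y ∈ I')
def th2 (I' : Set M) (e x y : M) : Prop :=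
  x = y ∨ (InJ e x ∧ InJ e y ∧ (∃ z, x = y * z) ∧ (∃ z, y = x * z)) ∨ (x ∈ I' ∧ y ∈ I')
def th3 (I' : Set M) (e x y : M) : Prop :=
  x = y ∨ (InJ e x ∧ InJ e y ∧ ((∃ z, x = y * z) ∧ (∃ z, y = x * z)) ∧
    ((∃ z, x = z * y) ∧ (∃ z, y = z * x))) ∨ (x ∈ I' ∧ y ∈ I')

lemma InJ.not_mem {I' : Set M} (hI' : IsId I') {e x : M} (he : e ∉ I') (hx : JLe e x) :
    x ∉ I' := by
  intro h
  obtain ⟨a, b, rfl⟩ := hx
  exact he (hI' x h a b)

lemma th1.trans {I' : Set M} (hI' : IsId I') {e : M} (he : e ∉ I') {x y z : M}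
    (h : th1 I' e x y) (h' : th1 I' e y z) : th1 I' e x z := by
  rcases h with rfl | h | h
  · exact h'
  · rcases h' with rfl | h' | h'
    · exact Or.inr (Or.inl h)
    · exact Or.inr (Or.inl ⟨h.1, h'.2⟩)
    · exact absurd h'.1 (InJ.not_mem hI' he h.2.2)
  · rcases h' with rfl | h' | h'
    · exact Or.inr (Or.inr h)
    · exact absurd h.2 (InJ.not_mem hI' he h'.1.2)
    · exact Or.inr (Or.inr ⟨h.1, h'.2⟩)

lemma th2.trans {I' : Set M} (hI' : IsId I') {e : M} (he : e ∉ I') {x y z : M}
    (h : th2 I' e x y) (h' : th2 I' e y z) : th2 I' e x z := by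
  rcases h with rfl | h | h
  · exact h'
  · rcases h' with rfl | h' | h'
    · exact Or.inr (Or.inl h)
    · refine Or.inr (Or.inl ⟨h.1, h'.2.1, ?_, ?_⟩)
      · obtain ⟨a, ha⟩ := h.2.2.1
        obtain ⟨b, hb⟩ := h'.2.2.1
        exact ⟨b * a, by rw [ha, hb, mul_assoc]⟩
      · obtain ⟨a, ha⟩ := h.2.2.2
        obtain ⟨b, hb⟩ := h'.2.2.2
        exact ⟨a * b, by rw [hb, ha, mul_assoc]⟩
    · exact absurd h'.1 (InJ.not_mem hI' he h.2.1.2)
  · rcases h' with rfl | h' | h'
    · exact Or.inr (Or.inr h)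
    · exact absurd h.2 (InJ.not_mem hI' he h'.1.2)
    · exact Or.inr (Or.inr ⟨h.1, h'.2⟩)

lemma th3.trans {I' : Set M} (hI' : IsId I') {e : M} (he : e ∉ I') {x y z : M}
    (h : th3 I' e x y) (h' : th3 I' e y z) : th3 I' e x z := by
  rcases h with rfl | h | h
  · exact h'
  · rcases h' with rfl | h' | h'
    · exact Or.inr (Or.inl h)
    · refine Or.inr (Or.inl ⟨h.1, h'.2.1, ⟨?_, ?_⟩, ⟨?_, ?_⟩⟩)
      · obtain ⟨a, ha⟩ := h.2.2.1.1
        obtain ⟨b, hb⟩ := h'.2.2.1.1
        exact ⟨b * a, by rw [ha, hb, mul_assoc]⟩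
      · obtain ⟨a, ha⟩ := h.2.2.1.2
        obtain ⟨b, hb⟩ := h'.2.2.1.2
        exact ⟨a * b, by rw [hb, ha, mul_assoc]⟩
      · obtain ⟨a, ha⟩ := h.2.2.2.1
        obtain ⟨b, hb⟩ := h'.2.2.2.1
        exact ⟨a * b, by rw [ha, hb, mul_assoc]⟩
      · obtain ⟨a, ha⟩ := h.2.2.2.2
        obtain ⟨b, hb⟩ := h'.2.2.2.2
        exact ⟨b * a, by rw [hb, ha, mul_assoc]⟩
    · exact absurd h'.1 (InJ.not_mem hI' he h.2.1.2)
  · rcases h' with rfl | h' | h'
    · exact Or.inr (Or.inr h)
    · exact absurd h.2 (InJ.not_mem hI' he h'.1.2)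
    · exact Or.inr (Or.inr ⟨h.1, h'.2⟩)

variable {I' : Set M} {e : M}

lemma mem_I_cases (hI' : IsId I') (he' : e ∉ I') {x : M} (hx : x ∈ I' ∪ {x | InJ e x}) :
    (JLe e x ∧ InJ e x) ∨ (¬ JLe e x ∧ x ∈ I') := by
  rcases hx with hx | hx
  · right
    exact ⟨fun h => InJ.not_mem hI' he' h hx, hx⟩
  · left
    exact ⟨hx.2, hx⟩

theorem step_E (hDS : DSM M) (he : e * e = e) (hI' : IsId I') (he' : e ∉ I')
    (hmin : ∀ y, y ∉ I' → JLe y e → JLe e y)
    (h : SPW M (relI (I' ∪ {x | InJ e x}))) : SPW M (th1 I' e) := by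
  have hI := extend_ideal hI' hmin
  apply single_step _ (th1 I' e) h (fun x => Or.inl rfl) (fun x y z => th1.trans hI' he')
    (fun u x v => JLe e u.prod ∧ JLe e v.prod ∧ ¬ JLe e x.prod)
  · intro u x x' v hsub hr hbad
    simp only [List.prod_append]
    rcases hr with hr | ⟨hr1, hr2⟩
    · rw [hr]; exact Or.inl rfl
    right
    have ht := hI _ hr2 u.prod v.prod
    have ht' := hI _ hr1 u.prod v.prod
    by_cases hF : JLe e (u.prod * x.prod * v.prod)
    · left
      have hv := JLe_of_mul_right hF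
      have hu := JLe_of_mul_left (JLe_of_mul_left hF)
      have hx := JLe_of_mul_right (JLe_of_mul_left hF)
      have hx' : JLe e x'.prod := by
        rw [JLe_prod_iff hDS he] at hx ⊢
        exact fun y hy => hx y (hsub.subset hy)
      have hF' : JLe e (u.prod * x'.prod * v.prod) :=
        DS_mul hDS he (DS_mul hDS he hu hx') hv
      constructor
      · rcases mem_I_cases hI' he' ht' with h | h
        · exact h.2
        · exact absurd hF' h.1
      · rcases mem_I_cases hI' he' ht with h | h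
        · exact h.2
        · exact absurd hF h.1
    · right
      have hF' : ¬ JLe e (u.prod * x'.prod * v.prod) := by
        intro hF'
        have hv := JLe_of_mul_right hF'
        have hu := JLe_of_mul_left (JLe_of_mul_left hF')
        apply hbad
        refine ⟨hu, hv, fun hx => hF (DS_mul hDS he (DS_mul hDS he hu hx) hv)⟩
      constructor
      · rcases mem_I_cases hI' he' ht' with h | h
        · exact absurd h.1 hF'
        · exact h.2
      · rcases mem_I_cases hI' he' ht with h | h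
        · exact absurd h.1 hF
        · exact h.2
  · intro u x m y v hb1 hb2
    apply hb1.2.2
    have := hb2.1
    simp only [List.prod_append] at this
    exact JLe_of_mul_right (JLe_of_mul_left this)

/-- Common case analysis. -/
lemma both_cases (hDS : DSM M) (he : e * e = e) (hI' : IsId I') (he' : e ∉ I')
    (hmin : ∀ y, y ∉ I' → JLe y e → JLe e y) {U X X' V : M} (hX : InJ e X) (hX' : InJ e X') :
    (JLe e U ∧ JLe e V ∧ InJ e (U * X * V) ∧ InJ e (U * X' * V)) ∨
      (U * X * V ∈ I' ∧ U * X' * V ∈ I') := by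
  have hI := extend_ideal hI' hmin
  have ht := hI _ (Or.inr hX) U V
  have ht' := hI _ (Or.inr hX') U V
  by_cases hUV : JLe e U ∧ JLe e V
  · left
    refine ⟨hUV.1, hUV.2, ?_, ?_⟩
    · rcases mem_I_cases hI' he' ht with h | h
      · exact h.2
      · exact absurd (DS_mul hDS he (DS_mul hDS he hUV.1 hX.2) hUV.2) h.1
    · rcases mem_I_cases hI' he' ht' with h | h
      · exact h.2
      · exact absurd (DS_mul hDS he (DS_mul hDS he hUV.1 hX'.2) hUV.2) h.1
  · right
    constructor
    · rcases mem_I_cases hI' he' ht with h | h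
      · exact absurd ⟨JLe_of_mul_left (JLe_of_mul_left h.1), JLe_of_mul_right h.1⟩ hUV
      · exact h.2
    · rcases mem_I_cases hI' he' ht' with h | h
      · exact absurd ⟨JLe_of_mul_left (JLe_of_mul_left h.1), JLe_of_mul_right h.1⟩ hUV
      · exact h.2

theorem step_R [Finite M] (hDS : DSM M) (he : e * e = e) (hI' : IsId I') (he' : e ∉ I')
    (hmin : ∀ y, y ∉ I' → JLe y e → JLe e y)
    (h : SPW M (th1 I' e)) : SPW M (th2 I' e) := by
  have hI := extend_ideal hI' hmin
  set I := I' ∪ {x | InJ e x} with hIdef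
  apply single_step _ (th2 I' e) h (fun x => Or.inl rfl) (fun x y z => th2.trans hI' he')
    (fun u x v => u.prod ∉ I ∧ x.prod ∈ I)
  · intro u x x' v hsub hr hbad
    simp only [List.prod_append]
    rcases hr with hr | ⟨hr1, hr2⟩ | ⟨hr1, hr2⟩
    · rw [hr]; exact Or.inl rfl
    · rcases both_cases hDS he hI' he' hmin (U := u.prod) (V := v.prod) hr2 hr1 with
        ⟨hu, hv, ht, ht'⟩ | ⟨ht, ht'⟩
      · right; left
        refine ⟨ht', ht, ?_⟩
        have huI : u.prod ∈ I := by
          by_contra hu'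
          exact hbad ⟨hu', Or.inr hr2⟩
        have huJ : InJ e u.prod := by
          rcases mem_I_cases hI' he' huI with h | h
          · exact h.2
          · exact absurd hu h.1
        have h1 : JLe u.prod (u.prod * (x.prod * v.prod)) := by
          rw [← mul_assoc]; exact huJ.1.trans ht.2
        have h2 : JLe u.prod (u.prod * (x'.prod * v.prod)) := by
          rw [← mul_assoc]; exact huJ.1.trans ht'.2
        obtain ⟨z, hz⟩ := stab_R h1
        obtain ⟨z', hz'⟩ := stab_R h2
        constructor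
        · refine ⟨z * (x'.prod * v.prod), ?_⟩
          conv_lhs => rw [mul_assoc, hz]
          simp only [mul_assoc]
        · refine ⟨z' * (x.prod * v.prod), ?_⟩
          conv_lhs => rw [mul_assoc, hz']
          simp only [mul_assoc]
      · exact Or.inr (Or.inr ⟨ht', ht⟩)
    · exact Or.inr (Or.inr ⟨hI' _ hr1 _ _, hI' _ hr2 _ _⟩)
  · intro u x m y v hb1 hb2
    apply hb2.1
    simp only [List.prod_append]
    exact hI _ hb1.2 _ _

/-- R-relation is kept by `U _ V` inside the J-class. -/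
lemma R_kept [Finite M] {U X X' V : M} (hX : InJ e X) (hX' : InJ e X')
    (ht : InJ e (U * X * V)) (ht' : InJ e (U * X' * V))
    (hR : (∃ z, X' = X * z) ∧ (∃ z, X = X' * z)) :
    (∃ z, U * X' * V = U * X * V * z) ∧ (∃ z, U * X * V = U * X' * V * z) := by
  obtain ⟨⟨a, ha⟩, ⟨b, hb⟩⟩ := hR
  have h1 : JLe (U * X) (U * X * V) := ((JLe_mul_left U X).trans hX.1).trans ht.2
  have h2 : JLe (U * X') (U * X' * V) := ((JLe_mul_left U X').trans hX'.1).trans ht'.2
  obtain ⟨z, hz⟩ := stab_R h1
  obtain ⟨z', hz'⟩ := stab_R h2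
  constructor
  · refine ⟨z * (a * V), ?_⟩
    calc U * X' * V = (U * X) * (a * V) := by rw [ha]; simp only [mul_assoc]
      _ = (U * X * V * z) * (a * V) := by rw [← hz]
      _ = _ := by simp only [mul_assoc]
  · refine ⟨z' * (b * V), ?_⟩
    calc U * X * V = (U * X') * (b * V) := by
          conv_lhs => rw [hb]
          simp only [mul_assoc]
      _ = (U * X' * V * z') * (b * V) := by rw [← hz']
      _ = _ := by simp only [mul_assoc]

/-- L-relation is kept by `U _ V` inside the J-class. -/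
lemma L_kept [Finite M] {U X X' V : M} (hX : InJ e X) (hX' : InJ e X')
    (ht : InJ e (U * X * V)) (ht' : InJ e (U * X' * V))
    (hL : (∃ z, X' = z * X) ∧ (∃ z, X = z * X')) :
    (∃ z, U * X' * V = z * (U * X * V)) ∧ (∃ z, U * X * V = z * (U * X' * V)) := by
  obtain ⟨⟨a, ha⟩, ⟨b, hb⟩⟩ := hL
  have h1 : JLe (X * V) (U * (X * V)) := by
    rw [← mul_assoc]
    exact ((JLe_mul_right X V).trans hX.1).trans ht.2
  have h2 : JLe (X' * V) (U * (X' * V)) := by
    rw [← mul_assoc]
    exact ((JLe_mul_right X' V).trans hX'.1).trans ht'.2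
  obtain ⟨z, hz⟩ := stab_L h1
  obtain ⟨z', hz'⟩ := stab_L h2
  constructor
  · refine ⟨U * a * z, ?_⟩
    calc U * X' * V = (U * a) * (X * V) := by rw [ha]; simp only [mul_assoc]
      _ = (U * a) * (z * (U * (X * V))) := by rw [← hz]
      _ = _ := by simp only [mul_assoc]
  · refine ⟨U * b * z', ?_⟩
    calc U * X * V = (U * b) * (X' * V) := by
          conv_lhs => rw [hb]
          simp only [mul_assoc]
      _ = (U * b) * (z' * (U * (X' * V))) := by rw [← hz']
      _ = _ := by simp only [mul_assoc]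

theorem step_L [Finite M] (hDS : DSM M) (he : e * e = e) (hI' : IsId I') (he' : e ∉ I')
    (hmin : ∀ y, y ∉ I' → JLe y e → JLe e y)
    (h : SPW M (th2 I' e)) : SPW M (th3 I' e) := by
  have hI := extend_ideal hI' hmin
  set I := I' ∪ {x | InJ e x} with hIdef
  apply single_step _ (th3 I' e) h (fun x => Or.inl rfl) (fun x y z => th3.trans hI' he')
    (fun u x v => v.prod ∉ I ∧ x.prod ∈ I)
  · intro u x x' v hsub hr hbad
    simp only [List.prod_append]
    rcases hr with hr | ⟨hr1, hr2, hR1, hR2⟩ | ⟨hr1, hr2⟩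
    · rw [hr]; exact Or.inl rfl
    · rcases both_cases hDS he hI' he' hmin (U := u.prod) (V := v.prod) hr2 hr1 with
        ⟨hu, hv, ht, ht'⟩ | ⟨ht, ht'⟩
      · right; left
        refine ⟨ht', ht, R_kept hr2 hr1 ht ht' ⟨hR1, hR2⟩, ?_⟩
        have hvI : v.prod ∈ I := by
          by_contra hv'
          exact hbad ⟨hv', Or.inr hr2⟩
        have hvJ : InJ e v.prod := by
          rcases mem_I_cases hI' he' hvI with h | h
          · exact h.2
          · exact absurd hv h.1
        obtain ⟨z, hz⟩ := stab_L (hvJ.1.trans ht.2)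
        obtain ⟨z', hz'⟩ := stab_L (hvJ.1.trans ht'.2)
        constructor
        · refine ⟨u.prod * x'.prod * z, ?_⟩
          conv_lhs => rw [hz]
          simp only [mul_assoc]
        · refine ⟨u.prod * x.prod * z', ?_⟩
          conv_lhs => rw [hz']
          simp only [mul_assoc]
      · exact Or.inr (Or.inr ⟨ht', ht⟩)
    · exact Or.inr (Or.inr ⟨hI' _ hr1 _ _, hI' _ hr2 _ _⟩)
  · intro u x m y v hb1 hb2
    apply hb1.1
    simp only [List.prod_append]
    exact hI _ hb2.2 _ _

/-- `th3` is a congruence. -/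
lemma th3_congr [Finite M] (hDS : DSM M) (he : e * e = e) (hI' : IsId I') (he' : e ∉ I')
    (hmin : ∀ y, y ∉ I' → JLe y e → JLe e y) {X X' : M} (h : th3 I' e X' X) (U V : M) :
    th3 I' e (U * X' * V) (U * X * V) := by
  rcases h with rfl | ⟨h1, h2, hR, hL⟩ | ⟨h1, h2⟩
  · exact Or.inl rfl
  · rcases both_cases hDS he hI' he' hmin (U := U) (V := V) h2 h1 with
      ⟨hu, hv, ht, ht'⟩ | ⟨ht, ht'⟩
    · exact Or.inr (Or.inl ⟨ht', ht, R_kept h2 h1 ht ht' hR, L_kept h2 h1 ht ht' hL⟩)
    · exact Or.inr (Or.inr ⟨ht', ht⟩)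
  · exact Or.inr (Or.inr ⟨hI' _ h1 _ _, hI' _ h2 _ _⟩)

end Regular

end Pool.Agent.LibSMP
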