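import Pool.Agent.LibSMP.Hard

set_option autoImplicit false

namespace Pool.Agent.LibSMP

universe u

section
variable {S : Type u} [Semigroup S]

lemma not_lds_cor (h : ¬ LocallyDS S) : ∃ e : {e : S // e * e = e}, ¬ DSM (Cor e) := by
  by_contra hcon
  push Not at hcon
  apply h
  intro e x y z a b c d he hex hxe hey hye hreg hab hcd
  have e2 : ∀ t : S, e * (e * t) = e * t := fun t => by rw [← mul_assoc, he]
  have ey : ∀ t : S, e * (y * t) = y * t := fun t => by rw [← mul_assoc, hey]
  have ye : ∀ t : S, y * (e * t) = y * t := fun t => by rw [← mul_assoc, hye]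
  have ex : ∀ t : S, e * (x * t) = x * t := fun t => by rw [← mul_assoc, hex]
  have xe : ∀ t : S, x * (e * t) = x * t := fun t => by rw [← mul_assoc, hxe]
  let sq : S → Cor (⟨e, he⟩ : {e : S // e * e = e}) := fun t => ⟨e * t * e,
    by simp only [mul_assoc, e2], by simp only [mul_assoc, he]⟩
  let X : Cor (⟨e, he⟩ : {e : S // e * e = e}) := ⟨x, hex, hxe⟩
  let Y : Cor (⟨e, he⟩ : {e : S // e * e = e}) := ⟨y, hey, hye⟩
  obtain ⟨p, q, hpq⟩ := hcon ⟨e, he⟩ X Y ⟨sq z, Subtype.ext (by
      change x * (e * z * e) * x = x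
      simp only [mul_assoc, xe, hex]
      simpa only [mul_assoc] using hreg)⟩
    ⟨sq a, sq b, Subtype.ext (by
      change x = (e * a * e) * y * (e * b * e)
      have : x = e * (a * y * b) * e := by rw [← hab, hex, hxe]
      conv_lhs => rw [this]
      simp only [mul_assoc, ey, ye])⟩
    ⟨sq c, sq d, Subtype.ext (by
      change y = (e * c * e) * x * (e * d * e)
      have : y = e * (c * x * d) * e := by rw [← hcd, hey, hye]
      conv_lhs => rw [this]
      simp only [mul_assoc, ex, xe])⟩
  exact ⟨p.1, q.1, congrArg Subtype.val hpq⟩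

lemma lift_cor {κ ι : Type*} {e : {e : S // e * e = e}} (a : κ → ι → Cor e)
    (x : FreeSemigroup κ) (i : ι) :
    FreeSemigroup.lift (fun j i => ((a j i).1 : S)) x i =
      (((x.head :: x.tail).map (fun j => a j i)).prod).1 := by
  induction x with
  | ih1 j => rw [FreeSemigroup.lift_of]; simp
  | ih2 j x _ ih =>
    rw [FreeSemigroup.lift_of_mul, Pi.mul_apply, ih]
    simp [FreeSemigroup.of, Cor.mul_val]

lemma mem_closure_gen {T κ : Type*} [Semigroup T] (a : κ → T) (b : T) :
    b ∈ Subsemigroup.closure (Set.range a) ↔ ∃ x : FreeSemigroup κ,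
      FreeSemigroup.lift a x = b := by
  constructor
  · intro h
    induction h using Subsemigroup.closure_induction with
    | mem x hx =>
      obtain ⟨j, rfl⟩ := hx
      exact ⟨FreeSemigroup.of j, rfl⟩
    | mul x y _ _ hx hy =>
      obtain ⟨x', rfl⟩ := hx
      obtain ⟨y', rfl⟩ := hy
      exact ⟨x' * y', map_mul _ _ _⟩
  · rintro ⟨x, rfl⟩
    induction x with
    | ih1 j => exact Subsemigroup.subset_closure ⟨j, rfl⟩
    | ih2 j x _ ih =>
      rw [FreeSemigroup.lift_of_mul]
      exact Subsemigroup.mul_mem _ (Subsemigroup.subset_closure ⟨j, rfl⟩) ih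

/-- The tuples of the reduction. The coordinate `none` has `p` for the start tuple and
`q` for the others. -/
def redGen (p q : S) (B : Bool → Bool → S) (D : Option (Bool × Bool) → Bool → S) {N m : ℕ}
    (R : Fin m → Fin N → Option (Bool × Bool)) (s : Fin N → Bool) :
    Option (Fin m) → Option (Fin N × Bool) → S
  | none, none => p
  | some _, none => q
  | none, some (i, c) => B (s i) c
  | some j, some (i, c) => D (R j i) c

/-- The target of the reduction. -/
def redTgt (p : S) (B : Bool → Bool → S) {N : ℕ} (t : Fin N → Bool) :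
    Option (Fin N × Bool) → S
  | none => p
  | some (i, c) => B (t i) c

theorem reduction_words [Finite S] (h : ¬ LocallyDS S) :
    ∃ (p q : S) (B : Bool → Bool → S) (D : Option (Bool × Bool) → Bool → S),
      ∀ (N m : ℕ) (R : Fin m → Fin N → Option (Bool × Bool)) (s t : Fin N → Bool)
        (w : FreeSemigroup (Option (Fin m))),
        FreeSemigroup.lift (redGen p q B D R s) w = redTgt p B t ↔
          w.head = none ∧ ∃ l : List (Fin m), w.tail = l.map some ∧ Run R s l t := by
  obtain ⟨e, he⟩ := not_lds_cor h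
  obtain ⟨Q⟩ := exists_quad he
  refine ⟨Q.v.1, Q.f.1, fun b c => (Q.bit b c).1, fun o c => (Q.cond o c).1, ?_⟩
  intro N m R s t w
  have h1 : redGen Q.v.1 Q.f.1 (fun b c => (Q.bit b c).1) (fun o c => (Q.cond o c).1) R s =
      fun j i => ((Q.gen R s j i).1 : S) := by
    funext j i
    rcases j with _ | j <;> rcases i with _ | ⟨i, c⟩ <;> rfl
  have h2 : redTgt Q.v.1 (fun b c => (Q.bit b c).1) t = fun i => ((Q.tgt t i).1 : S) := by
    funext i
    rcases i with _ | ⟨i, c⟩ <;> rfl
  rw [h1, h2, ← gen_iff Q R s t w.head w.tail]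
  constructor
  · intro h z
    have h3 := congrFun h z
    rw [lift_cor] at h3
    exact Subtype.ext h3
  · intro h
    funext z
    rw [lift_cor]
    exact congrArg Subtype.val (h z)

end

/-- Binary counter. -/
def ctr (N : ℕ) : Fin N → Fin N → Option (Bool × Bool) := fun j i =>
  if i < j then some (true, false) else if i = j then some (false, true) else none

/-- Number of a configuration. -/
def val {N : ℕ} (s : Fin N → Bool) : ℕ := ∑ i : Fin N, if s i then 2 ^ (i : ℕ) else 0

lemma sum_lt_pow (j : ℕ) : ∀ N : ℕ, j ≤ N →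
    (∑ i ∈ Finset.range N, if i < j then 2 ^ i else 0) + 1 = 2 ^ j := by
  intro N
  induction N with
  | zero => intro h; simp [Nat.le_zero.1 h]
  | succ N ih =>
    intro h
    rcases Nat.lt_or_ge N j with h1 | h1
    · have hj : j = N + 1 := by omega
      subst hj
      have : ∀ M, (∑ i ∈ Finset.range M, 2 ^ i) + 1 = 2 ^ M := by
        intro M
        induction M with
        | zero => simp
        | succ M ihM => rw [Finset.sum_range_succ]; rw [pow_succ]; omega
      rw [← this (N + 1)]
      congr 1
      apply Finset.sum_congr rfl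
      intro i hi
      rw [if_pos (Finset.mem_range.1 hi)]
    · rw [Finset.sum_range_succ, if_neg (by omega), add_zero]
      exact ih h1

lemma ctr_val {N : ℕ} (j : Fin N) (s s' : Fin N → Bool) (h : Fires (ctr N j) s s') :
    val s' = val s + 1 := by
  have h1 : ∀ i : Fin N, (if s' i then 2 ^ (i : ℕ) else 0) + (if (i : ℕ) < j then 2 ^ (i : ℕ) else 0)
      = (if s i then 2 ^ (i : ℕ) else 0) + (if i = j then 2 ^ (i : ℕ) else 0) := by
    intro i
    obtain ⟨h2, h3⟩ := h i
    unfold ctr at h2 h3
    by_cases hij : i < j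
    · rw [if_pos hij] at h2 h3
      have h4 : s i = true := h2
      have h5 : s' i = false := h3
      have h6 : (i : ℕ) < j := hij
      have h7 : i ≠ j := ne_of_lt hij
      simp [h4, h5, h6, h7]
    · rw [if_neg hij] at h2 h3
      have h6 : ¬ (i : ℕ) < j := hij
      by_cases hij' : i = j
      · rw [if_pos hij'] at h2 h3
        have h4 : s i = false := h2
        have h5 : s' i = true := h3
        subst hij'
        simp [h4, h5]
      · rw [if_neg hij'] at h2 h3
        have h5 : s' i = s i := h3
        simp [h5, h6, hij']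
  have h2 := Finset.sum_congr (rfl : (Finset.univ : Finset (Fin N)) = Finset.univ) (fun i _ => h1 i)
  rw [Finset.sum_add_distrib, Finset.sum_add_distrib] at h2
  have h3 : (∑ i : Fin N, if (i : ℕ) < j then 2 ^ (i : ℕ) else 0) + 1 = 2 ^ (j : ℕ) := by
    rw [Fin.sum_univ_eq_sum_range (fun i => if i < (j : ℕ) then 2 ^ i else 0) N]
    exact sum_lt_pow j N j.2.le
  have h4 : (∑ i : Fin N, if i = j then 2 ^ (i : ℕ) else 0) = 2 ^ (j : ℕ) := by
    simp
  unfold val
  omega

lemma run_val {N : ℕ} : ∀ (l : List (Fin N)) (s t : Fin N → Bool), Run (ctr N) s l t →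
    val t = val s + l.length := by
  intro l
  induction l with
  | nil =>
    intro s t h
    rw [show s = t from h]
    simp
  | cons j l ih =>
    rintro s t ⟨s', h1, h2⟩
    rw [ih s' t h2, ctr_val j s s' h1, List.length_cons]
    ring

lemma val_le {N : ℕ} (s : Fin N → Bool) : val s ≤ val (fun _ : Fin N => true) := by
  unfold val
  apply Finset.sum_le_sum
  intro i _
  by_cases h : s i <;> simp [h]

lemma val_zero (N : ℕ) : val (fun _ : Fin N => false) = 0 := by simp [val]

lemma val_one (N : ℕ) : val (fun _ : Fin N => true) + 1 = 2 ^ N := by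
  unfold val
  simp only [if_true]
  rw [Fin.sum_univ_eq_sum_range (fun i => 2 ^ i) N]
  have := sum_lt_pow N N le_rfl
  rw [← this]
  congr 1
  apply Finset.sum_congr rfl
  intro i hi
  rw [if_pos (Finset.mem_range.1 hi)]

lemma exists_run {N : ℕ} : ∀ (d : ℕ) (s : Fin N → Bool),
    val (fun _ : Fin N => true) - val s = d → ∃ l, Run (ctr N) s l (fun _ => true) := by
  intro d
  induction d using Nat.strong_induction_on with
  | _ d ih =>
  intro s hd
  by_cases hs : s = fun _ => true
  · exact ⟨[], hs⟩
  · have hex : ∃ i : Fin N, s i = false := by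
      by_contra hcon
      push Not at hcon
      apply hs
      funext i
      simpa using hcon i
    obtain ⟨j, hj1, hj2⟩ : ∃ j : Fin N, s j = false ∧ ∀ i < j, s i = true := by
      have hwf : WellFounded (fun a b : Fin N => a < b) := wellFounded_lt
      obtain ⟨j, hj, hmin⟩ := hwf.has_min {i : Fin N | s i = false} hex
      refine ⟨j, hj, fun i hi => ?_⟩
      by_contra hcon
      exact hmin i (by simpa using hcon) hi
    have hf : Fires (ctr N j) s (fun i => eff (ctr N j i) (s i)) := by
      intro i
      refine ⟨?_, rfl⟩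
      unfold ctr
      by_cases hij : i < j
      · rw [if_pos hij]; exact hj2 i hij
      · rw [if_neg hij]
        by_cases hij' : i = j
        · rw [if_pos hij', hij']; exact hj1
        · rw [if_neg hij']; trivial
    have hv := ctr_val j s _ hf
    have hle := val_le (fun i => eff (ctr N j i) (s i))
    obtain ⟨l, hl⟩ := ih (val (fun _ : Fin N => true) - val (fun i => eff (ctr N j i) (s i)))
      (by omega) (fun i => eff (ctr N j i) (s i)) rfl
    exact ⟨j :: l, _, hf, hl⟩

lemma lift_map_equiv {S : Type*} [Semigroup S] {κ κ' ι ι' : Type*} (φ : κ' → κ) (ψ : ι' → ι)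
    (a : κ → ι → S) (x : FreeSemigroup κ') (i : ι') :
    FreeSemigroup.lift (fun j i => a (φ j) (ψ i)) x i =
      FreeSemigroup.lift a (FreeSemigroup.map φ x) (ψ i) := by
  induction x with
  | ih1 j => rfl
  | ih2 j x _ ih =>
    rw [FreeSemigroup.lift_of_mul, Pi.mul_apply, ih, map_mul, FreeSemigroup.map_of,
      FreeSemigroup.lift_of_mul, Pi.mul_apply]

/-- Exponential lower bound for witnesses. -/
theorem long_words {S : Type*} [Semigroup S] [Finite S] (h : ¬ LocallyDS S) (N : ℕ) :
    ∃ (a : Fin (N + 1) → Fin (N * 2 + 1) → S) (b : Fin (N * 2 + 1) → S),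
      b ∈ Subsemigroup.closure (Set.range a) ∧
      ∀ w : FreeSemigroup (Fin (N + 1)), FreeSemigroup.lift a w = b → w.length = 2 ^ N := by
  obtain ⟨p, q, B, D, hred⟩ := reduction_words h
  let φ : Fin (N + 1) ≃ Option (Fin N) :=
    (Fintype.equivFinOfCardEq (by simp [Fintype.card_option])).symm
  let ψ : Fin (N * 2 + 1) ≃ Option (Fin N × Bool) :=
    (Fintype.equivFinOfCardEq (by simp [Fintype.card_option])).symm
  set s : Fin N → Bool := fun _ => false with hs
  set t : Fin N → Bool := fun _ => true with ht
  refine ⟨fun j i => redGen p q B D (ctr N) s (φ j) (ψ i), fun i => redTgt p B t (ψ i), ?_, ?_⟩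
  · obtain ⟨l, hl⟩ := exists_run (N := N) _ s rfl
    have h1 := (hred N N (ctr N) s t ⟨none, l.map some⟩).2 ⟨rfl, l, rfl, hl⟩
    rw [mem_closure_gen]
    refine ⟨FreeSemigroup.map φ.symm ⟨none, l.map some⟩, ?_⟩
    funext i
    rw [lift_map_equiv]
    have h2 : FreeSemigroup.map φ (FreeSemigroup.map φ.symm ⟨none, l.map some⟩) =
        (⟨none, l.map some⟩ : FreeSemigroup (Option (Fin N))) := by
      have : ∀ x : FreeSemigroup (Option (Fin N)),
          FreeSemigroup.map φ (FreeSemigroup.map φ.symm x) = x := by
        intro x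
        induction x with
        | ih1 j => simp
        | ih2 j x _ ih => simp [ih]
      exact this _
    rw [h2, h1]
  · intro w hw
    have h1 : FreeSemigroup.lift (redGen p q B D (ctr N) s) (FreeSemigroup.map φ w) =
        redTgt p B t := by
      funext i
      obtain ⟨i', rfl⟩ := ψ.surjective i
      rw [← lift_map_equiv, hw]
    obtain ⟨_, l, h2, h3⟩ := (hred N N (ctr N) s t _).1 h1
    have h4 := run_val l s t h3
    rw [hs, ht, val_zero, zero_add] at h4
    have h5 := val_one N
    rw [← FreeSemigroup.length_map φ w, FreeSemigroup.length, h2, List.length_map]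
    omega

end Pool.Agent.LibSMP
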