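import Pool.Agent.LibComplexity.Space
import Pool.Agent.LibSMP.Reduce

set_option autoImplicit false

/-!
The subpower membership problem as a language.
-/

namespace Pool.Agent.LibSMP

open Pool.Agent.LibComplexity Enc

/-- The subpower membership problem of `S`, as a set of words over `{0, 1}`. The instance with
generating tuples `a 0, ..., a (k-1)` and target tuple `b` in `S^n` is encoded by the word of the
pair (list of the lists of entries of the `a j`, list of entries of `b`). -/
def SMP (S : Type) [Semigroup S] [Enc S] : Set (List Bool) :=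
  {w | ∃ (n k : ℕ) (a : Fin k → Fin n → S) (b : Fin n → S), 1 ≤ n ∧ 1 ≤ k ∧
    w = word (List.ofFn (fun j => List.ofFn (a j)), List.ofFn b) ∧
    b ∈ Subsemigroup.closure (Set.range a)}

section
variable {S : Type} [Semigroup S] [Enc S]

/-- precomposition is a homomorphism of powers -/
def precomp (S : Type) [Semigroup S] {ι ι' : Type} (φ : ι' → ι) : (ι → S) →ₙ* (ι' → S) where
  toFun b := fun i => b (φ i)
  map_mul' _ _ := rfl

omit [Enc S] in
theorem closure_precomp {κ ι κ' ι' : Type} (a : κ → ι → S) (b : ι → S) (φ : ι' → ι)
    (hφ : Function.Surjective φ) (ψ : κ' → κ) (hψ : Function.Surjective ψ) :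
    (fun i => b (φ i)) ∈ Subsemigroup.closure (Set.range (fun j i => a (ψ j) (φ i))) ↔
      b ∈ Subsemigroup.closure (Set.range a) := by
  have h1 : Set.range (fun j i => a (ψ j) (φ i)) = precomp S φ '' Set.range a := by
    ext x
    constructor
    · rintro ⟨j, rfl⟩
      exact ⟨a (ψ j), ⟨ψ j, rfl⟩, rfl⟩
    · rintro ⟨_, ⟨j, rfl⟩, rfl⟩
      obtain ⟨j', rfl⟩ := hψ j
      exact ⟨j', rfl⟩
  have h2 : (fun i => b (φ i)) = precomp S φ b := rfl
  have hinj : Function.Injective (precomp S φ) := by
    intro x y h
    funext i
    obtain ⟨i', rfl⟩ := hφ i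
    exact congrFun h i'
  rw [h1, h2]
  have h3 := MulHom.map_mclosure (precomp S φ) (Set.range a)
  rw [← h3, Subsemigroup.mem_map]
  constructor
  · rintro ⟨x, hx, hxy⟩
    rwa [hinj hxy] at hx
  · intro h
    exact ⟨b, h, rfl⟩

theorem ofFn_get_map {α β : Type} (l : List α) (f : α → β) :
    List.ofFn (fun i : Fin l.length => f (l.get i)) = l.map f := by
  rw [← List.ofFn_get (l.map f)]
  simp

/-- Membership in the language `SMP S` for instances given by index types. -/
theorem mem_SMP {κ ι : Type} (a : κ → ι → S) (b : ι → S) (ks : List κ) (hks : ∀ k, k ∈ ks)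
    (cs : List ι) (hcs : ∀ i, i ∈ cs) (hk : ks ≠ []) (hc : cs ≠ []) :
    word (ks.map (fun k => cs.map (a k)), cs.map b) ∈ SMP S ↔
      b ∈ Subsemigroup.closure (Set.range a) := by
  have hφ : Function.Surjective (fun i : Fin cs.length => cs.get i) := by
    intro i
    obtain ⟨n, hn⟩ := List.get_of_mem (hcs i)
    exact ⟨n, hn⟩
  have hψ : Function.Surjective (fun i : Fin ks.length => ks.get i) := by
    intro i
    obtain ⟨n, hn⟩ := List.get_of_mem (hks i)
    exact ⟨n, hn⟩
  have key : (ks.map (fun k => cs.map (a k)), cs.map b) =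
      (List.ofFn (fun j : Fin ks.length => List.ofFn (fun i : Fin cs.length =>
        a (ks.get j) (cs.get i))), List.ofFn (fun i : Fin cs.length => b (cs.get i))) := by
    rw [ofFn_get_map, ← ofFn_get_map]
    congr 1
    congr 1
    funext j
    rw [ofFn_get_map]
  constructor
  · rintro ⟨n, k, a', b', hn, hk', hw, hmem⟩
    have h1 := word_injective hw
    rw [key] at h1
    have h2 := congrArg Prod.fst h1
    have h3 := congrArg Prod.snd h1
    simp only at h2 h3
    have hnn : cs.length = n := by
      have := congrArg List.length h3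
      simpa using this
    subst hnn
    have hkk : ks.length = k := by
      have := congrArg List.length h2
      simpa using this
    subst hkk
    have h4 : b' = fun i => b (cs.get i) := (List.ofFn_injective h3).symm
    have h5 : a' = fun j i => a (ks.get j) (cs.get i) := by
      have h6 := List.ofFn_injective h2
      funext j
      exact (List.ofFn_injective (congrFun h6 j)).symm
    rw [h4, h5, closure_precomp a b _ hφ _ hψ] at hmem
    exact hmem
  · intro h
    refine ⟨cs.length, ks.length, fun j i => a (ks.get j) (cs.get i), fun i => b (cs.get i),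
      List.length_pos_iff.2 hc, List.length_pos_iff.2 hk, by rw [key], ?_⟩
    rw [closure_precomp a b _ hφ _ hψ]
    exact h

end

end Pool.Agent.LibSMP
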