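import Pool.Agent.LibSMP.Lang

set_option autoImplicit false

/-!
Subpower membership is in `NP` if there are short words.
-/

namespace Pool.Agent.LibSMP

open Pool.Agent.LibComplexity Enc

open Classical in
/-- the object with a given code -/
noncomputable def decF {Q : Type} [Enc Q] (q0 : Q) (t : Tr) : Q :=
  if h : ∃ q : Q, e q = t then h.choose else q0

/-- decoding for a finite type with an arbitrary encoding -/
@[instance_reducible]
noncomputable def decAny (Q : Type) [Finite Q] [Enc Q] (q0 : Q) : Dec Q := by
  classical
  exact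
  { dec := decF q0
    dec_e := fun q => by
      have h : ∃ q' : Q, e q' = e q := ⟨q, rfl⟩
      unfold decF
      rw [dif_pos h]
      exact Enc.inj h.choose_spec
    ptf := fun 𝒜 => by
      cases nonempty_fintype Q
      let F : Tr → Q := decF q0
      let L : List Tr := (Finset.univ : Finset Q).toList.map e
      have hq : PTf 𝒜 (fun _ (t : Tr) => t) := PTf.id
      obtain ⟨h, hh, hh'⟩ := PTf.listCases (g := fun _ t _ => F t) hq
        (fun t => PTf.const (F t)) q0 L
      have h3 : PTf 𝒜 (fun _ (t : Tr) => L.any (fun t' => decide (t = t'))) :=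
        PTf.any (l := fun _ _ => L) (p := fun _ t t' => decide (t = t')) (PTf.const L)
          (PTf.decide_eq PTf.id.fst PTf.id.snd)
      refine (h3.ite hh (PTf.const q0)).congr fun A _ t => ?_
      by_cases ht : t ∈ L
      · have h4 : L.any (fun t' => decide (t = t')) = true := by
          rw [List.any_eq_true]
          exact ⟨t, ht, by simp⟩
        rw [if_pos h4]
        exact hh' A t ht
      · have h4 : ¬ (L.any (fun t' => decide (t = t')) = true) := by
          rw [List.any_eq_true]
          rintro ⟨t', h5, h6⟩
          exact ht (by rw [of_decide_eq_true h6]; exact h5)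
        unfold decF
        rw [if_neg h4, dif_neg]
        rintro ⟨q, rfl⟩
        exact ht (List.mem_map.2 ⟨q, by simp, rfl⟩) }

section
variable {S : Type} [Semigroup S]

/-- product of the entries number `i` of a nonempty list of tuples -/
def prodAt (s0 : S) (W : List (List S)) (i : ℕ) : S :=
  W.tail.foldl (fun s r => s * r.getD i s0) ((W.headD []).getD i s0)

theorem foldl_mul_acc {κ : Type} (f : κ → S) : ∀ (l : List κ) (x y : S),
    l.foldl (fun s j => s * f j) (x * y) = x * l.foldl (fun s j => s * f j) y := by
  intro l
  induction l with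
  | nil => intro x y; rfl
  | cons j l ih => intro x y; rw [List.foldl_cons, List.foldl_cons, mul_assoc, ih]

theorem lift_foldl {κ : Type} (f : κ → S) (w : FreeSemigroup κ) :
    FreeSemigroup.lift f w = w.tail.foldl (fun s j => s * f j) (f w.head) := by
  induction w with
  | ih1 j => rfl
  | ih2 j x _ ih =>
    rw [FreeSemigroup.lift_of_mul, ih]
    show _ = (x.head :: x.tail).foldl (fun s j => s * f j) (f j)
    rw [List.foldl_cons, foldl_mul_acc]

theorem lift_apply {κ ι : Type} (a : κ → ι → S) (w : FreeSemigroup κ) (i : ι) :
    FreeSemigroup.lift a w i = FreeSemigroup.lift (fun j => a j i) w := by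
  induction w with
  | ih1 j => rfl
  | ih2 j x _ ih =>
    rw [FreeSemigroup.lift_of_mul, FreeSemigroup.lift_of_mul, Pi.mul_apply, ih]

theorem prodAt_rows (s0 : S) {κ : Type} (row : κ → List S) (j : κ) (l : List κ) (i : ℕ) :
    prodAt s0 ((j :: l).map row) i =
      FreeSemigroup.lift (fun j => (row j).getD i s0) (⟨j, l⟩ : FreeSemigroup κ) := by
  rw [lift_foldl]
  unfold prodAt
  rw [List.map_cons, List.tail_cons, List.headD_cons, List.foldl_map]

variable [Finite S] [Enc S]

/-- The verifier. -/
noncomputable def verif (s0 : S) [Dec S] (p : List Bool × List Bool) : Bool := by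
  classical
  exact
    (decide (word (read (List (List S) × List S) p.1) = p.1) &&
    ((!(read (List (List S) × List S) p.1).1.isEmpty) &&
    ((!(read (List (List S) × List S) p.1).2.isEmpty) &&
    (((read (List (List S) × List S) p.1).1.all (fun r =>
      decide (r.length = (read (List (List S) × List S) p.1).2.length))) &&
    ((!(read (List (List S)) p.2).isEmpty) &&
    (((read (List (List S)) p.2).all (fun r =>
      (read (List (List S) × List S) p.1).1.any (fun r' => decide (r = r')))) &&
    ((List.range (read (List (List S) × List S) p.1).2.length).all (fun i =>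
      decide (prodAt s0 (read (List (List S)) p.2) i =
        (read (List (List S) × List S) p.1).2.getD i s0)))))))))

theorem verif_ptf (s0 : S) [Dec S] (𝒜 : Set Orc) :
    PTf 𝒜 (fun _ p => verif s0 p) := by
  classical
  have hI : PTf 𝒜 (fun _ (p : List Bool × List Bool) => read (List (List S) × List S) p.1) :=
    PTf.read PTf.id.fst
  have hW : PTf 𝒜 (fun _ (p : List Bool × List Bool) => read (List (List S)) p.2) :=
    PTf.read PTf.id.snd
  obtain ⟨B, hB⟩ := exists_sz_bound S
  have hprod : PTf 𝒜 (fun _ (q : List (List S) × ℕ) => prodAt s0 q.1 q.2) := by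
    unfold prodAt
    refine PTf.foldl (l := fun _ (q : List (List S) × ℕ) => q.1.tail)
      (h := fun _ (q : List (List S) × ℕ) => (q.1.headD []).getD q.2 s0)
      (g := fun _ (q : List (List S) × ℕ) s r => s * r.getD q.2 s0)
      PTf.id.fst.tail ((PTf.id.fst.headD (PTf.const [])).listGetD PTf.id.snd (PTf.const s0)) ?_
      (b := fun _ _ => B) (PB.const B) (fun A _ x k => hB _)
    have h1 : PTf 𝒜 (fun _ (z : (List (List S) × ℕ) × S × List S) =>
        (z.2.1, z.2.2.getD z.1.2 s0)) :=
      PTf.id.snd.fst.pair (PTf.id.snd.snd.listGetD PTf.id.fst.snd (PTf.const s0))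
    exact PTf.ofFinite (fun z : S × S => z.1 * z.2) h1
  unfold verif
  refine PTf.band (PTf.decide_eq hI.word PTf.id.fst) ?_
  refine PTf.band hI.fst.isEmpty.bnot ?_
  refine PTf.band hI.snd.isEmpty.bnot ?_
  refine PTf.band (PTf.all (p := fun _ (p : List Bool × List Bool) (r : List S) =>
    decide (r.length = (read (List (List S) × List S) p.1).2.length)) hI.fst
    (PTf.decide_eq PTf.id.snd.length (hI.comp PTf.id.fst).snd.length)) ?_
  refine PTf.band hW.isEmpty.bnot ?_
  refine PTf.band (PTf.all (p := fun _ (p : List Bool × List Bool) (r : List S) =>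
    (read (List (List S) × List S) p.1).1.any (fun r' => decide (r = r'))) hW ?_) ?_
  · refine PTf.any (l := fun _ (q : (List Bool × List Bool) × List S) =>
      (read (List (List S) × List S) q.1.1).1)
      (p := fun _ (q : (List Bool × List Bool) × List S) r' => decide (q.2 = r'))
      (hI.comp PTf.id.fst).fst ?_
    exact PTf.decide_eq PTf.id.fst.snd PTf.id.snd
  · refine PTf.all (p := fun _ (p : List Bool × List Bool) (i : ℕ) =>
      decide (prodAt s0 (read (List (List S)) p.2) i =
        (read (List (List S) × List S) p.1).2.getD i s0)) hI.snd.length.range ?_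
    refine PTf.decide_eq ?_ ((hI.comp PTf.id.fst).snd.listGetD PTf.id.snd (PTf.const s0))
    exact hprod.comp ((hW.comp PTf.id.fst).pair PTf.id.snd)

omit [Finite S] in
theorem verif_sound (s0 : S) [Dec S] {x y : List Bool} (h : verif s0 (x, y) = true) :
    x ∈ SMP S := by
  classical
  unfold verif at h
  simp only [Bool.and_eq_true, decide_eq_true_eq, Bool.not_eq_true', List.all_eq_true,
    List.any_eq_true, List.mem_range] at h
  obtain ⟨h1, h2, h3, h4, h5, h6, h7⟩ := h
  set I := read (List (List S) × List S) x with hI
  set W := read (List (List S)) y with hW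
  have hA : I.1 ≠ [] := by rintro hcon; rw [hcon] at h2; simp at h2
  have hb : I.2 ≠ [] := by rintro hcon; rw [hcon] at h3; simp at h3
  have hWn : W ≠ [] := by rintro hcon; rw [hcon] at h5; simp at h5
  refine ⟨I.2.length, I.1.length, fun j i => (I.1.get j).getD i s0, fun i => I.2.get i,
    List.length_pos_iff.2 hb, List.length_pos_iff.2 hA, ?_, ?_⟩
  · rw [← h1]
    congr 1
    refine Prod.ext ?_ ?_
    · apply List.ext_get (by simp)
      intro n hn hn'
      apply List.ext_get
      · simpa using h4 _ (List.get_mem I.1 ⟨n, hn⟩)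
      · intro m hm hm'
        simp at hm'
        have hm2 : m < I.1[n].length := hm
        simp [List.getElem?_eq_getElem hm2]
    · simp
  · rw [mem_closure_gen]
    -- indices of the rows of the witness
    have h8 : ∀ r ∈ W, ∃ j : Fin I.1.length, I.1.get j = r := by
      intro r hr
      obtain ⟨r', hr', hrr⟩ := h6 r hr
      rw [hrr]
      obtain ⟨n, hn⟩ := List.get_of_mem hr'
      exact ⟨n, hn⟩
    have h9 : ∃ js : List (Fin I.1.length), W = js.map I.1.get := by
      clear hWn h7 h6 h5 hW
      generalize W = W at h8
      induction W with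
      | nil => exact ⟨[], rfl⟩
      | cons r W ih =>
        obtain ⟨j, hj⟩ := h8 r (by simp)
        obtain ⟨js, hjs⟩ := ih (fun r' hr' => h8 r' (by simp [hr']))
        exact ⟨j :: js, by rw [List.map_cons, hj, hjs]⟩
    obtain ⟨js, hjs⟩ := h9
    rcases js with _ | ⟨j, js⟩
    · exact absurd hjs hWn
    · refine ⟨⟨j, js⟩, ?_⟩
      funext i
      rw [lift_apply]
      have h10 := h7 i i.2
      rw [hjs, prodAt_rows] at h10
      rw [h10]
      simp

omit [Finite S] in
theorem verif_complete (s0 : S) [Dec S] {n k : ℕ} (a : Fin k → Fin n → S) (b : Fin n → S)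
    (hn : 1 ≤ n) (hk : 1 ≤ k) (w : FreeSemigroup (Fin k)) (hw : FreeSemigroup.lift a w = b)
    (y : List Bool) (hy : read (List (List S)) y =
      (w.head :: w.tail).map (fun j => List.ofFn (a j))) :
    verif s0 (word (List.ofFn (fun j => List.ofFn (a j)), List.ofFn b), y) = true := by
  classical
  have hI : read (List (List S) × List S)
      (word (List.ofFn (fun j => List.ofFn (a j)), List.ofFn b)) =
      (List.ofFn (fun j => List.ofFn (a j)), List.ofFn b) := by
    have := read_word (List.ofFn (fun j => List.ofFn (a j)), List.ofFn b) []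
    rwa [List.append_nil] at this
  unfold verif
  simp only [hI, hy]
  simp only [Bool.and_eq_true, decide_eq_true_eq, Bool.not_eq_true', List.all_eq_true,
    List.any_eq_true, List.mem_range]
  refine ⟨trivial, ?_, ?_, ?_, by simp, ?_, ?_⟩
  · rw [← Bool.not_eq_true, List.isEmpty_iff]
    intro hcon
    have := congrArg List.length hcon
    simp at this
    omega
  · rw [← Bool.not_eq_true, List.isEmpty_iff]
    intro hcon
    have := congrArg List.length hcon
    simp at this
    omega
  · intro r hr
    rw [List.mem_ofFn] at hr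
    obtain ⟨j, rfl⟩ := hr
    simp
  · intro r hr
    rw [List.mem_map] at hr
    obtain ⟨j, _, rfl⟩ := hr
    exact ⟨_, List.mem_ofFn.2 ⟨j, rfl⟩, rfl⟩
  · intro i hi
    rw [List.length_ofFn] at hi
    rw [prodAt_rows, ← hw]
    have h1 : (fun j => (List.ofFn (a j)).getD i s0) = fun j => a j ⟨i, hi⟩ := by
      funext j
      rw [List.getD_eq_getElem?_getD, List.getElem?_ofFn]
      simp [hi]
    rw [h1, List.getD_eq_getElem?_getD, List.getElem?_ofFn]
    simp only [hi, dite_true, Option.getD_some]
    rw [lift_apply]

theorem inNP_of_short (C : ℕ)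
    (hC : ∀ (n k : ℕ) (a : Fin k → Fin n → S) (b : Fin n → S),
      b ∈ Subsemigroup.closure (Set.range a) →
        ∃ w : FreeSemigroup (Fin k), w.length ≤ (n + k + 2) ^ C ∧ FreeSemigroup.lift a w = b) :
    InNP ∅ (SMP S) := by
  classical
  rcases isEmpty_or_nonempty S with hS | ⟨⟨s0⟩⟩
  · -- no instances
    have : SMP S = ∅ := by
      ext w
      constructor
      · rintro ⟨n, k, a, b, hn, hk, _⟩
        exact (hS.false (b ⟨0, hn⟩)).elim
      · rintro ⟨⟩
    rw [this, inNP_iff]
    exact ⟨fun _ _ => false, 0, PTf.const false, fun x => by simp⟩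
  · let _ : Dec S := decAny S s0
    obtain ⟨B, hB⟩ := exists_sz_bound S
    let q : Polynomial ℕ := (2 * Polynomial.X + 2) ^ C * ((Polynomial.X * Polynomial.C (B + 1) + 1) + 1) + 1
    rw [inNP_iff]
    refine ⟨fun _ p => verif s0 p, q, verif_ptf s0 _, fun x => ⟨?_, ?_⟩⟩
    · rintro ⟨n, k, a, b, hn, hk, rfl, hmem⟩
      obtain ⟨w, hw1, hw2⟩ := hC n k a b hmem
      set W := (w.head :: w.tail).map (fun j => List.ofFn (a j)) with hW
      refine ⟨padTo (q.eval (word (List.ofFn (fun j => List.ofFn (a j)),
        List.ofFn b)).length) (word W), length_padTo _ _, ?_⟩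
      apply verif_complete s0 a b hn hk w hw2
      rw [read_padTo]
      rw [length_word]
      have h1 : n ≤ sz (List.ofFn (fun j => List.ofFn (a j)), List.ofFn b) := by
        rw [sz_pair]
        have h2 := length_le_sz (List.ofFn b)
        rw [List.length_ofFn] at h2
        omega
      have h1' : k ≤ sz (List.ofFn (fun j => List.ofFn (a j)), List.ofFn b) := by
        rw [sz_pair]
        have h2 := length_le_sz (List.ofFn (fun j => List.ofFn (a j)))
        rw [List.length_ofFn] at h2
        omega
      set X := sz (List.ofFn (fun j => List.ofFn (a j)), List.ofFn b) with hX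
      have h3 : ∀ r ∈ W, sz r ≤ X * (B + 1) + 1 := by
        intro r hr
        rw [hW, List.mem_map] at hr
        obtain ⟨j, _, rfl⟩ := hr
        refine (sz_list_le (fun y _ => hB y)).trans ?_
        rw [List.length_ofFn]
        have := Nat.mul_le_mul_right (B + 1) h1
        omega
      have h4 := sz_list_le h3
      have h5 : W.length = w.length := by simp [hW, FreeSemigroup.length]
      rw [h5] at h4
      refine h4.trans ?_
      simp only [q, Polynomial.eval_add, Polynomial.eval_mul, Polynomial.eval_X,
        Polynomial.eval_pow, Polynomial.eval_ofNat, Polynomial.eval_one, Polynomial.eval_C]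
      have h6 : (n + k + 2) ^ C ≤ (2 * X + 2) ^ C := Nat.pow_le_pow_left (by omega) C
      have h7 := Nat.mul_le_mul_right (X * (B + 1) + 1 + 1) (hw1.trans h6)
      omega
    · rintro ⟨y, _, hy⟩
      exact verif_sound s0 hy

end

end Pool.Agent.LibSMP
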