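import Pool.Agent.LibSMP.Lang
import Pool.Agent.LibPlan90.Plan

set_option autoImplicit false

/-!
Subpower membership is `PSPACE`-hard for every finite semigroup that is not locally DS.
-/

namespace Pool.Agent.LibSMP

open Pool.Agent.LibComplexity Pool.Agent.LibPlan90 Enc

theorem entOK_app (o : Ent) (a b : Bool) : EntOK o a b ↔ app o a ∧ b = eff o a := by
  rcases o with _ | ⟨p, q⟩
  · simp [EntOK, app, eff]
  · simp [EntOK, app, eff]

/-- a list as a function -/
def toFn {N : ℕ} (u : List Bool) : Fin N → Bool := fun i => u.getD i false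

/-- the rules as a matrix -/
def toR (rows : List (List Ent)) (N : ℕ) : Fin rows.length → Fin N → Option (Bool × Bool) :=
  fun j i => (rows.get j).getD i none

theorem toFn_inj {N : ℕ} {u v : List Bool} (hu : u.length = N) (hv : v.length = N)
    (h : (toFn u : Fin N → Bool) = toFn v) : u = v := by
  apply List.ext_get (by rw [hu, hv])
  intro n h1 h2
  have h3 := congrFun h ⟨n, by omega⟩
  simp only [toFn, List.getD_eq_getElem?_getD, List.getElem?_eq_getElem h1,
    List.getElem?_eq_getElem h2, Option.getD_some] at h3
  exact h3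

theorem toFn_ofFn {N : ℕ} (s : Fin N → Bool) : (toFn (List.ofFn s) : Fin N → Bool) = s := by
  funext i
  simp [toFn, List.getD_eq_getElem?_getD]

theorem pstep_fires {rows : List (List Ent)} {N : ℕ} (hr : ∀ r ∈ rows, r.length = N)
    {u u' : List Bool} (hu : u.length = N) (hu' : u'.length = N) :
    PStep rows u u' ↔ ∃ j, Fires (toR rows N j) (toFn u) (toFn u') := by
  unfold PStep Fires
  constructor
  · rintro ⟨r, hrm, h1, h2, h3⟩
    obtain ⟨j, hj⟩ := List.get_of_mem hrm
    refine ⟨j, fun i => ?_⟩
    have h4 := h3 i (by rw [hr r hrm]; exact i.2)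
    rw [entOK_app] at h4
    unfold toR
    rw [hj]
    exact h4
  · rintro ⟨j, hj⟩
    refine ⟨rows.get j, List.get_mem rows j, ?_, ?_, fun i hi => ?_⟩
    · rw [hu, hr _ (List.get_mem rows j)]
    · rw [hu', hr _ (List.get_mem rows j)]
    · rw [entOK_app]
      rw [hr _ (List.get_mem rows j)] at hi
      exact hj ⟨i, hi⟩

theorem pstep_length {rows : List (List Ent)} {N : ℕ} (hr : ∀ r ∈ rows, r.length = N)
    {u u' : List Bool} (h : PStep rows u u') : u'.length = N := by
  obtain ⟨r, hrm, _, h2, _⟩ := h
  rw [h2, hr r hrm]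

theorem reach_run {rows : List (List Ent)} {N : ℕ} (hr : ∀ r ∈ rows, r.length = N)
    {u v : List Bool} (hu : u.length = N) (hv : v.length = N) :
    Relation.ReflTransGen (PStep rows) u v ↔
      ∃ l, Run (toR rows N) (toFn u) l (toFn v) := by
  constructor
  · intro h
    induction h using Relation.ReflTransGen.head_induction_on with
    | refl => exact ⟨[], rfl⟩
    | head h1 _ ih =>
      obtain ⟨l, hl⟩ := ih (pstep_length hr h1)
      obtain ⟨j, hj⟩ := (pstep_fires hr hu (pstep_length hr h1)).1 h1
      exact ⟨j :: l, _, hj, hl⟩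
  · rintro ⟨l, hl⟩
    induction l generalizing u with
    | nil =>
      rw [toFn_inj hu hv hl]
    | cons j l ih =>
      obtain ⟨s', h1, h2⟩ := hl
      have h3 : (List.ofFn s').length = N := by simp
      rw [← toFn_ofFn s'] at h1 h2
      exact Relation.ReflTransGen.head ((pstep_fires hr hu h3).2 ⟨j, h1⟩) (ih h3 h2)

section
variable {S : Type} [Semigroup S] [Enc S]

/-- the row of `S` computed from a row of entries -/
def mkRow {β : Type} (p : S) (D : β → Bool → S) (r : List β) : List S :=
  p :: r.flatMap (fun o => [D o false, D o true])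

/-- the coordinates -/
def coords (N : ℕ) : List (Option (Fin N × Bool)) :=
  none :: (List.finRange N).flatMap (fun i => [some (i, false), some (i, true)])

theorem mem_coords {N : ℕ} (i : Option (Fin N × Bool)) : i ∈ coords N := by
  unfold coords
  rcases i with _ | ⟨i, _ | _⟩
  · simp
  · simp
  · simp

theorem finRange_flatMap {β γ : Type} {N : ℕ} (r : List β) (hr : r.length = N) (d : β)
    (g : β → List γ) :
    (List.finRange N).flatMap (fun i : Fin N => g (r.getD i d)) = r.flatMap g := by
  subst hr
  have h1 : (List.finRange r.length).map (fun i : Fin r.length => r.getD i d) = r := by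
    apply List.ext_get (by simp)
    intro n h1 h2
    simp
  have h2 : (List.finRange r.length).flatMap (fun i : Fin r.length => g (r.getD i d)) =
      ((List.finRange r.length).map (fun i : Fin r.length => r.getD i d)).flatMap g := by
    rw [List.flatMap_map]
  rw [h2, h1]

omit [Semigroup S] [Enc S] in
theorem coords_row {β : Type} {N : ℕ} (r : List β) (hr : r.length = N) (d : β) (p : S)
    (D : β → Bool → S) (f : Option (Fin N × Bool) → S) (h0 : f none = p)
    (h1 : ∀ i c, f (some (i, c)) = D (r.getD i d) c) : (coords N).map f = mkRow p D r := by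
  unfold coords mkRow
  rw [List.map_cons, h0, List.map_flatMap, ← finRange_flatMap r hr d]
  congr 1
  apply List.flatMap_congr
  intro i _
  simp only [List.map_cons, List.map_nil, h1]

theorem pspace_hard [Finite S] (h : ¬ LocallyDS S) {L : Set (List Bool)} (hL : InPSPACE L) :
    PolyRed L (SMP S) := by
  obtain ⟨p, q, B, D, hred⟩ := reduction_words h
  obtain ⟨F, hF1, hF2, hF3⟩ := pspace_plan hL
  let G : List Bool → List (List S) × List S := fun x =>
    (mkRow p B (F x).2.1 :: (F x).1.map (mkRow q D), mkRow p B (F x).2.2)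
  have hG : ∀ 𝒜 : Set Orc, PTf 𝒜 (fun _ x => G x) := by
    intro 𝒜
    have hB : PTf 𝒜 (fun _ (r : List Bool) => mkRow p B r) := by
      unfold mkRow
      refine (PTf.const p).cons (PTf.flatMap (g := fun _ _ o => [B o false, B o true]) PTf.id ?_)
      exact (PTf.ofFinite (fun o => [B o false, B o true]) PTf.id.snd)
    have hD : PTf 𝒜 (fun _ (r : List Ent) => mkRow q D r) := by
      unfold mkRow
      refine (PTf.const q).cons (PTf.flatMap (g := fun _ _ o => [D o false, D o true]) PTf.id ?_)
      exact (PTf.ofFinite (fun o : Ent => [D o false, D o true]) PTf.id.snd)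
    refine PTf.pair (PTf.cons (hB.comp (hF1 𝒜).snd.fst) ?_) (hB.comp (hF1 𝒜).snd.snd)
    exact PTf.map (g := fun _ _ r => mkRow q D r) (hF1 𝒜).fst (hD.comp PTf.id.snd)
  refine ⟨fun x => word (G x), inFP_iff.2 (hG {∅}).word, fun x => ?_⟩
  obtain ⟨h1, h2⟩ := hF2 x
  set rows := (F x).1 with hrows
  set N := (F x).2.1.length with hN
  rw [hF3, reach_run h1 hN.symm h2]
  set s : Fin N → Bool := toFn (F x).2.1 with hs
  set t : Fin N → Bool := toFn (F x).2.2 with ht
  have h3 : G x = ((none :: (List.finRange rows.length).map some).map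
      (fun k => (coords N).map (redGen p q B D (toR rows N) s k)),
      (coords N).map (redTgt p B t)) := by
    refine Prod.ext ?_ ?_
    · show mkRow p B (F x).2.1 :: rows.map (mkRow q D) = _
      rw [List.map_cons]
      congr 1
      · rw [coords_row (F x).2.1 hN.symm false p B _ rfl (fun i c => rfl)]
      · rw [List.map_map]
        apply List.ext_get (by simp)
        intro n h4 h5
        have h6 : n < rows.length := by simpa using h4
        simp only [List.get_eq_getElem, List.getElem_map, List.getElem_finRange,
          Function.comp_apply]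
        rw [coords_row (rows[n]) (h1 _ (List.getElem_mem h6)) none q D _ rfl (fun i c => rfl)]
    · show mkRow p B (F x).2.2 = _
      rw [coords_row (F x).2.2 h2 false p B _ rfl (fun i c => rfl)]
  show _ ↔ word (G x) ∈ SMP S
  rw [h3, mem_SMP _ _ _ ?_ _ mem_coords (by simp) (by simp [coords]), mem_closure_gen]
  · constructor
    · rintro ⟨l, hl⟩
      exact ⟨⟨none, l.map some⟩, (hred N _ (toR rows N) s t _).2 ⟨rfl, l, rfl, hl⟩⟩
    · rintro ⟨w, hw⟩
      obtain ⟨_, l, _, hl⟩ := (hred N _ (toR rows N) s t w).1 hw
      exact ⟨l, hl⟩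
  · intro k
    rcases k with _ | k
    · simp
    · simp

end

end Pool.Agent.LibSMP
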